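import Pool.Agent.P.MP_d66c6d_pr.Mass

/-! Uniqueness of Gaussian laws, and invariance of the loop measure under similarities. -/

namespace Pool.Agent.P.MP_d66c6d_pr

open MeasureTheory ProbabilityTheory Set Metric Filter Topology
open scoped ENNReal

/-- Centred Gaussian measures agree once their covariances agree on a separating family. -/
theorem gauss_ext {E : Type*} [NormedAddCommGroup E] [NormedSpace ℝ E] [SecondCountableTopology E]
    [CompleteSpace E] [MeasurableSpace E] [BorelSpace E] {μ ν : Measure E} [IsGaussian μ]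
    [IsGaussian ν] (F : Set (StrongDual ℝ E)) (hF : ∀ x y : E, (∀ L ∈ F, L x = L y) → x = y)
    (hμ : ∀ L ∈ F, ∫ x, L x ∂μ = 0) (hν : ∀ L ∈ F, ∫ x, L x ∂ν = 0)
    (h : ∀ L ∈ F, ∀ L' ∈ F, ∫ x, L x * L' x ∂μ = ∫ x, L x * L' x ∂ν) : μ = ν := by
  have m0 : ∀ (ρ : Measure E) [IsGaussian ρ], (∀ L ∈ F, ∫ x, L x ∂ρ = 0) → ρ[id] = 0 := by
    intro ρ _ hρ
    refine hF _ _ fun L hL => ?_
    rw [map_zero, ← hρ L hL, IsGaussian.integral_dual]
    rfl
  have key : ∀ (ρ : Measure E) [IsGaussian ρ] (L L' : StrongDual ℝ E),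
      ∫ x, L x * L' x ∂ρ = L' (∫ x, L x • x ∂ρ) := by
    intro ρ _ L L'
    have hi : Integrable (fun x => L x • x) ρ :=
      MemLp.integrable le_rfl (MemLp.smul (p := 2) (q := 2) (r := 1) IsGaussian.memLp_two_id
        (IsGaussian.memLp_dual ρ L 2 (by norm_num)))
    rw [← L'.integral_comp_comm hi]
    simp
  have h1 : ∀ L ∈ F, ∀ L' : StrongDual ℝ E, ∫ x, L x * L' x ∂μ = ∫ x, L x * L' x ∂ν := by
    intro L hL L'
    rw [key, key, hF (∫ x, L x • x ∂μ) (∫ x, L x • x ∂ν) fun L' hL' => by
      rw [← key, ← key, h L hL L' hL']]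
  have h2 : ∀ L L' : StrongDual ℝ E, ∫ x, L x * L' x ∂μ = ∫ x, L x * L' x ∂ν := by
    intro L L'
    rw [key, key, hF (∫ x, L x • x ∂μ) (∫ x, L x • x ∂ν) fun L' hL' => by
      rw [← key, ← key]
      simpa only [mul_comm] using h1 L' hL' L]
  refine IsGaussian.ext_covarianceBilinDual ((m0 μ hμ).trans (m0 ν hν).symm) ?_
  ext L L'
  rw [covarianceBilinDual_apply' IsGaussian.memLp_two_id,
    covarianceBilinDual_apply' IsGaussian.memLp_two_id, m0 μ hμ, m0 ν hν]
  simpa using h2 L L'

/-- Real part of the value at time `s`. -/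
noncomputable def evRe (s : unitInterval) : StrongDual ℝ Br :=
  Complex.reCLM.comp (ContinuousMap.evalCLM ℝ s)

/-- Imaginary part of the value at time `s`. -/
noncomputable def evIm (s : unitInterval) : StrongDual ℝ Br :=
  Complex.imCLM.comp (ContinuousMap.evalCLM ℝ s)

@[simp] theorem evRe_apply (s : unitInterval) (b : Br) : evRe s b = (b s).re := rfl

@[simp] theorem evIm_apply (s : unitInterval) (b : Br) : evIm s b = (b s).im := rfl

theorem IsBridge.int_ev {ν : Measure Br} (h : IsBridge ν) (s : unitInterval) :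
    Integrable (fun b : Br => b s) ν := by
  have := h.gauss
  exact (ContinuousMap.evalCLM ℝ s : Br →L[ℝ] ℂ).integrable_comp IsGaussian.integrable_id

theorem IsBridge.mean_re {ν : Measure Br} (h : IsBridge ν) (s : unitInterval) :
    ∫ b, (b s).re ∂ν = 0 := by
  have := Complex.reCLM.integral_comp_comm (h.int_ev s)
  rw [h.mean] at this
  simpa using this

theorem IsBridge.mean_im {ν : Measure Br} (h : IsBridge ν) (s : unitInterval) :
    ∫ b, (b s).im ∂ν = 0 := by
  have := Complex.imCLM.integral_comp_comm (h.int_ev s)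
  rw [h.mean] at this
  simpa using this

/-- The law of the bridge is unique. -/
theorem IsBridge.unique {ν ν' : Measure Br} (h : IsBridge ν) (h' : IsBridge ν') : ν = ν' := by
  have := h.gauss
  have := h'.gauss
  refine gauss_ext (range evRe ∪ range evIm) (fun x y hxy => ?_) ?_ ?_ ?_
  · ext s : 1
    exact Complex.ext (hxy _ (Or.inl ⟨s, rfl⟩)) (hxy _ (Or.inr ⟨s, rfl⟩))
  · rintro _ (⟨s, rfl⟩ | ⟨s, rfl⟩)
    exacts [h.mean_re s, h.mean_im s]
  · rintro _ (⟨s, rfl⟩ | ⟨s, rfl⟩)
    exacts [h'.mean_re s, h'.mean_im s]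
  · rintro _ (⟨s, rfl⟩ | ⟨s, rfl⟩) _ (⟨t, rfl⟩ | ⟨t, rfl⟩) <;> simp only [evRe_apply, evIm_apply]
    · rw [h.cov_re, h'.cov_re]
    · rw [h.cov_re_im, h'.cov_re_im]
    · simpa only [mul_comm] using (h.cov_re_im t s).trans (h'.cov_re_im t s).symm
    · rw [h.cov_im, h'.cov_im]

theorem int_dual_mul {ν : Measure Br} [IsGaussian ν] (L L' : StrongDual ℝ Br) :
    Integrable (fun b => L b * L' b) ν :=
  MemLp.integrable_mul (IsGaussian.memLp_dual ν L 2 (by norm_num))
    (IsGaussian.memLp_dual ν L' 2 (by norm_num))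

/-- Multiplication of paths by a complex number. -/
noncomputable def rotL (u : ℂ) : Br →L[ℝ] Br :=
  (ContinuousLinearMap.lsmul ℂ ℂ u : Br →L[ℂ] Br).restrictScalars ℝ

@[simp] theorem rotL_apply (u : ℂ) (b : Br) (s : unitInterval) : rotL u b s = u * b s := rfl

/-- The bridge is invariant under rotations. -/
theorem IsBridge.map_rot {ν : Measure Br} (h : IsBridge ν) {u : ℂ} (hu : ‖u‖ = 1) :
    ν.map (rotL u) = ν := by
  have := h.gauss
  have hm : Measurable (rotL u) := (rotL u).continuous.measurable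
  have hu2 : u.re * u.re + u.im * u.im = 1 := by
    rw [← Complex.normSq_apply, Complex.normSq_eq_norm_sq, hu]; norm_num
  have ir : ∀ s t, Integrable (fun b : Br => (b s).re * (b t).re) ν :=
    fun s t => int_dual_mul (evRe s) (evRe t)
  have ii : ∀ s t, Integrable (fun b : Br => (b s).im * (b t).im) ν :=
    fun s t => int_dual_mul (evIm s) (evIm t)
  have ic : ∀ s t, Integrable (fun b : Br => (b s).re * (b t).im) ν :=
    fun s t => int_dual_mul (evRe s) (evIm t)
  have comb : ∀ (s t : unitInterval) (p q r w : ℝ), ∫ b : Br, (p * ((b s).re * (b t).re) +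
      q * ((b s).im * (b t).im) + r * ((b s).re * (b t).im) + w * ((b t).re * (b s).im)) ∂ν =
      (p + q) * (min (s : ℝ) t - s * t) := by
    intro s t p q r w
    rw [integral_add _ ((ic t s).const_mul w), integral_add _ ((ic s t).const_mul r),
      integral_add ((ir s t).const_mul p) ((ii s t).const_mul q)]
    · simp only [integral_const_mul, h.cov_re, h.cov_im, h.cov_re_im]
      ring
    · exact ((ir s t).const_mul p).add ((ii s t).const_mul q)
    · exact (((ir s t).const_mul p).add ((ii s t).const_mul q)).add ((ic s t).const_mul r)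
  refine IsBridge.unique ⟨inferInstance, fun s => ?_, fun s t => ?_, fun s t => ?_,
    fun s t => ?_⟩ h
  · rw [integral_map hm.aemeasurable (Continuous.aestronglyMeasurable (by fun_prop))]
    simp only [rotL_apply, integral_const_mul, h.mean, mul_zero]
  · rw [integral_map hm.aemeasurable (Continuous.aestronglyMeasurable (by fun_prop))]
    have := comb s t (u.re * u.re) (u.im * u.im) (-(u.re * u.im)) (-(u.re * u.im))
    rw [hu2, one_mul] at this
    rw [← this]
    congr 1 with b
    simp only [rotL_apply, Complex.mul_re]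
    ring
  · rw [integral_map hm.aemeasurable (Continuous.aestronglyMeasurable (by fun_prop))]
    have := comb s t (u.im * u.im) (u.re * u.re) (u.re * u.im) (u.re * u.im)
    rw [add_comm (u.im * u.im), hu2, one_mul] at this
    rw [← this]
    congr 1 with b
    simp only [rotL_apply, Complex.mul_im]
    ring
  · rw [integral_map hm.aemeasurable (Continuous.aestronglyMeasurable (by fun_prop))]
    have := comb s t (u.re * u.im) (-(u.re * u.im)) (u.re * u.re) (-(u.im * u.im))
    rw [add_neg_cancel, zero_mul] at this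
    rw [← this]
    congr 1 with b
    simp only [rotL_apply, Complex.mul_re, Complex.mul_im]
    ring

/-- The image of a rooted loop under `z ↦ a z + c`. -/
noncomputable def aff (a c : ℂ) (l : Lp) : Lp :=
  (a * l.1 + c, ‖a‖ ^ 2 * l.2.1, rotL (a / ‖a‖) l.2.2)

theorem cont_aff (a c : ℂ) : Continuous (aff a c) := by
  unfold aff
  fun_prop

theorem trace_aff {a : ℂ} (ha : a ≠ 0) (c : ℂ) (l : Lp) :
    trace (aff a c l) = (fun z => a * z + c) '' trace l := by
  have hn : (‖a‖ : ℂ) ≠ 0 := by simpa using ha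
  rw [trace, trace, ← range_comp]
  congr 1 with s
  simp only [aff, rotL_apply, Function.comp_apply]
  rw [Real.sqrt_mul (sq_nonneg _), Real.sqrt_sq (norm_nonneg _)]
  push_cast
  field_simp
  ring

theorem time_map {r : ℝ} (hr : 0 < r) :
    timeMeasure.map (fun t => r * t) = ENNReal.ofReal r • timeMeasure := by
  have hm : Measurable fun t : ℝ => r * t := by fun_prop
  have h0 : timeMeasure (Iic 0) = 0 := by
    refine withDensity_absolutelyContinuous _ _ ?_
    rw [Measure.restrict_apply measurableSet_Iic, Iic_inter_Ioi]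
    simp
  have hpre : ∀ u : ℝ, (fun t => r * t) ⁻¹' Ioi u = Ioi (u / r) := fun u => by
    ext t; simp [div_lt_iff₀' hr]
  have hI : ∀ u > (0 : ℝ), timeMeasure.map (fun t => r * t) (Ioi u) =
      (ENNReal.ofReal r • timeMeasure) (Ioi u) := by
    intro u hu
    rw [Measure.map_apply hm measurableSet_Ioi, hpre, Measure.smul_apply, time_Ioi hu,
      time_Ioi (div_pos hu hr), smul_eq_mul, ← ENNReal.ofReal_mul hr.le]
    congr 1
    field_simp
  have hres : ∀ n : ℕ, (timeMeasure.map (fun t => r * t)).restrict (Ioi (1 / (n + 1 : ℝ))) =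
      (ENNReal.ofReal r • timeMeasure).restrict (Ioi (1 / (n + 1 : ℝ))) := by
    intro n
    have hp : (0 : ℝ) < 1 / (n + 1 : ℝ) := by positivity
    have : IsFiniteMeasure ((timeMeasure.map (fun t => r * t)).restrict
        (Ioi (1 / (n + 1 : ℝ)))) := by
      refine isFiniteMeasure_restrict.2 ?_
      rw [hI _ hp, Measure.smul_apply, time_Ioi hp]
      exact ENNReal.mul_ne_top ENNReal.ofReal_ne_top ENNReal.ofReal_ne_top
    refine ext_of_generate_finite (range Ioi) (BorelSpace.measurable_eq.trans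
      (borel_eq_generateFrom_Ioi ℝ)) isPiSystem_Ioi ?_ ?_
    · rintro _ ⟨u, rfl⟩
      rw [Measure.restrict_apply measurableSet_Ioi, Measure.restrict_apply measurableSet_Ioi,
        Ioi_inter_Ioi]
      exact hI _ (lt_max_of_lt_right hp)
    · rw [Measure.restrict_apply_univ, Measure.restrict_apply_univ]
      exact hI _ hp
  have hU : ⋃ n : ℕ, Ioi (1 / (n + 1 : ℝ)) = Ioi 0 := by
    ext t
    simp only [mem_iUnion, mem_Ioi]
    exact ⟨fun ⟨n, hn⟩ => lt_trans (by positivity) hn, fun ht => exists_nat_one_div_lt ht⟩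
  have h1 := Measure.restrict_iUnion_congr.2 hres
  rw [hU, Measure.restrict_eq_self_of_ae_mem, Measure.restrict_eq_self_of_ae_mem] at h1
  · exact h1
  · refine Measure.ae_smul_measure ?_ _
    exact measure_mono_null (fun t ht => not_lt.1 fun h : 0 < t => ht h) h0
  · refine (ae_map_iff hm.aemeasurable measurableSet_Ioi).2 ?_
    refine measure_mono_null (fun t ht => ?_) h0
    by_contra h
    exact ht (mul_pos hr (not_le.1 h))

theorem vol_map_aff {a : ℂ} (ha : a ≠ 0) (c : ℂ) : (volume : Measure ℂ).map (fun z => a * z + c) =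
    ENNReal.ofReal (‖a‖ ^ 2)⁻¹ • (volume : Measure ℂ) := by
  have hd : LinearMap.det (LinearMap.mulLeft ℝ a) = ‖a‖ ^ 2 := by
    rw [← Complex.normSq_eq_norm_sq, ← Algebra.norm_complex_apply, Algebra.norm_apply]
    rfl
  have h1 := Measure.map_linearMap_addHaar_eq_smul_addHaar (volume : Measure ℂ)
    (f := LinearMap.mulLeft ℝ a) (by rw [hd]; positivity)
  rw [hd, abs_of_nonneg (by positivity)] at h1
  have h2 : (fun z => a * z + c) = (fun z => z + c) ∘ (LinearMap.mulLeft ℝ a) := rfl
  rw [h2, ← Measure.map_map (by fun_prop) (Continuous.measurable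
    (LinearMap.continuous_of_finiteDimensional _)), h1, Measure.map_smul, map_add_right_eq_self]

/-- The loop measure is invariant under similarities. -/
theorem IsBridge.map_aff {ν : Measure Br} (h : IsBridge ν) {a : ℂ} (ha : a ≠ 0) (c : ℂ) :
    (loopMeasure ν).map (aff a c) = loopMeasure ν := by
  have := h.gauss
  have hn : 0 < ‖a‖ := norm_pos_iff.2 ha
  have e : aff a c = Prod.map (fun z => a * z + c)
      (Prod.map (fun t => ‖a‖ ^ 2 * t) (rotL (a / ‖a‖))) := rfl
  change ((volume : Measure ℂ).prod (timeMeasure.prod ν)).map _ =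
    (volume : Measure ℂ).prod (timeMeasure.prod ν)
  have hm : Measurable (rotL (a / ‖a‖)) := (rotL _).continuous.measurable
  rw [e, ← Measure.map_prod_map _ _ (by fun_prop) (by fun_prop),
    ← Measure.map_prod_map _ _ (by fun_prop) hm, vol_map_aff ha, time_map (by positivity),
    h.map_rot (by simp [hn.ne']), Measure.prod_smul_left, Measure.prod_smul_left,
    Measure.prod_smul_right, smul_smul, ← ENNReal.ofReal_mul (by positivity),
    inv_mul_cancel₀ (by positivity), ENNReal.ofReal_one, one_smul]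

theorem IsBridge.mp_aff {ν : Measure Br} (h : IsBridge ν) {a : ℂ} (ha : a ≠ 0) (c : ℂ) :
    MeasurePreserving (aff a c) (loopMeasure ν) (loopMeasure ν) :=
  ⟨(cont_aff a c).measurable, h.map_aff ha c⟩

end Pool.Agent.P.MP_d66c6d_pr
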