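import Pool.Agent.P.MP_d66c6d_pr.S.Supp
import Pool.Agent.P.MP_d66c6d_pr.B.Defs
import Pool.Agent.P.MP_d66c6d_pr.T.Defs

/-! Filled sets, and the loops that surround a given disc. -/

namespace Pool.Agent.P.MP_d66c6d_pr

open MeasureTheory ProbabilityTheory Set Metric Filter Topology
open scoped ENNReal

theorem mem_fill {A : Set ℂ} {z : ℂ} :
    z ∈ fill A ↔ Bornology.IsBounded (connectedComponentIn Aᶜ z) := Iff.rfl

/-- A connected set that avoids `K` is inside or outside the filling of `K`. -/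
theorem fill_conn {K C : Set ℂ} (hC : IsPreconnected C) (hd : Disjoint C K) {u v : ℂ} (hu : u ∈ C)
    (hv : v ∈ C) (h : u ∈ fill K) : v ∈ fill K := by
  have := connectedComponentIn_eq (hC.subset_connectedComponentIn hu hd.subset_compl_right hv)
  rw [mem_fill, ← this]
  exact h

theorem not_mem_fill {K C : Set ℂ} (hC : IsPreconnected C) (hd : Disjoint C K) {u : ℂ} (hu : u ∈ C)
    (hb : ¬ Bornology.IsBounded C) : u ∉ fill K := fun h =>
  hb (Bornology.IsBounded.subset h (hC.subset_connectedComponentIn hu hd.subset_compl_right))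

theorem fill_subset_ball {K : Set ℂ} {c : ℂ} {r : ℝ} (hr : 0 < r) (h : K ⊆ ball c r) :
    fill K ⊆ ball c r := by
  intro z hz
  by_contra hn
  rw [mem_ball, not_lt, dist_eq_norm] at hn
  have hC : IsPreconnected ((fun t : ℝ => c + t * (z - c)) '' Ici 1) :=
    isPreconnected_Ici.image _ (by fun_prop)
  have hnorm : ∀ t : ℝ, 1 ≤ t → dist (c + t * (z - c)) c = t * ‖z - c‖ := fun t ht => by
    rw [dist_eq_norm, add_sub_cancel_left, norm_mul, Complex.norm_real,
      Real.norm_of_nonneg (by linarith)]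
  refine not_mem_fill hC (disjoint_left.2 ?_) ⟨1, le_refl (1 : ℝ), by simp⟩ (fun hb => ?_) hz
  · rintro _ ⟨t, ht, rfl⟩ hK
    have := h hK
    rw [mem_ball, hnorm t ht] at this
    have ht : 1 ≤ t := ht
    nlinarith
  · obtain ⟨R, hR0, hR⟩ := hb.subset_ball_lt 0 c
    have ht : 1 ≤ 1 + R / r := by have := div_pos hR0 hr; linarith
    have := hR ⟨_, ht, rfl⟩
    rw [mem_ball, hnorm _ ht] at this
    have e : R / r * r = R := div_mul_cancel₀ _ hr.ne'
    have := div_pos hR0 hr
    nlinarith

theorem exists_far {K : Set ℂ} (hK : IsClosed K) {z : ℂ} (hz : z ∉ fill K) (c : ℂ) (R : ℝ) :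
    ∃ w, R ≤ dist w c ∧ JoinedIn Kᶜ z w := by
  have hzK : z ∈ Kᶜ := fun h => hz (subset_fill K h)
  by_contra hn
  refine hz ((isBounded_ball (x := c) (r := R)).subset fun w hw => ?_)
  by_contra hw'
  refine hn ⟨w, not_lt.1 hw', ?_⟩
  have hp := (hK.isOpen_compl.connectedComponentIn (x := z)).isConnected_iff_isPathConnected.1
    (isConnected_connectedComponentIn_iff.2 hzK)
  exact (hp.joinedIn _ (mem_connectedComponentIn hzK) _ hw).mono (connectedComponentIn_subset _ _)

/-- Being inside the filled trace is a closed condition. -/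
theorem isClosed_fill : IsClosed {p : ℂ × Br | p.1 ∈ fill (range p.2)} := by
  refine isOpen_compl_iff.1 (isOpen_iff_mem_nhds.2 fun ⟨z, g⟩ hz => ?_)
  have hK : IsCompact (range g) := isCompact_range g.continuous
  obtain ⟨w, hw, hj⟩ := exists_far hK.isClosed hz 0 (‖g‖ + 1)
  have hP : IsCompact (range hj.somePath) := isCompact_range hj.somePath.continuous
  obtain ⟨δ, hδ, hd⟩ := Disjoint.exists_thickenings (s := range hj.somePath) (t := range g)
    (disjoint_left.2 fun _ ⟨t, ht⟩ h => hj.somePath_mem t (ht ▸ h)) hP hK.isClosed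
  refine mem_of_superset (ball_mem_nhds _ (lt_min hδ one_pos)) fun ⟨z', g'⟩ h hf => ?_
  rw [mem_ball, Prod.dist_eq, max_lt_iff, lt_min_iff, lt_min_iff] at h
  have hg' : range g' ⊆ thickening δ (range g) := by
    rintro _ ⟨t, rfl⟩
    exact mem_thickening_iff.2 ⟨g t, ⟨t, rfl⟩, (ContinuousMap.dist_apply_le_dist t).trans_lt h.2.1⟩
  have hz0 : z ∈ range hj.somePath := ⟨0, hj.somePath.source⟩
  have hC : IsPreconnected (ball z δ ∪ range hj.somePath) :=
    (convex_ball z δ).isPreconnected.union z (mem_ball_self hδ) hz0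
      (isPreconnected_range hj.somePath.continuous)
  have h1 := fill_conn hC (hd.mono (union_subset (ball_subset_thickening hz0 δ)
    (self_subset_thickening hδ _)) hg') (Or.inl h.1.1) (Or.inr ⟨1, hj.somePath.target⟩) hf
  refine absurd (fill_subset_ball (c := 0) (r := ‖g‖ + 1) (by positivity) ?_ h1) (not_lt.2 hw)
  rintro _ ⟨t, rfl⟩
  have := (ContinuousMap.dist_apply_le_dist (f := g') (g := g) t).trans_lt h.2.2
  have h2 := g.norm_coe_le_norm t
  have h3 := norm_le_norm_add_norm_sub' (g' t) (g t)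
  rw [dist_eq_norm] at this
  rw [mem_ball_zero_iff]
  linarith

theorem fill_aff {a : ℂ} (ha : a ≠ 0) (c : ℂ) (A : Set ℂ) (z : ℂ) :
    a * z + c ∈ fill ((fun z => a * z + c) '' A) ↔ z ∈ fill A := by
  let T : ℂ ≃ₜ ℂ := (Homeomorph.mulLeft₀ a ha).trans (Homeomorph.addRight c)
  change T z ∈ fill (T '' A) ↔ _
  by_cases hz : z ∈ A
  · exact iff_of_true (subset_fill _ (mem_image_of_mem _ hz)) (subset_fill _ hz)
  rw [mem_fill, mem_fill, ← T.image_compl, ← T.image_connectedComponentIn hz]
  have l1 : LipschitzWith ‖a‖₊ T := LipschitzWith.of_dist_le_mul fun x y => by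
    change dist (a * x + c) (a * y + c) ≤ _
    simp [dist_eq_norm, ← mul_sub]
  have l2 : AntilipschitzWith ‖a⁻¹‖₊ T := AntilipschitzWith.of_le_mul_dist fun x y => by
    change _ ≤ _ * dist (a * x + c) (a * y + c)
    simp [dist_eq_norm, ← mul_sub, ha]
  refine ⟨fun h => (l2.isBounded_preimage h).subset (subset_preimage_image _ _), fun h => ?_⟩
  exact l1.isBounded_image h

/-- A closed curve close to a circle surrounds the points near the centre. -/
theorem mem_fill_of_near {g : Br} (hg : g 0 = g 1) {R : ℝ} {z : ℂ}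
    (h : ∀ t : unitInterval, ‖g t - z - R * Complex.exp (2 * Real.pi * (t : ℝ) * Complex.I)‖ < R) :
    z ∈ fill (range g) := by
  by_contra hz
  have hR : 0 < R := (norm_nonneg _).trans_lt (h 0)
  obtain ⟨w, hw, hj⟩ := exists_far (isCompact_range g.continuous).isClosed hz 0 (‖g‖ + 1)
  let G : ℝ → ℂ := fun s => g (projIcc 0 1 zero_le_one s)
  have hG : Continuous G := g.continuous.comp continuous_projIcc
  have hp : Continuous hj.somePath.extend := hj.somePath.continuous_extend
  have hsc : IsSimplyConnected (univ : Set (ℝ × ℝ)) := by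
    have := (convex_univ (𝕜 := ℝ) (E := ℝ × ℝ)).contractibleSpace univ_nonempty
    exact (inferInstance : SimplyConnectedSpace (univ : Set (ℝ × ℝ)))
  obtain ⟨L, hL, hLe⟩ := Complex.exists_continuousOn_eqOn_exp_comp hsc isOpen_univ
    (g := fun q : ℝ × ℝ => G q.1 - hj.somePath.extend q.2) (by fun_prop) (by
      rintro ⟨q, -, hq⟩
      obtain ⟨t, ht⟩ : hj.somePath.extend q.2 ∈ range hj.somePath :=
        hj.somePath.extend_range ▸ mem_range_self _
      exact hj.somePath_mem t ⟨_, (sub_eq_zero.1 hq).trans ht.symm⟩)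
  rw [continuousOn_univ] at hL
  have hE : ∀ s t, Complex.exp (L (s, t)) = G s - hj.somePath.extend t := fun s t =>
    hLe (mem_univ (s, t))
  have G01 : G 1 = G 0 := by simp [G, hg]
  have hne : ∀ s t, G s - hj.somePath.extend t ≠ 0 := fun s t => hE s t ▸ Complex.exp_ne_zero _
  have k1 := Complex.isCoveringMap_exp.const_of_comp (g := fun t : ℝ => L (1, t) - L (0, t))
    (by fun_prop) (fun s t => by
      simp only [Complex.exp_sub, hE, G01, div_self (hne _ _)]) 0 1
  -- a nonvanishing function close to one has a logarithm that returns to its value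
  have key : ∀ (t : ℝ) (φ : unitInterval → ℂ), Continuous φ →
      (∀ s : unitInterval, ‖(G s - hj.somePath.extend t) / Complex.exp (φ s) - 1‖ < 1) →
      Complex.exp (φ 1) = Complex.exp (φ 0) → L (1, t) - L (0, t) = φ 1 - φ 0 := by
    intro t φ hφ hs he
    have hsl : ∀ s : unitInterval,
        (G s - hj.somePath.extend t) / Complex.exp (φ s) ∈ Complex.slitPlane := fun s => by
      simpa using Complex.mem_slitPlane_of_norm_lt_one (hs s)
    have := Complex.isCoveringMap_exp.const_of_comp (g := fun s : unitInterval => L (s, t) - φ s -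
      Complex.log ((G s - hj.somePath.extend t) / Complex.exp (φ s)))
      (Continuous.sub (by fun_prop) (Continuous.clog (Continuous.div (by fun_prop) (by fun_prop)
        fun _ => Complex.exp_ne_zero _) hsl)) (fun s s' => by
        simp only [Complex.exp_sub, hE, Complex.exp_log (Complex.slitPlane_ne_zero (hsl _)),
          div_self (Complex.slitPlane_ne_zero (hsl _))]) 1 0
    simp only [Icc.coe_one, Icc.coe_zero, G01, he] at this
    linear_combination this
  have hR' : (R : ℂ) ≠ 0 := by exact_mod_cast hR.ne'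
  have k2 := key 0 (fun s => Complex.log R + 2 * Real.pi * (s : ℝ) * Complex.I) (by fun_prop)
    (fun s => by
      have hn : ‖(R : ℂ) * Complex.exp (2 * Real.pi * (s : ℝ) * Complex.I)‖ = R := by
        rw [norm_mul, Complex.norm_real, Real.norm_of_nonneg hR.le,
          show (2 * Real.pi * (s : ℝ) * Complex.I : ℂ) = (2 * Real.pi * s : ℝ) * Complex.I by
            push_cast; ring, Complex.norm_exp_ofReal_mul_I, mul_one]
      rw [Complex.exp_add, Complex.exp_log hR', div_sub_one (mul_ne_zero hR'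
        (Complex.exp_ne_zero _)), norm_div, hn, div_lt_one hR]
      simpa [G] using h s)
    (by simp [Complex.exp_add, Complex.exp_two_pi_mul_I])
  have hw' : ‖g‖ + 1 ≤ ‖w‖ := by simpa using hw
  have hw0 : 0 < ‖w‖ := by have := norm_nonneg g; linarith
  have hw1 : -w ≠ 0 := by simpa using hw0
  have k3 := key 1 (fun _ => Complex.log (-w)) continuous_const (fun s => by
      rw [Complex.exp_log hw1, div_sub_one hw1, norm_div, norm_neg, div_lt_one hw0]
      have := g.norm_coe_le_norm (projIcc 0 1 zero_le_one s)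
      simp only [Path.extend_one, sub_neg_eq_add, sub_add_cancel, G]
      linarith) rfl
  rw [k2, k3] at k1
  have := congrArg Complex.im k1
  simp [Real.pi_ne_zero] at this

/-- The loops in the disc of radius `4 s` around `p` whose filling contains the disc of
radius `s`. -/
def sur (p : ℂ) (s : ℝ) : Set Lp := {l | ball p s ⊆ fill (trace l) ∧ trace l ⊆ ball p (4 * s)}

theorem continuous_lp2 : Continuous fun l : Lp => (lp l).2 :=
  continuous_seg.comp (f := fun l : Lp => (l.1, l.1, l.2.1, l.2.2)) (by fun_prop)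

theorem isClosed_cov (B : Set ℂ) : IsClosed {l : Lp | B ⊆ fill (trace l)} := by
  have : {l : Lp | B ⊆ fill (trace l)} = ⋂ z ∈ B, (fun l : Lp => (z, (lp l).2)) ⁻¹'
      {p : ℂ × Br | p.1 ∈ fill (range p.2)} := by
    ext l
    simp [subset_def, range_lp]
  rw [this]
  exact isClosed_biInter fun z _ => isClosed_fill.preimage (continuous_const.prodMk continuous_lp2)

theorem isOpen_inside {U : Set ℂ} (hU : IsOpen U) : IsOpen {l : Lp | trace l ⊆ U} := by
  have := (ContinuousMap.isOpen_setOfPred_mapsTo (X := unitInterval) isCompact_univ hU).preimage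
    continuous_lp2
  convert this using 1
  ext l
  simp [← range_lp, mapsTo_univ_iff, range_subset_iff]

theorem meas_sur (p : ℂ) (s : ℝ) : MeasurableSet (sur p s) :=
  (isClosed_cov _).measurableSet.inter (isOpen_inside isOpen_ball).measurableSet

theorem aff_sur {a : ℂ} (ha : a ≠ 0) (c p : ℂ) (s : ℝ) :
    aff a c ⁻¹' sur (a * p + c) (‖a‖ * s) = sur p s := by
  have hn : 0 < ‖a‖ := norm_pos_iff.2 ha
  have hb : ∀ (z : ℂ) (r : ℝ), a * z + c ∈ ball (a * p + c) (‖a‖ * r) ↔ z ∈ ball p r := fun z r => by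
    simp [dist_eq_norm, ← mul_sub, hn]
  ext l
  simp only [sur, mem_preimage, mem_ofPred_eq, trace_aff ha, image_subset_iff]
  refine and_congr ⟨fun h z hz => (fill_aff ha c _ z).1 (h ((hb z s).2 hz)), fun h w hw => ?_⟩ ?_
  · obtain ⟨z, rfl⟩ : ∃ z, w = a * z + c := ⟨(w - c) / a, by field_simp; ring⟩
    exact (fill_aff ha c _ z).2 (h ((hb z s).1 hw))
  · refine forall₂_congr fun z _ => ?_
    rw [mem_preimage, mul_left_comm, hb]

theorem IsBridge.mass_sur {ν : Measure Br} (h : IsBridge ν) (p : ℂ) {s : ℝ} (hs : 0 < s) :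
    loopMeasure ν (sur p s) = loopMeasure ν (sur 0 1) := by
  have hs' : (s : ℂ) ≠ 0 := by exact_mod_cast hs.ne'
  rw [← aff_sur hs' p 0 1, (h.mp_aff hs' p).measure_preimage (meas_sur _ _).nullMeasurableSet]
  simp [abs_of_pos hs]

theorem sur_sz {p : ℂ} {s : ℝ} {l : Lp} (h : l ∈ sur p s) {c : ℂ} {r : ℝ} (hr : 0 < r)
    (hl : trace l ⊆ ball c r) : s ≤ r := by
  have h1 := h.1.trans (fill_subset_ball hr hl)
  have := measure_mono (μ := (volume : Measure ℂ)) h1
  rw [Complex.volume_ball, Complex.volume_ball, ENNReal.mul_le_mul_iff_left (by simpa using NNReal.pi_ne_zero) (by simp),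
    ENNReal.pow_le_pow_left_iff (by norm_num)] at this
  exact (ENNReal.ofReal_le_ofReal_iff hr.le).1 this

theorem sur_disj {p q : ℂ} {s r : ℝ} (hr : 0 < r) (h : 4 * r < s) :
    Disjoint (sur p s) (sur q r) := disjoint_left.2 fun _ h1 h2 =>
  absurd (sur_sz h1 (by positivity) h2.2) (not_le.2 h)

theorem sur_disj' {p q : ℂ} {s : ℝ} (h : 8 * s ≤ dist p q) : Disjoint (sur p s) (sur q s) :=
  disjoint_left.2 fun l h1 h2 => disjoint_left.1 (ball_disjoint_ball (by linarith))
    (h1.2 (root_mem l)) (h2.2 (root_mem l))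

theorem IsBridge.sur_ne_top {ν : Measure Br} (h : IsBridge ν) : loopMeasure ν (sur 0 1) ≠ ∞ := by
  obtain ⟨K, -, hK⟩ := exists_mass h
  refine ne_top_of_le_ne_top ?_ ((measure_mono fun l hl => ?_).trans
    (hK (ball 0 (4 * 1)) measurableSet_ball (1 / 4) (by norm_num)))
  · exact ENNReal.mul_ne_top measure_ball_lt_top.ne ENNReal.ofReal_ne_top
  · refine ⟨hl.2 (root_mem l), ?_⟩
    by_contra hn
    have := sur_sz hl (r := 1 / 2) (by norm_num) ((trace_sub l).trans (closedBall_subset_ball
      (by linarith [not_lt.1 hn])))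
    norm_num at this

/-- An open set of loops that contains a closed loop of positive duration has positive mass. -/
theorem IsBridge.pos_open {ν : Measure Br} (h : IsBridge ν) {W : Set Lp} (hW : IsOpen W) {l : Lp}
    (hl : l ∈ W) (ht : 0 < l.2.1) (h0 : l.2.2 0 = 0) (h1 : l.2.2 1 = 0) :
    loopMeasure ν (W ∩ {l | l.2.2 0 = 0 ∧ l.2.2 1 = 0}) ≠ 0 := by
  have := h.gauss
  obtain ⟨ε, hε, hb⟩ := Metric.isOpen_iff.1 hW l hl
  intro hz
  have h2 : loopMeasure ν (ball l.1 ε ×ˢ (ball l.2.1 ε ×ˢ (ball l.2.2 ε ∩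
      {b | b 0 = 0 ∧ b 1 = 0}))) = 0 := by
    refine measure_mono_null (fun q hq => mem_inter (hb ?_) hq.2.2.2) hz
    obtain ⟨x, t, b⟩ := l
    rw [← ball_prod_same, ← ball_prod_same]
    exact ⟨hq.1, hq.2.1, hq.2.2.1⟩
  change (volume : Measure ℂ).prod (timeMeasure.prod ν) _ = 0 at h2
  rw [Measure.prod_prod, Measure.prod_prod, mul_eq_zero, mul_eq_zero, inter_comm,
    Measure.measure_inter_eq_of_ae (t := {b : Br | b 0 = 0 ∧ b 1 = 0}) h.ae_ends] at h2
  rcases h2 with h2 | h2 | h2
  · exact (measure_ball_pos _ _ hε).ne' h2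
  · have hac : (volume : Measure ℝ).restrict (Ioi 0) ≪ timeMeasure := by
      refine withDensity_absolutelyContinuous' (Measurable.aemeasurable (by fun_prop)) ?_
      filter_upwards [ae_restrict_mem measurableSet_Ioi] with t ht
      have : 0 < t := ht
      simp only [ne_eq, ENNReal.ofReal_eq_zero, not_le]
      positivity
    have := hac h2
    rw [Measure.restrict_apply measurableSet_ball] at this
    exact (isOpen_ball.inter isOpen_Ioi).measure_ne_zero _ ⟨_, mem_ball_self hε, ht⟩ this
  · exact h.tube h0 h1 hε h2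

theorem IsBridge.sur_ne_zero {ν : Measure Br} (h : IsBridge ν) : loopMeasure ν (sur 0 1) ≠ 0 := by
  let c : Br := ⟨fun t => (5 / 2 : ℝ) * Complex.exp (2 * Real.pi * (t : ℝ) * Complex.I),
    by fun_prop⟩
  have hc : ∀ t, ‖c t‖ = 5 / 2 := fun t => by
    simp only [c, ContinuousMap.coe_mk]
    rw [norm_mul, Complex.norm_real, Real.norm_of_nonneg (by norm_num),
      show (2 * Real.pi * (t : ℝ) * Complex.I : ℂ) = (2 * Real.pi * t : ℝ) * Complex.I by
        push_cast; ring, Complex.norm_exp_ofReal_mul_I, mul_one]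
  refine fun hz => h.pos_open (isOpen_ball.preimage continuous_lp2 (t := ball c 1))
    (l := (((5 / 2 : ℝ) : ℂ), 1, c - ContinuousMap.const _ ((5 / 2 : ℝ) : ℂ))) ?_ one_pos
    (by simp [c]) (by simp [c, Complex.exp_two_pi_mul_I]) (measure_mono_null ?_ hz)
  · rw [mem_preimage, show (lp _).2 = c by ext t; simp [lp, seg_apply]]
    exact mem_ball_self one_pos
  · rintro l ⟨hl, h0, h1⟩
    have hd : ∀ t, ‖(lp l).2 t - c t‖ < 1 := fun t => by
      rw [← dist_eq_norm]
      exact (ContinuousMap.dist_apply_le_dist t).trans_lt hl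
    refine ⟨fun z hz => ?_, ?_⟩
    · rw [← range_lp]
      refine mem_fill_of_near (R := 5 / 2) (by simp [lp, seg_apply, h0, h1]) fun t => ?_
      have := norm_sub_le ((lp l).2 t - c t) z
      rw [mem_ball_zero_iff] at hz
      rw [sub_right_comm]
      change ‖(lp l).2 t - c t - z‖ < _
      linarith [hd t]
    · rw [← range_lp]
      rintro _ ⟨t, rfl⟩
      have := norm_le_norm_add_norm_sub' ((lp l).2 t) (c t)
      rw [mem_ball_zero_iff]
      linarith [hd t, hc t]

end Pool.Agent.P.MP_d66c6d_pr
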