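import Pool.Agent.P.MP_d66c6d_pr.S.Surr

/-! Chains of sets; if chains join all small discs then one cluster is dense. -/

namespace Pool.Agent.P.MP_d66c6d_pr

open Set Metric Filter Topology

/-- One step of a chain of members of `T`. -/
abbrev Lk (T : Set (Set ℂ)) (K K' : Set ℂ) : Prop :=
  Relation.ReflTransGen (fun A B => B ∈ T ∧ (A ∩ B).Nonempty) K K'

/-- A finite chain of members of `T` meets both `A` and `B`. -/
def Joins (T : Set (Set ℂ)) (A B : Set ℂ) : Prop :=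
  ∃ K ∈ T, ∃ K', Lk T K K' ∧ (K ∩ A).Nonempty ∧ (K' ∩ B).Nonempty

variable {T T' : Set (Set ℂ)} {K K' A A' B B' : Set ℂ}

theorem Lk.mem (hK : K ∈ T) (h : Lk T K K') : K' ∈ T := by
  cases h with
  | refl => exact hK
  | tail _ h => exact h.1

theorem Lk.mono (hT : T ⊆ T') (h : Lk T K K') : Lk T' K K' :=
  Relation.ReflTransGen.mono (fun _ _ h => ⟨hT h.1, h.2⟩) _ _ h

theorem Lk.symm (hK : K ∈ T) (h : Lk T K K') : Lk T K' K := by
  induction h with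
  | refl => exact .refl
  | tail h1 h2 ih => exact .head ⟨Lk.mem hK h1, inter_comm _ _ ▸ h2.2⟩ ih

theorem Joins.mono (h : Joins T A B) (hT : T ⊆ T') (hA : A ⊆ A') (hB : B ⊆ B') : Joins T' A' B' := by
  obtain ⟨K, hK, K', h, h1, h2⟩ := h
  exact ⟨K, hT hK, K', h.mono hT, h1.mono (inter_subset_inter_right _ hA),
    h2.mono (inter_subset_inter_right _ hB)⟩

theorem Joins.symm (h : Joins T A B) : Joins T B A := by
  obtain ⟨K, hK, K', h, h1, h2⟩ := h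
  exact ⟨K', h.mem hK, K, h.symm hK, h2, h1⟩

theorem isPreconnected_cluster (hT : ∀ K ∈ T, IsPreconnected K) (hK : K ∈ T) (hne : K.Nonempty) :
    IsPreconnected (cluster T K) := by
  obtain ⟨x, hx⟩ := hne
  refine isPreconnected_of_forall x fun y ⟨K', h, hy⟩ => ?_
  suffices ∃ C ⊆ cluster T K, x ∈ C ∧ K' ⊆ C ∧ IsPreconnected C by
    obtain ⟨C, h1, h2, h3, h4⟩ := this
    exact ⟨C, h1, h2, h3 hy, h4⟩
  clear hy
  induction h with
  | refl => exact ⟨K, subset_sUnion_of_mem .refl, hx, Subset.rfl, hT K hK⟩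
  | tail h1 h2 ih =>
    obtain ⟨C, c1, c2, c3, c4⟩ := ih
    obtain ⟨w, w1, w2⟩ := h2.2
    exact ⟨C ∪ _, union_subset c1 (subset_sUnion_of_mem (h1.tail h2)), Or.inl c2,
      subset_union_right, c4.union w (c3 w1) w2 (hT _ h2.1)⟩

/-- A chain that starts inside the filling of `L` and ends outside meets `L`. -/
theorem Lk.meets (hT : ∀ K ∈ T, IsPreconnected K) (hK : K ∈ T) (h : Lk T K K') {L : Set ℂ}
    (h1 : (K ∩ fill L).Nonempty) (h2 : (K' ∩ (fill L)ᶜ).Nonempty) :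
    ∃ M, Lk T K M ∧ (M ∩ L).Nonempty := by
  obtain ⟨u, u1, u2⟩ := h1
  obtain ⟨v, v1, v2⟩ := h2
  by_contra hn
  refine v2 (fill_conn (isPreconnected_cluster hT hK ⟨u, u1⟩) (disjoint_left.2 ?_)
    ⟨K, .refl, u1⟩ ⟨K', h, v1⟩ u2)
  rintro w ⟨M, hM, hw⟩ hL
  exact hn ⟨M, hM, w, hw, hL⟩

theorem dense_cluster {S : Set (Set ℂ)} (hS : ∀ K ∈ S, IsPreconnected K) {D : Set ℂ}
    (hD : Dense D) {U : Set ℂ} (hU : IsOpen U) (hc : IsPreconnected U) (hne : U.Nonempty)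
    (h1 : ∀ p ∈ D, ∀ r > (0 : ℝ), ∃ K ∈ S, ∃ s > (0 : ℝ), ball p s ⊆ fill K ∧ K ⊆ ball p r)
    (h2 : ∀ p ∈ D, ∀ q ∈ D, p ≠ q → ∀ s > (0 : ℝ),
      Joins {K ∈ S | K ⊆ ball p (4 * dist p q)} (ball p s) (ball q s)) :
    ∃ K ∈ S, K ⊆ U ∧ U ⊆ closure (cluster {K ∈ S | K ⊆ U} K) := by
  set T := {K ∈ S | K ⊆ U} with hT
  have hT' : ∀ K ∈ T, IsPreconnected K := fun K hK => hS K hK.1
  -- small loops around two nearby points are linked
  have link : ∀ p ∈ D, ∀ q ∈ D, p ≠ q → ball p (4 * dist p q) ⊆ U → ∃ C ∈ T,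
      ∀ c ∈ ({p, q} : Set ℂ), ∀ L ∈ T, (∃ s > (0 : ℝ), ball c s ⊆ fill L) →
        L ⊆ ball c (dist p q / 2) → Lk T C L := by
    intro p hp q hq hpq hb
    have hd : 0 < dist p q := dist_pos.2 hpq
    have two : ∀ c ∈ ({p, q} : Set ℂ), ∀ L ∈ T, ∀ s > (0 : ℝ), ball c s ⊆ fill L →
        L ⊆ ball c (dist p q / 2) → ∀ t ≤ s, t ≤ dist p q / 2 → ∀ M ∈ T, ∀ M', Lk T M M' →
        (M ∩ ball p t).Nonempty → (M' ∩ ball q t).Nonempty → Lk T M L := by
      intro c hc L hL s hs b1 b2 t ts td M hM M' hMM m1 m2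
      have b3 := fill_subset_ball (by positivity) b2
      have hdj : Disjoint (ball p (dist p q / 2)) (ball q (dist p q / 2)) :=
        ball_disjoint_ball (by linarith)
      rcases hc with rfl | rfl
      · obtain ⟨N, hN, hNL⟩ := hMM.meets hT' hM (L := L) (m1.mono (inter_subset_inter_right _
          ((ball_subset_ball ts).trans b1))) (m2.mono (inter_subset_inter_right _
          fun w hw hf => disjoint_left.1 hdj (b3 hf) (ball_subset_ball td hw)))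
        exact hN.tail ⟨hL, hNL⟩
      · obtain ⟨N, hN, hNL⟩ := (hMM.symm hM).meets hT' (hMM.mem hM) (L := L)
          (m2.mono (inter_subset_inter_right _ ((ball_subset_ball ts).trans b1)))
          (m1.mono (inter_subset_inter_right _
          fun w hw hf => disjoint_left.1 hdj (ball_subset_ball td hw) (b3 hf)))
        exact (hMM.trans hN).tail ⟨hL, hNL⟩
    obtain ⟨C, hC, s0, hs0, c1, c2⟩ := h1 p hp (dist p q / 2) (by positivity)
    have hCT : C ∈ T := ⟨hC, c2.trans ((ball_subset_ball (by linarith)).trans hb)⟩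
    refine ⟨C, hCT, fun c hc L hL ⟨s, hs, b1⟩ b2 => ?_⟩
    obtain ⟨M, hM, M', hMM, m1, m2⟩ := (h2 p hp q hq hpq (min (min s s0) (dist p q / 2))
      (by positivity)).mono (T' := T) (fun K hK => ⟨hK.1, hK.2.trans hb⟩) Subset.rfl Subset.rfl
    exact ((two p (Or.inl rfl) C hCT s0 hs0 c1 c2 _ ((min_le_left _ _).trans (min_le_right _ _))
      (min_le_right _ _) M hM M' hMM m1 m2).symm hM).trans (two c hc L hL s hs b1 b2 _
      ((min_le_left _ _).trans (min_le_left _ _)) (min_le_right _ _) M hM M' hMM m1 m2)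
  -- `C` owns `p`
  let Own : Set ℂ → ℂ → Prop := fun C p => ∃ r > (0 : ℝ), ∀ L ∈ T,
    (∃ s > (0 : ℝ), ball p s ⊆ fill L) → L ⊆ ball p r → Lk T C L
  have small : ∀ p ∈ D, p ∈ U → ∀ r > (0 : ℝ), ∃ L ∈ T, (∃ s > (0 : ℝ), ball p s ⊆ fill L) ∧
      L ⊆ ball p r := by
    intro p hp hpU r hr
    obtain ⟨ε, hε, hb⟩ := Metric.isOpen_iff.1 hU p hpU
    obtain ⟨L, hL, s, hs, b1, b2⟩ := h1 p hp (min r ε) (lt_min hr hε)
    exact ⟨L, ⟨hL, b2.trans ((ball_subset_ball (min_le_right _ _)).trans hb)⟩, ⟨s, hs, b1⟩,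
      b2.trans (ball_subset_ball (min_le_left _ _))⟩
  have same : ∀ C, ∀ C' ∈ T, ∀ p ∈ D, p ∈ U → Own C p → Own C' p → Lk T C C' := by
    rintro C C' hC' p hp hpU ⟨r, hr, h⟩ ⟨r', hr', h'⟩
    obtain ⟨L, hL, b1, b2⟩ := small p hp hpU _ (lt_min hr hr')
    exact (h L hL b1 (b2.trans (ball_subset_ball (min_le_left _ _)))).trans
      ((h' L hL b1 (b2.trans (ball_subset_ball (min_le_right _ _)))).symm hC')
  have own_lk : ∀ C C' p, Lk T C C' → Own C' p → Own C p := fun C C' p h ⟨r, hr, h'⟩ =>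
    ⟨r, hr, fun L hL b1 b2 => h.trans (h' L hL b1 b2)⟩
  -- locally there is one owner
  have loc : ∀ z ∈ U, ∃ ρ > (0 : ℝ), ball z ρ ⊆ U ∧ ∃ C ∈ T, ∀ p ∈ D, p ∈ ball z ρ → Own C p := by
    intro z hz
    obtain ⟨ε, hε, hb⟩ := Metric.isOpen_iff.1 hU z hz
    have hsub : ball z (ε / 9) ⊆ U := (ball_subset_ball (by linarith)).trans hb
    have lk : ∀ p ∈ D, ∀ q ∈ D, p ≠ q → p ∈ ball z (ε / 9) → q ∈ ball z (ε / 9) →
        ∃ C ∈ T, Own C p ∧ Own C q := by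
      intro p hp q hq hpq pz qz
      have hd : 0 < dist p q := dist_pos.2 hpq
      rw [mem_ball] at pz qz
      obtain ⟨C, hC, h⟩ := link p hp q hq hpq ((ball_subset_ball' (by
        linarith [dist_triangle_right p q z])).trans hb)
      exact ⟨C, hC, ⟨_, by positivity, h p (Or.inl rfl)⟩, ⟨_, by positivity, h q (Or.inr rfl)⟩⟩
    obtain ⟨p, pz, hp⟩ := hD.inter_open_nonempty _ isOpen_ball ⟨z, mem_ball_self (by positivity :
      0 < ε / 9)⟩
    obtain ⟨q, ⟨qz, qp⟩, hq⟩ := hD.inter_open_nonempty (ball z (ε / 9) ∩ {p}ᶜ)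
      (isOpen_ball.inter isOpen_compl_singleton) ((dense_compl_singleton p).inter_open_nonempty _
        isOpen_ball ⟨p, pz⟩)
    obtain ⟨C, hC, c1, -⟩ := lk p hp q hq (Ne.symm qp) pz qz
    refine ⟨ε / 9, by positivity, hsub, C, hC, fun w hw wz => ?_⟩
    by_cases hwp : p = w
    · exact hwp ▸ c1
    · obtain ⟨C', hC', d1, d2⟩ := lk p hp w hw hwp pz wz
      exact own_lk _ _ _ (same C C' hC' p hp (hsub pz) c1 d1) d2
  obtain ⟨z0, hz0⟩ := hne
  obtain ⟨ρ0, hρ0, -, C, hC, h0⟩ := loc z0 hz0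
  let G : Set ℂ := {z | ∃ ρ > (0 : ℝ), ∀ p ∈ D, p ∈ ball z ρ → Own C p}
  have hG : IsOpen G := by
    refine Metric.isOpen_iff.2 fun z ⟨ρ, hρ, h⟩ => ⟨ρ, hρ, fun w hw => ?_⟩
    exact ⟨ρ - dist w z, sub_pos.2 hw, fun p hp hpw => h p hp (ball_subset_ball' (by linarith) hpw)⟩
  have hUG : U ⊆ G := by
    refine hc.subset_of_closure_inter_subset hG ⟨z0, hz0, ρ0, hρ0, h0⟩ fun z ⟨hz, hzU⟩ => ?_
    obtain ⟨ρ, hρ, hb, C', hC', h'⟩ := loc z hzU
    obtain ⟨w, wz, σ, hσ, hw⟩ := _root_.mem_closure_iff.1 hz _ isOpen_ball (mem_ball_self hρ)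
    obtain ⟨p, ⟨p1, p2⟩, hp⟩ := hD.inter_open_nonempty (ball z ρ ∩ ball w σ)
      (isOpen_ball.inter isOpen_ball) ⟨w, wz, mem_ball_self hσ⟩
    exact ⟨ρ, hρ, fun q hq qz => own_lk _ _ _
      (same C C' hC' p hp (hb p1) (hw p hp p2) (h' p hp p1)) (h' q hq qz)⟩
  refine ⟨C, hC.1, hC.2, fun z hz => Metric.mem_closure_iff.2 fun ε hε => ?_⟩
  obtain ⟨ρ, hρ, h⟩ := hUG hz
  obtain ⟨p, ⟨⟨p1, p2⟩, p3⟩, hp⟩ := hD.inter_open_nonempty (ball z ρ ∩ ball z (ε / 2) ∩ U)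
    ((isOpen_ball.inter isOpen_ball).inter hU)
    ⟨z, ⟨mem_ball_self hρ, mem_ball_self (by positivity)⟩, hz⟩
  obtain ⟨r, hr, hown⟩ := h p hp p1
  obtain ⟨L, hL, b1, b2⟩ := small p hp p3 (min r (ε / 2)) (by positivity)
  have hLk := hown L hL b1 (b2.trans (ball_subset_ball (min_le_left _ _)))
  obtain ⟨w, hw⟩ : L.Nonempty := by
    by_contra hn
    obtain ⟨s, hs, b1⟩ := b1
    rw [not_nonempty_iff_eq_empty.1 hn] at b1
    exact not_mem_fill isPreconnected_univ (disjoint_empty _) (mem_univ p)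
      (NormedSpace.unbounded_univ ℝ ℂ) (b1 (mem_ball_self hs))
  refine ⟨w, ⟨L, hLk, hw⟩, ?_⟩
  have := (ball_subset_ball (min_le_right _ _)) (b2 hw)
  rw [mem_ball] at this p2
  linarith [dist_triangle_left z w p, dist_comm p w, dist_comm p z]

end Pool.Agent.P.MP_d66c6d_pr
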