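import Pool.Agent.P.MP_d66c6d_pr.S.Defs
import Pool.Agent.P.MP_d66c6d_pr.F.Iface

/-!
Statements on subcriticality, lattice animals and the one-step lower criterion.
-/

namespace Pool.Agent.P.MP_d66c6d_pr

open MeasureTheory ProbabilityTheory Set Metric Filter Topology
open scoped ENNReal

-- deps: JOINT RCH PPO MUK
/-- Chain events: measurability, monotonicity in the intensity, invariance. -/
def S_JN : Prop :=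
  (∀ (A : Set KC) (B C : Set ℂ), MeasurableSet A → MeasurableSet (hitK B) →
    MeasurableSet (hitK C) → MeasurableSet {S | LF stdA S ∧ S ∈ Jn A B C}) ∧
  ∀ ν : Measure Br, IsBridge ν → ∀ c : ℝ≥0∞, c ≠ ∞ →
    (∀ m : Measure KC, m ≤ c • muK ν → SigmaFinite m ∧ (∀ᵐ S ∂PP m, LF stdA S) ∧
      ∃ m' : Measure KC, SigmaFinite m' ∧ m + m' = c • muK ν) ∧
    (∀ (m : Measure KC) (A : Set KC) (B C : Set ℂ), m ≤ c • muK ν → MeasurableSet A →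
      MeasurableSet (hitK B) → MeasurableSet (hitK C) →
      NullMeasurableSet (Jn A B C) (PP m) ∧ PP m (Jn A B C) ≤ PP (c • muK ν) (Jn A B C)) ∧
    ∀ (a b : ℂ) (A : Set KC) (B C : Set ℂ), a ≠ 0 → MeasurableSet A → MeasurableSet (hitK B) →
      MeasurableSet (hitK C) →
      PP (c • muK ν) (Jn (simK a b ⁻¹' A) ((fun z => a * z + b) ⁻¹' B) ((fun z => a * z + b) ⁻¹' C))
        = PP (c • muK ν) (Jn A B C)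

-- deps: JN PPO MUK
/-- A zero-one law for chains of arbitrarily small loops. -/
def S_ZO : Prop := ∀ ν : Measure Br, IsBridge ν → ∀ c : ℝ≥0∞, c ≠ ∞ →
  ∀ (A : Set KC) (B C : Set ℂ), MeasurableSet A → MeasurableSet (hitK B) →
  MeasurableSet (hitK C) → ∀ q : ℝ≥0∞, q ≠ 0 →
  (∀ δ > (0 : ℝ), q ≤ PP (c • muK ν) (Jn (A ∩ (bigK δ)ᶜ) B C)) →
  ∀ δ > (0 : ℝ), ∀ᵐ S ∂PP (c • muK ν), S ∈ Jn (A ∩ (bigK δ)ᶜ) B C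

-- deps:
/-- Without subcriticality both ends of the chains can be localised. -/
def S_LOCJ : Prop := ∀ (ν : Measure Br) (c : ℝ≥0∞), ¬ SubC ν c →
  ∃ x y : ℂ, ‖x‖ ≤ 1 ∧ 2 ≤ ‖y‖ ∧ ∀ s > (0 : ℝ), ∃ q : ℝ≥0∞, q ≠ 0 ∧ ∀ δ > (0 : ℝ),
    q ≤ PP (c • muK ν) (Jn (inK (ball 0 3) ∩ (bigK δ)ᶜ) (ball x s) (ball y s))

-- deps: JN ZO LOCJ PPO MUK
/-- Without subcriticality one cluster is dense. -/
def S_DENS : Prop := ∀ ν : Measure Br, IsBridge ν → ∀ c : ℝ≥0∞, c ≠ ∞ → ¬ SubC ν c →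
  ∀ᵐ S ∂PP (c • muK ν), ∀ U : Set ℂ, IsOpen U → IsPreconnected U → U.Nonempty →
    ∃ K ∈ sets S, K ⊆ U ∧ U ⊆ closure (cluster {K ∈ sets S | K ⊆ U} K)

-- deps: JN
/-- In the subcritical regime clusters of small loops are small, uniformly in the intensity. -/
def S_BLOB : Prop := ∀ ν : Measure Br, IsBridge ν → ∀ c : ℝ≥0∞, c ≠ ∞ → SubC ν c →
  (∀ c' ≤ c, SubC ν c') ∧
  (∀ R ρ : ℝ, 0 < ρ → ∀ ζ : ℝ≥0∞, ζ ≠ 0 → ∃ δ > (0 : ℝ), ∀ m : Measure KC, m ≤ c • muK ν →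
    PP m {S | ¬ Tiny R ρ δ S} ≤ ζ) ∧
  ∀ m : Measure KC, m ≤ c • muK ν → ∀ᵐ S ∂PP m, Blob S

-- deps: JN PPO MUK
/-- Stretched exponential decay of chains of small loops. -/
def S_SUBQ : Prop := ∀ ν : Measure Br, IsBridge ν → ∀ c : ℝ≥0∞, c ≠ ∞ → SubC ν c →
  ∃ a C : ℝ, 0 < a ∧ ∀ m : Measure KC, m ≤ c • muK ν → ∀ (z : ℂ) (r δ : ℝ), 0 < r → 0 < δ →
    PP m (Crs δ z r) ≤ ENNReal.ofReal (C * Real.exp (-a * (r / δ) ^ (1 / 4 : ℝ)))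

-- deps:
/-- A finite animal is the range of a short walk. -/
def S_WALK : Prop := ∀ (c₀ : ℤ × ℤ) (A : Finset (ℤ × ℤ)), Anim c₀ A →
  ∃ w : ℕ → ℤ × ℤ, w 0 = c₀ ∧ (∀ i, dist (w i) (w (i + 1)) ≤ 2) ∧
    A = (Finset.range (2 * A.card)).image w

-- deps: WALK
/-- The number of animals, and the Peierls estimate. -/
def S_ANI : Prop :=
  (∀ (c₀ : ℤ × ℤ) (n : ℕ), ∃ F : Finset (Finset (ℤ × ℤ)), F.card ≤ 625 ^ n ∧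
    ∀ A : Finset (ℤ × ℤ), Anim c₀ A → A.card = n → A ∈ F) ∧
  ∀ k : ℕ, ∃ p : ℝ≥0∞, p ≠ 0 ∧ ∀ (Ω : Type) [MeasurableSpace Ω] (P : Measure Ω)
    (bad : ℤ × ℤ → Set Ω),
    (∀ B : Finset (ℤ × ℤ), B.Nonempty → (∀ a ∈ B, ∀ b ∈ B, a ≠ b → (k : ℝ) ≤ dist a b) →
      P (⋂ c ∈ B, bad c) ≤ p ^ B.card) →
    ∀ (c₀ : ℤ × ℤ) (n : ℕ), P {ω | ∃ A : Finset (ℤ × ℤ), Anim c₀ A ∧ n ≤ A.card ∧
      A.card ≤ 2 * {c | c ∈ A ∧ ω ∈ bad c}.ncard} ≤ 2⁻¹ ^ n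

-- deps:
/-- The cells met by a continuum. -/
def S_CELLS : Prop := ∀ (ε : ℝ) (Γ : Set ℂ), 0 < ε → IsCompact Γ → IsPreconnected Γ →
  (cells ε Γ).Finite ∧ (∀ c ∈ cells ε Γ, Anim c (cells ε Γ)) ∧
  (∀ x ∈ Γ, ∃ c ∈ cells ε Γ, x ∈ closedBall (gp ε c) ε) ∧
  (∀ x ∈ Γ, ∀ y ∈ Γ, dist x y ≤ 4 * ε * (cells ε Γ).ncard) ∧
  volume (thickening ε Γ) ≤ ENNReal.ofReal (16 * ε ^ 2) * (cells ε Γ).ncard ∧
  ∀ (G : Set (ℤ × ℤ)) (T : Set ℂ) (v : ℝ≥0∞), G.Finite → MeasurableSet T →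
    (∀ c ∈ G, v ≤ volume (T ∩ ball (gp ε c) (3 * ε))) → (G.ncard : ℝ≥0∞) * v ≤ 49 * volume T

-- deps: ANI CELLS PPO
/-- With high probability most cells met by any macroscopic continuum are good. -/
def S_PEIA : Prop := ∀ k : ℕ, ∃ p : ℝ≥0∞, p ≠ 0 ∧ ∀ (z : ℂ) (ρ : ℝ), 0 < ρ → ∀ ζ : ℝ≥0∞, ζ ≠ 0 →
  ∃ ε₀ > (0 : ℝ), ∀ ε ∈ Ioo 0 ε₀, ∀ m : Measure KC, SFinite m →
  ∀ bad : ℤ × ℤ → Set (Cfg KC), (∀ c, MeasurableSet (bad c)) →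
  (∀ c, PP m {S | S.res (inK (ball (gp ε c) (k * ε))) ∈ bad c} ≤ p) →
  PP m {S | ∃ Γ, Cont z ρ Γ ∧ (cells ε Γ).ncard ≤
    2 * {c | c ∈ cells ε Γ ∧ S.res (inK (ball (gp ε c) (k * ε))) ∈ bad c}.ncard} ≤ ζ

-- deps: CELLS
/-- From good cells to the gain of area. -/
def S_GAIN : Prop := ∀ (X : Set ℂ) (z : ℂ) (ρ ε M v : ℝ) (bad : ℤ × ℤ → Prop),
  0 < ε → 8 * ε ≤ ρ → 1 ≤ M → 0 ≤ v →
  (∀ Γ, Cont z ρ Γ → 2 * {c | c ∈ cells ε Γ ∧ bad c}.ncard < (cells ε Γ).ncard) →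
  (∀ c, ¬ bad c → ∀ Γ ⊆ X, Cont z ρ Γ → (Γ ∩ closedBall (gp ε c) ε).Nonempty →
    ¬ Γ ⊆ ball (gp ε c) (2 * ε) →
    ENNReal.ofReal (v * ε ^ 2) ≤ volume (thickening (ε / M) Γ ∩ ball (gp ε c) (3 * ε))) →
  Gain X z ρ ε M (v / 1600)

-- deps:
-- imports: Pool.Agent.P.MP_d66c6d_pr.Expo
/-- The one-step lower criterion for the distance exponent. -/
def S_LOWX : Prop := ∀ (Ω : Type) [MeasurableSpace Ω] (P : Measure Ω) [IsProbabilityMeasure P]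
  (X : Ω → Set ℂ) (θ : ℝ), IsDistExp P X θ → (∀ᵐ ω ∂P, IsCompact (X ω)) →
  (∀ᵐ ω ∂P, ∀ x ∈ X ω, ∀ y ∈ X ω, JoinedIn (X ω) x y) ∧
  ∀ (z : ℂ) (ρ M g : ℝ), 0 < ρ → 0 < M → 0 < g → ∀ p : ℝ≥0∞, p ≠ 0 →
    (∃ᶠ ε in 𝓝[>] (0 : ℝ), p ≤ P {ω | (X ω ∩ closedBall z (ρ / 2)).Nonempty ∧
      ¬ X ω ⊆ ball z ρ ∧ Gain (X ω) z ρ ε M g}) → g ≤ M ^ (θ - 2)

-- deps: PPE PPO MUK
/-- Short walks that avoid the filled loops are unlikely. -/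
def S_BADM : Prop := ∀ K M : ℕ,
  (∀ c r, MeasurableSet (badB K M c r) ∧
    ∀ S : Cfg KC, S.res (inK (ball c (4 * r))) ∈ badB K M c r ↔ S ∈ badB K M c r) ∧
  ∀ ν : Measure Br, IsBridge ν → ∀ α : ℝ≥0∞, α ≠ ∞ →
    (∀ c r, 0 < r → PP (α • muK ν) (badB K M c r) = PP (α • muK ν) (badB K M 0 1)) ∧
    (α ≠ 0 → Tendsto (fun M' => PP (α • muK ν) (badB K M' 0 1)) atTop (𝓝 0))

-- deps:
/-- A continuum that crosses a good annulus has a large neighbourhood. -/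
def S_WLK : Prop := ∀ (K M : ℕ) (c : ℂ) (r : ℝ) (S : Cfg KC) (Γ : Set ℂ), 6 ≤ M → 0 < r →
  S ∉ badB K M c r → IsPreconnected Γ → (Γ ∩ closedBall c r).Nonempty → ¬ Γ ⊆ ball c (2 * r) →
  (∀ L ∈ S.pts, (L : Set ℂ) ⊆ ball c (4 * r) → Disjoint Γ (interior (fill L))) →
  ENNReal.ofReal (K / (4 * M) * r ^ 2) ≤ volume (thickening (r / M) Γ ∩ ball c (3 * r))

-- deps: PEIA GAIN BADM WLK MUK
/-- The set left by the filled loops gains more than a straight line. -/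
def S_PEI : Prop := ∀ ν : Measure Br, IsBridge ν → ∀ α : ℝ≥0∞, α ≠ 0 → α ≠ ∞ →
  ∃ M : ℝ, 1 < M ∧ ∀ (z : ℂ) (ρ : ℝ), 0 < ρ →
  Tendsto (fun ε => PP (α • muK ν) {S | ¬ Gain {y | ∀ L ∈ S.pts, (L : Set ℂ) ⊆ ball z (2 * ρ) →
    y ∉ interior (fill L)} z ρ ε M (2 / M)}) (𝓝[>] 0) (𝓝 0)

end Pool.Agent.P.MP_d66c6d_pr
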