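import Pool.Agent.P.MP_d66c6d_pr.S.Iface2
import Pool.Agent.P.MP_d66c6d_pr.T.Iface

/-! Step COVR of the carpet project. -/

namespace Pool.Agent.P.MP_d66c6d_pr

open MeasureTheory ProbabilityTheory Set Metric Filter Topology
open scoped ENNReal

namespace CovrA

theorem sub_cl {S : Set (Set ℂ)} {K A : Set ℂ} (h : Lk S K A) : A ⊆ cluster S K :=
  subset_sUnion_of_mem h

theorem cl_eq {S : Set (Set ℂ)} {K A : Set ℂ} (hK : K ∈ S) (h : Lk S K A) :
    cluster S K = cluster S A :=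
  Subset.antisymm (sUnion_subset_sUnion fun _ hB => (h.symm hK).trans hB)
    (sUnion_subset_sUnion fun _ hB => h.trans hB)

theorem cl_meet {S : Set (Set ℂ)} {K K' : Set ℂ} (hK : K ∈ S) (hK' : K' ∈ S) {x : ℂ}
    (h : x ∈ cluster S K) (h' : x ∈ cluster S K') : cluster S K = cluster S K' := by
  obtain ⟨A, hA, hx⟩ := h
  obtain ⟨A', hA', hx'⟩ := h'
  rw [cl_eq hK (hA.tail ⟨Lk.mem hK' hA', x, hx, hx'⟩), cl_eq hK' hA']

theorem cl_sub {S S' : Set (Set ℂ)} {K : Set ℂ}
    (h : ∀ A ∈ S, Lk S K A → A ∈ S') : cluster S K ⊆ cluster S' K := by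
  refine sUnion_subset_sUnion fun A (hA : Lk S K A) => ?_
  induction hA with
  | refl => exact .refl
  | tail h1 h2 ih => exact .tail ih ⟨h _ h2.1 (h1.tail h2), h2.2⟩

theorem exists_disc {O : Set ℂ} (hO : IsOpen O) {x : ℂ} (hx : x ∈ O) :
    ∃ q : ℚ × ℚ × ℚ, 0 < q.2.2 ∧ x ∈ closedBall (qp q) q.2.2 ∧ closedBall (qp q) q.2.2 ⊆ O := by
  obtain ⟨ε, hε, hb⟩ := Metric.isOpen_iff.1 hO x hx
  obtain ⟨r, h0, h1⟩ := exists_rat_btwn (half_pos hε)
  obtain ⟨a, ha⟩ := exists_rat_near x.re (half_pos h0)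
  obtain ⟨b, hb'⟩ := exists_rat_near x.im (half_pos h0)
  have hd : dist x (qp (a, b, r)) ≤ r := by
    rw [dist_eq_norm]
    refine (Complex.norm_le_abs_re_add_abs_im _).trans ?_
    simp only [qp, Complex.sub_re, Complex.sub_im, Complex.add_re, Complex.add_im, Complex.mul_re,
      Complex.mul_im, Complex.ratCast_re, Complex.ratCast_im, Complex.I_re, Complex.I_im, mul_zero,
      mul_one, sub_zero, add_zero, zero_add]
    linarith
  refine ⟨(a, b, r), by exact_mod_cast h0, hd, (closedBall_subset_ball' ?_).trans hb⟩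
  rw [dist_comm]
  change (r : ℝ) + _ < ε
  linarith

theorem not_mem_closure (hFILL : S_FILL) {γ : Br} (hγ : Circ γ 0) {C : Set ℂ}
    (hC : IsPreconnected C) (hd : Disjoint C (range γ)) (h0 : 0 < diam C) : γ 0 ∉ closure C := by
  intro hx
  obtain ⟨δ, hδ, hc⟩ := Metric.continuousAt_iff.1 (γ.continuous.continuousAt (x := 0))
    (diam C / 4) (by positivity)
  obtain ⟨s, t, -, -, ht, hi⟩ := hγ δ hδ
  have hp : IsCompact (piece γ s t) :=
    ((isClosed_le continuous_const continuous_subtype_val).inter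
      (isClosed_le continuous_subtype_val continuous_const)).isCompact.image γ.continuous
  have hb : piece γ s t ⊆ closedBall (γ 0) (diam C / 4) := by
    rintro _ ⟨u, hu, rfl⟩
    refine (hc ?_).le
    rw [Subtype.dist_eq, Real.dist_eq, Set.Icc.coe_zero, sub_zero, abs_of_nonneg u.2.1]
    rw [Set.Icc.coe_zero, zero_add] at ht
    exact hu.2.trans_lt ht
  obtain ⟨-, -, -, -, -, f6, -, -, f9⟩ := hFILL _ hp
  rcases f9 C hC (hd.mono_right (image_subset_range _ _)) with h | h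
  · have := diam_le_of_subset_closedBall (by positivity)
      (h.trans (interior_subset.trans (f6 _ (convex_closedBall _ _) hb)))
    linarith
  · obtain ⟨y, h1, h2⟩ := _root_.mem_closure_iff.1 hx _ isOpen_interior hi
    exact h h2 (interior_subset h1)

theorem nest (hFILL : S_FILL) {A B : Set ℂ} (hA : IsCompact A) (hB : IsCompact B)
    (cA : IsPreconnected A) (cB : IsPreconnected B) (hne : A.Nonempty) (hd : Disjoint A B) :
    Disjoint (fill A) (fill B) ∨ fill A ⊆ fill B ∨ fill B ⊆ fill A := by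
  obtain ⟨-, -, a3, -, a5, -, -, -, a9⟩ := hFILL _ hA
  obtain ⟨-, -, b3, -, -, -, -, -, b9⟩ := hFILL _ hB
  rcases a9 B cB hd.symm with h | h
  · exact Or.inr (Or.inr ((fill_mono (h.trans interior_subset)).trans a3.subset))
  rcases b9 A cA hd with h' | h'
  · exact Or.inr (Or.inl ((fill_mono (h'.trans interior_subset)).trans b3.subset))
  rcases b9 (fill A) (a5 cA) (Set.disjoint_right.2 h) with h'' | h''
  · obtain ⟨x, hx⟩ := hne
    exact absurd (interior_subset (h'' (subset_fill A hx))) (h' hx)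
  · exact Or.inl (Set.disjoint_left.2 h'')

end CovrA

open CovrA in
theorem p_COVR (hFILL : S_FILL) :
    S_COVR := by
  intro V T c₀ c₁ hV hVb h
  have h01 : T c₀ ⊆ T c₁ := h.mono c₀ c₁ le_rfl h.lt.le le_rfl
  have hsub : ∀ K ∈ T c₀, K ⊆ V := fun K hK => h.sub K (h01 hK)
  have hins : {K ∈ T c₀ | K ⊆ V} = T c₀ := sep_eq_self_iff_mem_true.2 hsub
  have hne : ∀ K ∈ T c₀, K.Nonempty := fun K hK => (h.tame.1 K (h01 hK)).2.1.nonempty
  have hpre : ∀ K ∈ T c₀, IsPreconnected (cluster (T c₀) K) := fun K hK =>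
    isPreconnected_cluster (fun A hA => (h.tame.1 A (h01 hA)).2.1.isConnected.isPreconnected) hK
      (hne K hK)
  have hncl : ∀ K ∈ T c₀, closure (cluster (T c₀) K) ⊆ V := fun K hK => by
    have := h.ncl K hK (hsub K hK)
    rwa [ins, hins] at this
  have hbd : ∀ K ∈ T c₀, Bornology.IsBounded (cluster (T c₀) K) := fun K hK =>
    hVb.subset (subset_closure.trans (hncl K hK))
  have hcp : ∀ K ∈ T c₀, IsCompact (closure (cluster (T c₀) K)) := fun K hK =>
    (hbd K hK).isCompact_closure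
  have hne' : ∀ K ∈ T c₀, (closure (cluster (T c₀) K)).Nonempty := fun K hK =>
    (hne K hK).mono ((sub_cl .refl).trans subset_closure)
  have hout : ∀ W, W ∈ outers (T c₀) V ↔
      ∃ K ∈ T c₀, W = V ∩ interior (fill (closure (cluster (T c₀) K))) := fun W => by
    simp only [outers, hins, mem_ofPred_eq]
    exact ⟨fun ⟨K, h1, _, h2⟩ => ⟨K, h1, h2⟩, fun ⟨K, h1, h2⟩ => ⟨K, h1, hsub K h1, h2⟩⟩
  have p1 : ∀ K ∈ T c₀, ∀ K' ∈ T c₀, cluster (T c₀) K = cluster (T c₀) K' ∨
      Disjoint (closure (cluster (T c₀) K)) (closure (cluster (T c₀) K')) := by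
    intro K hK K' hK'
    refine or_iff_not_imp_left.2 fun hn => ?_
    obtain ⟨γ, hγ, -, hq, -⟩ := h.hit K hK
    have hc : Circ γ 0 := hq 0 0 (by simp) (by simp) le_rfl (mem_univ _)
      fun u _ hu => absurd hu (not_lt.2 u.2.1)
    have hx : γ 0 ∉ closure (cluster (T c₀) K') := by
      refine not_mem_closure hFILL hc (hpre K' hK') (Set.disjoint_left.2 fun y h1 h2 => ?_)
        ((h.tame.1 K' (h01 hK')).2.2.trans_le (diam_mono (sub_cl .refl) (hbd K' hK')))
      exact hn (cl_meet hK hK' (sub_cl .refl (hγ ▸ h2)) h1)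
    have hxK : γ 0 ∈ K := hγ ▸ mem_range_self 0
    obtain ⟨q, hq0, hxD, hD⟩ := exists_disc (hV.sdiff isClosed_closure) ⟨hsub K hK hxK, hx⟩
    obtain ⟨e1, e2⟩ := h.exd q hq0 (hD.trans sdiff_subset)
    generalize closedBall (qp q) (q.2.2 : ℝ) = D at hxD hD e1 e2
    have hA : ∀ A ∈ T c₀, Lk (T c₀) K' A → Disjoint A (D ∪ closure (clD (T c₀) D)) := by
      intro A hA hl
      by_contra hc
      obtain ⟨y, hy, hy'⟩ := e1 A (h01 hA) (not_disjoint_iff_nonempty_inter.1 hc)
      rcases hy' with hy' | hy'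
      · exact (hD hy').2 (subset_closure (sub_cl hl hy))
      · obtain ⟨M, ⟨hM, z, z1, z2⟩, hyM⟩ := mem_iUnion₂.1 hy'
        refine (hD z2).2 (subset_closure ?_)
        rw [← cl_meet hM hK' hyM (sub_cl hl hy)]
        exact sub_cl .refl z1
    have h1 := cl_sub (S' := {B ∈ T c₁ | Disjoint B (D ∪ closure (clD (T c₀) D))})
      fun A h1 h2 => ⟨h01 h1, hA A h1 h2⟩
    refine ((e2 K' (h01 hK') (hA K' hK' .refl)).mono (closure_mono h1) ?_).symm
    refine (closure_mono ?_).trans subset_union_right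
    exact subset_biUnion_of_mem (u := fun K => cluster (T c₀) K) ⟨hK, γ 0, hxK, hxD⟩
  have p2 : ∀ W ∈ outers (T c₀) V, ∀ W' ∈ outers (T c₀) V, Disjoint W W' ∨ W ⊆ W' ∨ W' ⊆ W := by
    intro W hW W' hW'
    obtain ⟨K, hK, rfl⟩ := (hout W).1 hW
    obtain ⟨K', hK', rfl⟩ := (hout W').1 hW'
    rcases p1 K hK K' hK' with e | e
    · exact Or.inr (Or.inl (by rw [e]))
    rcases nest hFILL (hcp K hK) (hcp K' hK') (hpre K hK).closure (hpre K' hK').closure
      (hne' K hK) e with f | f | f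
    · exact Or.inl (f.mono (inter_subset_right.trans interior_subset)
        (inter_subset_right.trans interior_subset))
    · exact Or.inr (Or.inl (inter_subset_inter_right _ (interior_mono f)))
    · exact Or.inr (Or.inr (inter_subset_inter_right _ (interior_mono f)))
  have p3 : ∀ s > (0 : ℝ), {C | ∃ K ∈ T c₀, C = cluster (T c₀) K ∧ s ≤ diam C}.Finite ∧
      {W ∈ outers (T c₀) V | s ≤ diam W}.Finite := by
    intro s hs
    obtain ⟨η, hη, hs'⟩ := h.subc (s / 3) (by positivity)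
    have key : ∀ K ∈ T c₀, ∀ W ⊆ fill (closure (cluster (T c₀) K)), s ≤ diam W →
        ∃ M ∈ {M ∈ T c₁ | η ≤ diam M}, cluster (T c₀) M = cluster (T c₀) K := by
      intro K hK W hW hsW
      by_contra hn
      have h1 : ∀ A ∈ T c₀, Lk (T c₀) K A → A ∈ {K' ∈ T c₁ | diam K' < η} := fun A hA hl =>
        ⟨h01 hA, not_le.1 fun h2 => hn ⟨A, ⟨h01 hA, h2⟩, (cl_eq hK hl).symm⟩⟩
      obtain ⟨x, hx⟩ := hne K hK
      have h2 : cluster (T c₀) K ⊆ closedBall x (s / 3) := fun y hy =>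
        mem_closedBall'.2 (hs' K (h01 hK) (h1 K hK .refl).2 x hx y (cl_sub h1 hy))
      have h3 := diam_le_of_subset_closedBall (by positivity) (hW.trans
        ((hFILL _ (hcp K hK)).2.2.2.2.2.1 _ (convex_closedBall _ _)
          (closure_minimal h2 isClosed_closedBall)))
      linarith
    refine ⟨((h.tame.2 η hη).image (cluster (T c₀))).subset ?_, ((h.tame.2 η hη).image
      fun M => V ∩ interior (fill (closure (cluster (T c₀) M)))).subset ?_⟩
    · rintro C ⟨K, hK, rfl, hC⟩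
      exact key K hK _ (subset_closure.trans (subset_fill _)) hC
    · rintro W ⟨hW, hsW⟩
      obtain ⟨K, hK, rfl⟩ := (hout W).1 hW
      obtain ⟨M, hM, e⟩ := key K hK _ (inter_subset_right.trans interior_subset) hsW
      exact ⟨M, hM, by simp only [e]⟩
  have hWV : ∀ W ∈ outers (T c₀) V, IsOpen W ∧ Bornology.IsBounded W := fun W hW => by
    obtain ⟨K, -, rfl⟩ := (hout W).1 hW
    exact ⟨hV.inter isOpen_interior, hVb.subset inter_subset_left⟩
  refine ⟨p1, p2, p3, fun W hW => ?_, fun W hW W' hW' => ?_, fun _ hW => ?_,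
    fun hN K hK => hN _ (hcp K hK) (hncl K hK)⟩
  · rcases W.eq_empty_or_nonempty with rfl | ⟨x, hx⟩
    · exact ⟨∅, ⟨hW, fun W' _ h => by simp at h⟩, Subset.rfl⟩
    have h0 : 0 < diam W :=
      diam_pos (infinite_of_mem_nhds x ((hWV W hW).1.mem_nhds hx)).nontrivial (hWV W hW).2
    have hf : {W' ∈ outers (T c₀) V | W ⊆ W'}.Finite :=
      (p3 _ h0).2.subset fun W' h => ⟨h.1, diam_mono h.2 (hWV W' h.1).2⟩
    obtain ⟨M, hM⟩ := hf.exists_maximal ⟨W, hW, Subset.rfl⟩
    refine ⟨M, ⟨hM.1.1, fun W' hW' hn => ?_⟩, hM.1.2⟩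
    rcases p2 M hM.1.1 W' hW' with e | e | e
    · exact absurd e (not_disjoint_iff_nonempty_inter.2 hn)
    · exact hM.2 ⟨hW', hM.1.2.trans e⟩ e
    · exact e
  · refine or_iff_not_imp_right.2 fun hn => ?_
    have h1 := not_disjoint_iff_nonempty_inter.1 hn
    exact Subset.antisymm (hW'.2 W hW.1 (inter_comm W W' ▸ h1)) (hW.2 W' hW'.1 h1)
  · obtain ⟨K, hK, e⟩ := (hout V).1 hW
    obtain ⟨k, hk, hm⟩ := (hcp K hK).exists_isMaxOn (hne' K hK) Complex.continuous_re.continuousOn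
    have h1 : V ⊆ {z : ℂ | z.re ≤ k.re} := (e.subset.trans (inter_subset_right.trans
      interior_subset)).trans ((hFILL _ (hcp K hK)).2.2.2.2.2.1 _ (convex_halfSpace_re_le _) hm)
    obtain ⟨ε, hε, hb⟩ := Metric.isOpen_iff.1 hV k (hncl K hK hk)
    have h2 : k + (ε / 2 : ℝ) ∈ ball k ε := by
      rw [mem_ball, dist_self_add_left, Complex.norm_real, Real.norm_of_nonneg (by positivity)]
      linarith
    have h3 : (k + (ε / 2 : ℝ)).re ≤ k.re := h1 (hb h2)
    rw [Complex.add_re, Complex.ofReal_re] at h3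
    linarith

end Pool.Agent.P.MP_d66c6d_pr
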