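import Pool.Agent.P.MP_d66c6d_pr.S.Iface
import Pool.Agent.P.MP_d66c6d_pr.N.Defs
import Pool.Agent.P.MP_d66c6d_pr.G.Defs

/-!
Subcriticality from the distance exponent, and the cover property of the outer domains.
-/

namespace Pool.Agent.P.MP_d66c6d_pr

open MeasureTheory ProbabilityTheory Set Metric Filter Topology
open scoped ENNReal

-- deps: DENS TRANS MUK
-- imports: Pool.Agent.P.MP_d66c6d_pr.Nest
/-- A level with a distance exponent is subcritical. -/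
def S_SUBX : Prop := ∀ ν : Measure Br, IsBridge ν → ∀ c θ : ℝ, Lvl ν c θ →
  SubC ν (ENNReal.ofReal c) ∧ Sub ν c

-- deps: FILL
/-- Clusters have disjoint closures, outer domains are nested or disjoint, and the maximal ones
cover all of them. -/
def S_COVR : Prop := ∀ (V : Set ℂ) (T : ℝ → Set (Set ℂ)) (c₀ c₁ : ℝ), IsOpen V →
  Bornology.IsBounded V → Lay V T c₀ c₁ →
  (∀ K ∈ T c₀, ∀ K' ∈ T c₀, cluster (T c₀) K = cluster (T c₀) K' ∨
    Disjoint (closure (cluster (T c₀) K)) (closure (cluster (T c₀) K'))) ∧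
  (∀ W ∈ outers (T c₀) V, ∀ W' ∈ outers (T c₀) V, Disjoint W W' ∨ W ⊆ W' ∨ W' ⊆ W) ∧
  (∀ s > (0 : ℝ), {C | ∃ K ∈ T c₀, C = cluster (T c₀) K ∧ s ≤ diam C}.Finite ∧
    {W ∈ outers (T c₀) V | s ≤ diam W}.Finite) ∧
  (∀ W ∈ outers (T c₀) V, ∃ W' ∈ cleIn2 (T c₀) V, W ⊆ W') ∧
  (∀ W ∈ cleIn2 (T c₀) V, ∀ W' ∈ cleIn2 (T c₀) V, W = W' ∨ Disjoint W W') ∧
  (V.Nonempty → V ∉ outers (T c₀) V) ∧
  (NoHole V → ∀ K ∈ T c₀, fill (closure (cluster (T c₀) K)) ⊆ V)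

end Pool.Agent.P.MP_d66c6d_pr
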