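import Pool.Agent.P.MP_d66c6d_pr.S.Iface3
import Pool.Agent.P.MP_d66c6d_pr.G.IfaceX
import Pool.Agent.P.MP_d66c6d_pr.S.Iface2
import Pool.Agent.P.MP_d66c6d_pr.F.Iface
import Pool.Agent.P.MP_d66c6d_pr.T.Iface

/-! Step COVA of the carpet project. -/

namespace Pool.Agent.P.MP_d66c6d_pr

open MeasureTheory ProbabilityTheory Set Metric Filter Topology
open scoped ENNReal

namespace CovaA

theorem outers_ins (T : Set (Set ℂ)) (V : Set ℂ) : outers (ins V T) V = outers T V := by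
  have e : {K ∈ ins V T | K ⊆ V} = {K ∈ T | K ⊆ V} := by
    ext K
    simp [ins]
  ext W
  simp only [outers, e, mem_setOf_eq]
  exact ⟨fun ⟨K, h1, h2⟩ => ⟨K, h1.1, h2⟩, fun ⟨K, h1, h2⟩ => ⟨K, ⟨h1, h2.1⟩, h2⟩⟩

theorem cle_ins (T : Set (Set ℂ)) (V : Set ℂ) : cleIn2 (ins V T) V = cleIn2 T V := by
  rw [cleIn2, cleIn2, outers_ins]

theorem lab (hPPO : S_PPO) (hMUK : S_MUK) {ν : Measure Br} (hν : IsBridge ν) (c R : ℝ) :
    ∀ᵐ X ∂xsoup ν c R, sets (lev c X) = ∅ := by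
  have := (hMUK ν hν).2.1
  have h1 := (hPPO (KC × ℝ) (((muK ν).restrict (inK (ball 0 R))).prod
    ((volume : Measure ℝ).restrict (Ioc c 1))) inferInstance).2.2.2.2.2.1 (fun x => c < x.2) (by
      have hm : MeasurableSet {x : KC × ℝ | c < x.2} := measurableSet_lt measurable_const
        measurable_snd
      refine (Measure.ae_prod_iff_ae_ae hm).2 (ae_of_all _ fun K => ?_)
      exact (ae_restrict_mem measurableSet_Ioc).mono fun y hy => hy.1)
  refine h1.mono fun X hX => ?_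
  rw [eq_empty_iff_forall_notMem]
  rintro _ ⟨_, ⟨x, ⟨h2, h3⟩, rfl⟩, rfl⟩
  exact not_le.2 (hX x h2) h3

theorem isOpen_of {T : Set (Set ℂ)} {V W : Set ℂ} (hV : IsOpen V) (h : W ∈ outers T V) :
    IsOpen W ∧ W ⊆ V := by
  obtain ⟨K, -, -, rfl⟩ := h
  exact ⟨hV.inter isOpen_interior, inter_subset_left⟩

/-- A preconnected set covered by pairwise disjoint open subsets is one of them. -/
theorem mem_of_cover {G : Set (Set ℂ)} {V : Set ℂ} (hV : IsPreconnected V) (hn : V.Nonempty)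
    (ho : ∀ W ∈ G, IsOpen W ∧ W ⊆ V) (hd : ∀ W ∈ G, ∀ W' ∈ G, W = W' ∨ Disjoint W W')
    (hc : V ⊆ ⋃₀ G) : V ∈ G := by
  obtain ⟨z, hz⟩ := hn
  obtain ⟨W, hW, hzW⟩ := hc hz
  have h1 : V ⊆ W := by
    refine hV.subset_left_of_subset_union (v := ⋃₀ {W' ∈ G | W' ≠ W}) (ho W hW).1
      (isOpen_sUnion fun W' hW' => (ho W' hW'.1).1) ?_ (fun y hy => ?_) ⟨z, hz, hzW⟩
    · exact disjoint_sUnion_right.2 fun W' hW' => (hd W hW W' hW'.1).resolve_left hW'.2.symm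
    · obtain ⟨W', hW', hy'⟩ := hc hy
      by_cases e : W' = W
      · exact Or.inl (e ▸ hy')
      · exact Or.inr ⟨W', ⟨hW', e⟩, hy'⟩
  exact (h1.antisymm (ho W hW).2).symm ▸ hW

end CovaA

theorem p_COVA (hLAY : S_LAY) (hCOVR : S_COVR) (hPPO : S_PPO) (hMUK : S_MUK) (hFILL : S_FILL) :
    S_COVA := by
  intro ν hν c c₂ θ₂ hc hcc hc1 hL V R hV hVR
  have hx : IsProbabilityMeasure (xsoup ν c R) := instProbPP _
  have h1 := Measure.ae_ae_of_ae_prod
    (hLAY ν hν c ((c + c₂) / 2) c₂ θ₂ hc (by linarith) (by linarith) hc1 hL V R hV hVR)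
  obtain ⟨φ, hφ⟩ := hV
  have hVo : IsOpen V := hφ ▸ φ.isOpenMap _ isOpen_ball
  have hVn : V.Nonempty := hφ ▸ (nonempty_ball.2 one_pos).image _
  have hVp : IsPreconnected V :=
    hφ ▸ (convex_ball (0 : ℂ) 1).isPreconnected.image _ φ.continuous.continuousOn
  refine h1.mono fun N hN => ?_
  obtain ⟨X, hX, hX'⟩ := (hN.and (CovaA.lab hPPO hMUK hν c R)).exists
  obtain ⟨-, -, -, h4, h5, h6, -⟩ := hCOVR V _ _ _ hVo (isBounded_ball.subset hVR) hX
  have e : lay V N X c = ins V (trace '' N.pts) := by rw [lay, hX', union_empty]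
  simp only [e, CovaA.outers_ins, CovaA.cle_ins] at h4 h5 h6
  have ho : ∀ W ∈ cleIn2 (trace '' N.pts) V, IsOpen W ∧ W ⊆ V := fun W hW =>
    CovaA.isOpen_of hVo hW.1
  have h0 : V ∉ cleIn2 (trace '' N.pts) V := fun h => h6 hVn h.1
  refine ⟨h0, h4, ?_, fun z hz => ⟨frontier_subset_closure hz, ?_⟩, fun l hl B hB hBV hlB => ?_⟩
  · by_contra hn
    refine h0 (CovaA.mem_of_cover hVp hVn ho h5 fun z hz => ?_)
    by_contra hz'
    exact hn ⟨z, ⟨subset_closure hz, hz'⟩, hz⟩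
  · rintro ⟨W, hW, hzW⟩
    rw [hVo.frontier_eq] at hz
    exact hz.2 ((ho W hW).2 hzW)
  · have hk : IsCompact (trace l) := range_lp l ▸ isCompact_range (lp l).2.continuous
    have hf : fill (trace l) ⊆ V := ((hFILL _ hk).2.2.2.2.2.1 B hB hlB).trans hBV
    obtain ⟨W', hW', hs⟩ := h4 _ ⟨trace l, mem_image_of_mem _ hl, hlB.trans hBV, rfl⟩
    refine disjoint_left.2 fun z hz hz' => hz.2 ⟨W', hW', hs ⟨hf (interior_subset hz'), ?_⟩⟩
    refine interior_mono (fill_mono (Subset.trans ?_ subset_closure)) hz'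
    exact subset_sUnion_of_mem Relation.ReflTransGen.refl

end Pool.Agent.P.MP_d66c6d_pr
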