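import Pool.Agent.P.MP_d66c6d_pr.S.Iface2
import Pool.Agent.P.MP_d66c6d_pr.G.IfaceX

/-!
The cover property in a fixed Jordan domain.
-/

namespace Pool.Agent.P.MP_d66c6d_pr

open MeasureTheory ProbabilityTheory Set Metric Filter Topology
open scoped ENNReal

-- deps: LAY COVR PPO MUK FILL
/-- Almost surely the maximal outer domains cover all outer domains. -/
def S_COVA : Prop := ∀ ν : Measure Br, IsBridge ν → ∀ c c₂ θ₂ : ℝ, 0 < c → c < c₂ → c₂ ≤ 1 →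
  Lvl ν c₂ θ₂ → ∀ (V : Set ℂ) (R : ℝ), IsJordan V → V ⊆ ball 0 R →
  ∀ᵐ N ∂PP (ENNReal.ofReal c • loopMeasure ν), V ∉ cleIn2 (trace '' N.pts) V ∧
    (∀ W ∈ outers (trace '' N.pts) V, ∃ W' ∈ cleIn2 (trace '' N.pts) V, W ⊆ W') ∧
    (carp (trace '' N.pts) V ∩ V).Nonempty ∧ frontier V ⊆ carp (trace '' N.pts) V ∧
    ∀ l ∈ N.pts, ∀ B : Set ℂ, Convex ℝ B → B ⊆ V → trace l ⊆ B →
      Disjoint (carp (trace '' N.pts) V) (interior (fill (trace l)))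

end Pool.Agent.P.MP_d66c6d_pr
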