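import Pool.Agent.P.MP_d66c6d_pr.S.Lip

/-! The set left by the filled loops of a soup contains no short walks. -/

namespace Pool.Agent.P.MP_d66c6d_pr

open MeasureTheory ProbabilityTheory Set Metric Filter Topology
open scoped ENNReal

/-- The fillings of the loops of `s` that stay in `U`. -/
def fills (s : Set Lp) (U : Set ℂ) : Set (Set ℂ) := {F | ∃ l ∈ s, trace l ⊆ U ∧ F = fill (trace l)}

theorem exists_grid {n : ℕ} (hn : 0 < n) {R : ℕ} {z : ℂ} (hz : ‖z‖ ≤ R) :
    ∃ a ∈ Finset.Icc (-(R * n + 1 : ℤ)) (R * n + 1) ×ˢ Finset.Icc (-(R * n + 1 : ℤ)) (R * n + 1),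
      dist z ((a.1 + a.2 * Complex.I) / n) ≤ 1 / n := by
  have hn' : (0 : ℝ) < n := by exact_mod_cast hn
  have key : ∀ x : ℝ, |x| ≤ R → round (n * x) ∈ Finset.Icc (-(R * n + 1 : ℤ)) (R * n + 1) ∧
      |x - round (n * x) / n| ≤ 1 / (2 * n) := by
    intro x hx
    have h1 := abs_le.1 (abs_sub_round (n * x))
    have h2 := abs_le.1 hx
    refine ⟨Finset.mem_Icc.2 ⟨?_, ?_⟩, ?_⟩
    · have : (-(R * n + 1) : ℝ) ≤ round (n * x) := by nlinarith
      exact_mod_cast this
    · have : (round (n * x) : ℝ) ≤ R * n + 1 := by nlinarith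
      exact_mod_cast this
    · rw [show x - round (n * x) / n = (n * x - round (n * x)) / n by field_simp, abs_div,
        abs_of_pos hn', div_le_div_iff₀ hn' (by positivity)]
      nlinarith [abs_sub_round (n * x)]
  obtain ⟨a1, a2⟩ := key z.re ((Complex.abs_re_le_norm z).trans hz)
  obtain ⟨b1, b2⟩ := key z.im ((Complex.abs_im_le_norm z).trans hz)
  refine ⟨(round (n * z.re), round (n * z.im)), Finset.mem_product.2 ⟨a1, b1⟩, ?_⟩
  rw [dist_eq_norm]
  refine (Complex.norm_le_abs_re_add_abs_im _).trans ?_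
  have e : 1 / (2 * (n : ℝ)) + 1 / (2 * n) = 1 / n := by field_simp; ring
  rw [← e]
  refine add_le_add ?_ ?_
  · simpa using a2
  · simpa using b2

variable {Ω : Type} [MeasurableSpace Ω] {P : Measure Ω} {N : Ω → Set Lp} {ν : Measure Br}
  {α : ℝ≥0∞}

theorem null_straight (hν : IsBridge ν) (h0 : α ≠ 0) (h1 : α ≠ ∞)
    (hV : ∀ A, MeasurableSet A → (α • loopMeasure ν) A ≠ ∞ →
      P (void N A) ≤ ENNReal.ofReal (Real.exp (-((α • loopMeasure ν) A).toReal))) :
    ∃ η > (0 : ℝ), P {ω | Straight {y | ∀ F ∈ fills (N ω) (ball 0 4), y ∉ interior F} η} = 0 := by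
  set a0 := α * loopMeasure ν (sur 0 1) with ha0
  have ha0' : a0 ≠ ∞ := ENNReal.mul_ne_top h1 hν.sur_ne_top
  have ha : 0 < a0.toReal := ENNReal.toReal_pos (mul_ne_zero h0 hν.sur_ne_zero) ha0'
  obtain ⟨m, hm⟩ := exists_nat_gt (Real.log 25 / a0.toReal)
  rw [div_lt_iff₀ ha] at hm
  have hm0 : (0 : ℝ) < m := by
    have := Real.log_pos (show (1 : ℝ) < 25 by norm_num)
    by_contra h
    nlinarith [not_lt.1 h]
  have hm1 : (1 : ℝ) ≤ m := by exact_mod_cast Nat.cast_pos.1 hm0
  set q := 25 * Real.exp (-(m * a0.toReal)) with hq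
  have hq1 : q < 1 := by
    rw [hq, Real.exp_neg, ← div_eq_mul_inv, div_lt_one (Real.exp_pos _)]
    exact (Real.log_lt_iff_lt_exp (by norm_num)).1 hm
  set η : ℝ := 1 / (32 * m) with hη
  have hη0 : 0 < η := by positivity
  let w : ℕ → ℝ := fun j => η / 5 ^ j
  have hw : ∀ j, 0 < w j := fun j => by positivity
  have hws : ∀ i j, i < j → 5 * w j ≤ w i := fun i j hij => by
    have : (5 : ℝ) ^ (i + 1) ≤ 5 ^ j := pow_le_pow_right₀ (by norm_num) hij
    rw [mul_div_assoc', div_le_div_iff₀ (by positivity) (by positivity)]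
    rw [pow_succ] at this
    nlinarith
  have hwm : ∀ j, 32 * m * w j = 1 / 5 ^ j := fun j => by simp only [w, hη]; field_simp
  let Y : Ω → Set ℂ := fun ω => {y | ∀ F ∈ fills (N ω) (ball 0 4), y ∉ interior F}
  let A : ℂ → ℕ → Set Ω := fun e j0 => {ω | ∃ z : ℂ, ‖z‖ ≤ 3 ∧ ∀ j ≥ j0, ∀ i < m, ∃ y ∈ Y ω,
    dist y (z + (32 * i * w j : ℝ) * e) ≤ 2 * w j}
  have hA : ∀ e : ℂ, ‖e‖ = 1 → ∀ j0 ≥ 1, P (A e j0) = 0 := by
    intro e he j0 hj0
    have hlim : Tendsto (fun k : ℕ => ENNReal.ofReal ((9 * (32 * m * 5 ^ j0)) ^ 2 * q ^ k)) atTop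
        (𝓝 0) := by
      have := ((tendsto_pow_atTop_nhds_zero_of_lt_one (by positivity) hq1).const_mul
        ((9 * (32 * m * 5 ^ j0)) ^ 2 : ℝ))
      rw [mul_zero] at this
      simpa using ENNReal.tendsto_ofReal this
    refine le_antisymm (ge_of_tendsto' hlim fun k => ?_) zero_le
    set n : ℕ := 32 * m * 5 ^ (j0 + k) with hn
    have hn0 : 0 < n := by have := Nat.cast_pos.1 hm0; positivity
    have hnw : 1 / (n : ℝ) = w (j0 + k) := by
      simp only [w, hη, hn]; push_cast; field_simp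
    let C : ℂ → ℕ × ℕ → Set Lp := fun z p =>
      sur (z + (32 * p.2 * w (j0 + p.1) : ℝ) * e) (4 * w (j0 + p.1))
    let I := Finset.range (k + 1) ×ˢ Finset.range m
    have hC : ∀ z, (α • loopMeasure ν) (⋃ p ∈ I, C z p) = ((k + 1) * m : ℕ) * a0 := by
      intro z
      rw [measure_biUnion_finset _ fun p _ => meas_sur _ _]
      · simp only [C, Measure.smul_apply, smul_eq_mul,
          hν.mass_sur _ (mul_pos four_pos (hw _)), ← ha0]
        simp [I]
      · intro p _ p' _ hpp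
        rcases lt_trichotomy p.1 p'.1 with h | h | h
        · exact sur_disj (mul_pos four_pos (hw _)) (by
            linarith [hws _ _ (Nat.add_lt_add_left h j0), hw (j0 + p'.1)])
        · have hi : p.2 ≠ p'.2 := fun h' => hpp (Prod.ext h h')
          simp only [Function.onFun, C, h]
          refine sur_disj' ?_
          rw [dist_add_left, dist_eq_norm, ← sub_mul, norm_mul, he, mul_one, ← Complex.ofReal_sub,
            Complex.norm_real, ← sub_mul, ← mul_sub, Real.norm_eq_abs, abs_mul, abs_mul,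
            abs_of_pos (hw _), abs_of_pos (by norm_num : (0 : ℝ) < 32)]
          have : (1 : ℝ) ≤ |(p.2 : ℝ) - p'.2| := by
            have : (1 : ℤ) ≤ |(p.2 : ℤ) - p'.2| := Int.one_le_abs (by omega)
            exact_mod_cast this
          nlinarith [hw (j0 + p'.1)]
        · exact (sur_disj (mul_pos four_pos (hw _)) (by
            linarith [hws _ _ (Nat.add_lt_add_left h j0), hw (j0 + p.1)])).symm
    let G := Finset.Icc (-((3 : ℕ) * n + 1 : ℤ)) ((3 : ℕ) * n + 1) ×ˢ
      Finset.Icc (-((3 : ℕ) * n + 1 : ℤ)) ((3 : ℕ) * n + 1)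
    have hsub : A e j0 ⊆ ⋃ a ∈ G, void N (⋃ p ∈ I, C ((a.1 + a.2 * Complex.I) / n) p) := by
      rintro ω ⟨z, hz, h⟩
      obtain ⟨a, haG, hd⟩ := exists_grid hn0 (R := 3) (z := z) (by exact_mod_cast hz)
      refine mem_biUnion haG (eq_empty_of_forall_notMem fun l ⟨hl, hl'⟩ => ?_)
      obtain ⟨p, hp, hl'⟩ := mem_iUnion₂.1 hl'
      obtain ⟨p1, p2⟩ := Finset.mem_product.1 hp
      rw [Finset.mem_range] at p1 p2
      obtain ⟨y, hy, hyd⟩ := h (j0 + p.1) (Nat.le_add_right _ _) p.2 p2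
      have hwk : w (j0 + k) ≤ w (j0 + p.1) := by
        rcases (Nat.lt_succ_iff.1 p1).eq_or_lt with h | h
        · rw [h]
        · linarith [hws _ _ (Nat.add_lt_add_left h j0), hw (j0 + k)]
      set j := j0 + p.1
      set z' : ℂ := (a.1 + a.2 * Complex.I) / n
      have h5 : 32 * m * w j ≤ 1 / 5 := by
        rw [hwm]
        exact one_div_le_one_div_of_le (by norm_num) (le_self_pow₀ (by norm_num) (by omega))
      have p2' : (p.2 : ℝ) ≤ m := by exact_mod_cast p2.le
      have hwj := hw j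
      refine hy _ ⟨l, hl, hl'.2.trans (ball_subset_ball' ?_), rfl⟩
        (interior_maximal hl'.1 isOpen_ball ?_)
      · have a1 := norm_add_le z' ((32 * p.2 * w j : ℝ) * e)
        have a2 := norm_le_norm_add_norm_sub' z' z
        rw [norm_mul, he, mul_one, Complex.norm_real, Real.norm_of_nonneg (by positivity)] at a1
        rw [dist_comm, dist_eq_norm, hnw] at hd
        rw [dist_zero_right]
        nlinarith
      · have a1 := dist_triangle y (z + (32 * p.2 * w j : ℝ) * e) (z' + (32 * p.2 * w j : ℝ) * e)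
        rw [dist_add_right] at a1
        rw [mem_ball]
        linarith
    have hfin : (((k + 1) * m : ℕ) : ℝ≥0∞) * a0 ≠ ∞ := ENNReal.mul_ne_top (ENNReal.natCast_ne_top _) ha0'
    refine (measure_mono hsub).trans ((measure_biUnion_finset_le _ _).trans
      ((Finset.sum_le_card_nsmul _ _ _ fun a _ => hV _
        (Finset.measurableSet_biUnion _ fun p _ => meas_sur _ _) (hC _ ▸ hfin) |>.trans
          (le_of_eq (by rw [hC]))).trans ?_))
    rw [nsmul_eq_mul, ← ENNReal.ofReal_natCast, ← ENNReal.ofReal_mul (Nat.cast_nonneg _)]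
    refine ENNReal.ofReal_le_ofReal ?_
    have hG : (G.card : ℝ) ≤ (9 * n) ^ 2 := by
      have : G.card ≤ (9 * n) ^ 2 := by
        simp only [G, Finset.card_product, Int.card_Icc, sq]
        exact Nat.mul_le_mul (by omega) (by omega)
      exact_mod_cast this
    have hE : Real.exp (-((((k + 1) * m : ℕ) : ℝ≥0∞) * a0).toReal) ≤
        Real.exp (-(m * a0.toReal)) ^ k := by
      rw [← Real.exp_nat_mul, ENNReal.toReal_mul, ENNReal.toReal_natCast]
      refine Real.exp_le_exp.2 ?_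
      push_cast
      nlinarith [mul_pos hm0 ha]
    refine (mul_le_mul hG hE (by positivity) (by positivity)).trans (le_of_eq ?_)
    have e5 : (25 : ℝ) ^ k = (5 ^ k) ^ 2 := by rw [← pow_mul, mul_comm, pow_mul]; norm_num
    rw [hq, mul_pow 25, hn, e5]
    push_cast
    ring
  obtain ⟨F, hF, hFf, hFc⟩ := finite_cover_balls_of_compact (isCompact_sphere (0 : ℂ) 1) hη0
  refine ⟨η, hη0, measure_mono_null ?_ ((measure_biUnion_null_iff hFf.countable).2 fun e he =>
    measure_iUnion_null fun j0 => hA e (by simpa using hF he) (j0 + 1) (by omega))⟩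
  rintro ω ⟨z, e, hz, he, r0, hr0, h⟩
  obtain ⟨e', he', hee⟩ := mem_iUnion₂.1 (hFc (show e ∈ sphere (0 : ℂ) 1 by simpa using he))
  obtain ⟨j0, hj0⟩ := exists_pow_lt_of_lt_one hr0 (show (1 / 5 : ℝ) < 1 by norm_num)
  refine mem_biUnion he' (mem_iUnion.2 ⟨j0, z, hz, fun j hj i hi => ?_⟩)
  have hi' : (i : ℝ) ≤ m := by exact_mod_cast hi.le
  have hwj := hw j
  have hu : 32 * i * w j ≤ 1 / 5 ^ j := by rw [← hwm]; gcongr
  obtain ⟨y, hy, hd⟩ := h (1 / 5 ^ j) (by positivity) (by
    rw [← one_div_pow]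
    exact (pow_le_pow_of_le_one (by norm_num) (by norm_num) (by omega)).trans hj0.le)
    (32 * i * w j) ⟨by positivity, hu⟩
  refine ⟨y, hy, (dist_triangle _ (z + (32 * i * w j : ℝ) * e) _).trans ?_⟩
  rw [dist_add_left, dist_eq_norm (_ * e), ← mul_sub, norm_mul, Complex.norm_real,
    Real.norm_of_nonneg (by positivity), ← dist_eq_norm]
  have e1 : η * (1 / 5 ^ j) = w j := mul_one_div _ _
  have : 32 * i * w j * dist e e' ≤ 1 / 5 ^ j * η :=
    mul_le_mul hu (le_of_lt hee) dist_nonneg (by positivity)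
  linarith

end Pool.Agent.P.MP_d66c6d_pr
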