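import Pool.Agent.P.MP_d66c6d_pr.F.Defs
import Pool.Agent.P.MP_d66c6d_pr.S.Dense
import Pool.Agent.P.MP_d66c6d_pr.S.Str

/-!
Subcriticality, lattice animals and the one-step lower criterion: definitions.
-/

namespace Pool.Agent.P.MP_d66c6d_pr

open MeasureTheory ProbabilityTheory Set Metric Filter Topology
open scoped ENNReal

/-- A finite chain of loops of the class `A` meets both `B` and `C`. -/
def Jn (A : Set KC) (B C : Set ℂ) : Set (Cfg KC) := {S | Joins (sets (S.res A)) B C}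

/-- A chain of loops of diameter less than `δ` crosses the annulus of radii `r, 2 r` around `z`. -/
def Crs (δ : ℝ) (z : ℂ) (r : ℝ) : Set (Cfg KC) :=
  Jn (bigK δ)ᶜ (closedBall z r) (ball z (2 * r))ᶜ

/-- The soup of intensity `c` is subcritical. -/
def SubC (ν : Measure Br) (c : ℝ≥0∞) : Prop :=
  Tendsto (fun δ => PP (c • muK ν) (Crs δ 0 1)) (𝓝[>] 0) (𝓝 0)

/-- The clusters of the loops of diameter less than `δ` that meet the disc of radius `R` have
size less than `ρ`. -/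
def Tiny (R ρ δ : ℝ) (S : Cfg KC) : Prop :=
  ∀ K ∈ sets (S.res (bigK δ)ᶜ), ∀ x ∈ K, ‖x‖ ≤ R →
    cluster (sets (S.res (bigK δ)ᶜ)) K ⊆ ball x ρ

/-- Clusters of small loops are small. -/
def Blob (S : Cfg KC) : Prop := ∀ R ρ : ℝ, 0 < ρ → ∃ δ > (0 : ℝ), Tiny R ρ δ S

/-- The point of the grid of mesh `ε`. -/
noncomputable def gp (ε : ℝ) (c : ℤ × ℤ) : ℂ := ε * (c.1 + c.2 * Complex.I)

/-- The cells of the grid of mesh `ε` met by `Γ`. -/
def cells (ε : ℝ) (Γ : Set ℂ) : Set (ℤ × ℤ) := {c | (Γ ∩ closedBall (gp ε c) ε).Nonempty}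

/-- `A` is connected to `c₀` through neighbours (in the sup norm, at distance at most two). -/
def Anim (c₀ : ℤ × ℤ) (A : Set (ℤ × ℤ)) : Prop :=
  c₀ ∈ A ∧ ∀ b ∈ A, Relation.ReflTransGen (fun u v => v ∈ A ∧ dist u v ≤ 2) c₀ b

/-- A continuum in the disc of radius `ρ` around `z`, of extent at least `ρ / 2`. -/
def Cont (z : ℂ) (ρ : ℝ) (Γ : Set ℂ) : Prop :=
  IsCompact Γ ∧ IsPreconnected Γ ∧ Γ ⊆ closedBall z ρ ∧ ∃ x ∈ Γ, ∃ y ∈ Γ, ρ / 2 ≤ dist x y

/-- A fixed dense sequence. -/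
noncomputable def dn : ℕ → ℂ := TopologicalSpace.denseSeq ℂ

/-- A short walk across the annulus around `c` none of whose small discs is inside a filled
loop. -/
def badB (K M : ℕ) (c : ℂ) (r : ℝ) : Set (Cfg KC) :=
  {S | ∃ g : ℕ → ℕ, Walk c r (r / M) (K * M) (fun i => c + r * dn (g i)) ∧
    ∀ i ≤ K * M, ∀ L ∈ S.pts, (L : Set ℂ) ⊆ ball c (4 * r) →
      ¬ ball (c + r * dn (g i)) (r / M) ⊆ fill L}

/-- In the disc of radius `ρ` around `z`, refining the scale `ε` by the factor `M` multiplies the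
area of the neighbourhoods of the continua of `X` by at least `g`. -/
def Gain (X : Set ℂ) (z : ℂ) (ρ ε M g : ℝ) : Prop :=
  ∀ Γ ⊆ X, Cont z ρ Γ →
    ENNReal.ofReal g * volume (thickening ε Γ) ≤ volume (thickening (ε / M) Γ)

theorem denseRange_dn : DenseRange dn := TopologicalSpace.denseRange_denseSeq ℂ

theorem Jn.mono {A A' : Set KC} {B B' C C' : Set ℂ} (hA : A ⊆ A') (hB : B ⊆ B') (hC : C ⊆ C') :
    Jn A B C ⊆ Jn A' B' C' := fun _ h =>
  Joins.mono h (image_mono (inter_subset_inter_right _ hA)) hB hC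

theorem Jn.of_subset {A : Set KC} {B C : Set ℂ} {S T : Cfg KC} (h : S.pts ⊆ T.pts)
    (hS : S ∈ Jn A B C) : T ∈ Jn A B C :=
  Joins.mono hS (image_mono (inter_subset_inter_left _ h)) Subset.rfl Subset.rfl

theorem res_mem_Jn {A A' : Set KC} {B C : Set ℂ} {S : Cfg KC} :
    S.res A' ∈ Jn A B C ↔ S ∈ Jn (A' ∩ A) B C := by
  simp only [Jn, mem_ofPred_eq, sets, Cfg.pts_res, inter_assoc]

/-- A chain of small sets can be stopped when it first leaves a disc. -/
theorem Joins.localize {T : Set (Set ℂ)} {A : Set ℂ} {c : ℂ} {r δ : ℝ}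
    (hT : ∀ K ∈ T, ∀ x ∈ K, ∀ y ∈ K, dist x y < δ) (hA : A ⊆ ball c r)
    (h : Joins T A (ball c r)ᶜ) : Joins {K ∈ T | K ⊆ ball c (r + δ)} A (ball c r)ᶜ := by
  obtain ⟨K, hK, K', h, ⟨x, x1, x2⟩, h2⟩ := h
  have key : ∀ L ∈ T, (L ∩ ball c r).Nonempty → L ⊆ ball c (r + δ) := fun L hL ⟨u, u1, u2⟩ v hv => by
    have := hT L hL v hv u u1
    rw [mem_ball] at u2 ⊢
    linarith [dist_triangle v u c]
  have hK' := key K hK ⟨x, x1, hA x2⟩
  by_contra hn
  have : Lk {K ∈ T | K ⊆ ball c (r + δ)} K K' := by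
    clear h2
    induction h with
    | refl => exact .refl
    | tail h1 h2 ih =>
      refine ih.tail ⟨⟨h2.1, key _ h2.1 ?_⟩, h2.2⟩
      obtain ⟨w, w1, w2⟩ := h2.2
      by_contra hw
      exact hn ⟨K, ⟨hK, hK'⟩, _, ih, ⟨x, x1, x2⟩, w, w1, fun h => hw ⟨w, w2, h⟩⟩
  exact hn ⟨K, ⟨hK, hK'⟩, K', this, ⟨x, x1, x2⟩, h2⟩

theorem dist_lt_of_not_bigK {δ : ℝ} {K : KC} (h : K ∉ bigK δ) {x y : ℂ} (hx : x ∈ (K : Set ℂ))
    (hy : y ∈ (K : Set ℂ)) : dist x y < δ :=
  (dist_le_diam_of_mem K.isCompact.isBounded hx hy).trans_lt (not_le.1 h)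

theorem subset_thickening_of_dist {K L : KC} {δ : ℝ} (h : dist L K < δ) :
    (L : Set ℂ) ⊆ thickening δ (K : Set ℂ) := fun z hz => by
  rw [Metric.NonemptyCompacts.dist_eq] at h
  obtain ⟨w, hw, hw'⟩ := exists_dist_lt_of_hausdorffDist_lt hz h
    (hausdorffEDist_ne_top_of_nonempty_of_bounded L.nonempty K.nonempty
      L.isCompact.isBounded K.isCompact.isBounded)
  exact mem_thickening_iff.2 ⟨w, hw, hw'⟩

/-- Being inside the filling of a compact set is a closed condition. -/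
theorem isClosed_fillK : IsClosed {p : ℂ × KC | p.1 ∈ fill (p.2 : Set ℂ)} := by
  refine isOpen_compl_iff.1 (isOpen_iff_mem_nhds.2 fun ⟨z, K⟩ hz => ?_)
  obtain ⟨R, hR0, hR⟩ := K.isCompact.isBounded.subset_ball_lt 0 0
  obtain ⟨w, hw, hj⟩ := exists_far K.isCompact.isClosed hz 0 (R + 1)
  have hP : IsCompact (range hj.somePath) := isCompact_range hj.somePath.continuous
  obtain ⟨δ, hδ, hd⟩ := Disjoint.exists_thickenings (s := range hj.somePath) (t := (K : Set ℂ))
    (disjoint_left.2 fun _ ⟨t, ht⟩ h => hj.somePath_mem t (ht ▸ h)) hP K.isCompact.isClosed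
  refine mem_of_superset (ball_mem_nhds _ (lt_min hδ one_pos)) fun ⟨z', L⟩ h hf => ?_
  rw [mem_ball, Prod.dist_eq, max_lt_iff, lt_min_iff, lt_min_iff] at h
  have hz0 : z ∈ range hj.somePath := ⟨0, hj.somePath.source⟩
  have hC : IsPreconnected (ball z δ ∪ range hj.somePath) :=
    (convex_ball z δ).isPreconnected.union z (mem_ball_self hδ) hz0
      (isPreconnected_range hj.somePath.continuous)
  have h1 := fill_conn hC (hd.mono (union_subset (ball_subset_thickening hz0 δ)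
    (self_subset_thickening hδ _)) (subset_thickening_of_dist h.2.1)) (Or.inl h.1.1)
    (Or.inr ⟨1, hj.somePath.target⟩) hf
  refine absurd (fill_subset_ball (c := 0) (r := R + 1) (by positivity) (fun u hu => ?_) h1)
    (not_lt.2 hw)
  obtain ⟨v, hv, huv⟩ := mem_thickening_iff.1 (subset_thickening_of_dist h.2.2 hu)
  have := hR hv
  rw [mem_ball] at this ⊢
  linarith [dist_triangle u v 0]

theorem isClosed_covK (B : Set ℂ) : IsClosed {K : KC | B ⊆ fill (K : Set ℂ)} := by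
  have : {K : KC | B ⊆ fill (K : Set ℂ)} = ⋂ z ∈ B, (fun K : KC => (z, K)) ⁻¹'
      {p : ℂ × KC | p.1 ∈ fill (p.2 : Set ℂ)} := by
    ext K
    simp [subset_def]
  rw [this]
  exact isClosed_biInter fun z _ => isClosed_fillK.preimage (by fun_prop)

/-- The traces in the disc of radius `4 s` whose filling contains the disc of radius `s`. -/
def surK (p : ℂ) (s : ℝ) : Set KC := {K | ball p s ⊆ fill (K : Set ℂ)} ∩ inK (ball p (4 * s))

theorem measurableSet_surK (p : ℂ) (s : ℝ) : MeasurableSet (surK p s) :=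
  (isClosed_covK _).measurableSet.inter (isOpen_inK isOpen_ball).measurableSet

theorem muK_surK (ν : Measure Br) (p : ℂ) (s : ℝ) : muK ν (surK p s) = loopMeasure ν (sur p s) := by
  rw [muK, Measure.map_apply (by fun_prop) (measurableSet_surK p s)]
  congr 1
  ext l
  simp [surK, sur, inK, range_lp]

theorem surK_disj {p q : ℂ} {s r : ℝ} (hr : 0 < r) (h : 4 * r < s) :
    Disjoint (surK p s) (surK q r) := disjoint_left.2 fun K h1 h2 => by
  have := measure_mono (μ := (volume : Measure ℂ))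
    (h1.1.trans (fill_subset_ball (by positivity) h2.2))
  rw [Complex.volume_ball, Complex.volume_ball, ENNReal.mul_le_mul_iff_left
    (by simpa using NNReal.pi_ne_zero) (by simp),
    ENNReal.pow_le_pow_left_iff (by norm_num)] at this
  exact absurd ((ENNReal.ofReal_le_ofReal_iff (by positivity)).1 this) (not_le.2 h)

end Pool.Agent.P.MP_d66c6d_pr
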