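import Pool.Agent.P.MP_d66c6d_pr.S.Iface

/-! Step CELLS of the carpet project. -/

namespace Pool.Agent.P.MP_d66c6d_pr

open MeasureTheory ProbabilityTheory Set Metric Filter Topology
open scoped ENNReal

namespace CellsA

theorem coord (ε : ℝ) (w : ℂ) (c : ℤ × ℤ) :
    |w.re - ε * c.1| ≤ dist w (gp ε c) ∧ |w.im - ε * c.2| ≤ dist w (gp ε c) := by
  have a := Complex.abs_re_le_norm (w - gp ε c)
  have b := Complex.abs_im_le_norm (w - gp ε c)
  rw [dist_eq_norm]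
  simpa [gp] using And.intro a b

theorem grid {ε : ℝ} (hε : 0 < ε) (z : ℂ) : ∃ c, dist z (gp ε c) ≤ ε := by
  have key : ∀ x : ℝ, |x - ε * round (x / ε)| ≤ ε / 2 := fun x => by
    rw [show x - ε * round (x / ε) = ε * (x / ε - round (x / ε)) by field_simp, abs_mul,
      abs_of_pos hε]
    nlinarith [abs_sub_round (x / ε)]
  refine ⟨(round (z.re / ε), round (z.im / ε)), ?_⟩
  rw [dist_eq_norm]
  refine (Complex.norm_le_abs_re_add_abs_im _).trans ?_
  have a := key z.re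
  have b := key z.im
  simp only [gp, Complex.sub_re, Complex.sub_im, Complex.mul_re, Complex.mul_im, Complex.add_re,
    Complex.add_im, Complex.ofReal_re, Complex.ofReal_im, Complex.intCast_re, Complex.intCast_im,
    Complex.I_re, Complex.I_im, mul_zero, mul_one, zero_mul, sub_zero, add_zero, zero_add]
  linarith

theorem cover {ε : ℝ} (hε : 0 < ε) {Γ : Set ℂ} {x : ℂ} (hx : x ∈ Γ) :
    ∃ c ∈ cells ε Γ, x ∈ closedBall (gp ε c) ε := by
  obtain ⟨c, hc⟩ := grid hε x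
  exact ⟨c, ⟨x, hx, hc⟩, hc⟩

theorem fin {ε : ℝ} (hε : 0 < ε) {Γ : Set ℂ} (h : IsCompact Γ) : (cells ε Γ).Finite := by
  obtain ⟨R, hR⟩ := h.isBounded.subset_closedBall 0
  have key : ∀ (x : ℝ) (k : ℤ), |x| ≤ R → |x - ε * k| ≤ ε →
      k ∈ Icc (-⌈R / ε + 1⌉) ⌈R / ε + 1⌉ := fun x k h1 h2 => by
    have h3 := Int.le_ceil (R / ε + 1)
    have h4 : |(k : ℝ)| ≤ R / ε + 1 := by
      rw [div_add_one hε.ne', le_div_iff₀ hε, ← abs_of_pos hε, ← abs_mul, abs_of_pos hε]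
      have := abs_le.1 h1
      have := abs_le.1 h2
      rw [abs_le]
      constructor <;> linarith
    have h5 := abs_le.1 (h4.trans h3)
    exact ⟨by exact_mod_cast h5.1, by exact_mod_cast h5.2⟩
  refine ((finite_Icc (-⌈R / ε + 1⌉) ⌈R / ε + 1⌉).prod
    (finite_Icc (-⌈R / ε + 1⌉) ⌈R / ε + 1⌉)).subset fun c ⟨x, hx, hc⟩ => ?_
  have a := mem_closedBall_zero_iff.1 (hR hx)
  exact ⟨key x.re _ ((Complex.abs_re_le_norm x).trans a) ((coord ε x c).1.trans hc),
    key x.im _ ((Complex.abs_im_le_norm x).trans a) ((coord ε x c).2.trans hc)⟩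

theorem near {ε : ℝ} (hε : 0 < ε) {x : ℂ} {u v : ℤ × ℤ} (hu : x ∈ closedBall (gp ε u) ε)
    (hv : x ∈ closedBall (gp ε v) ε) : dist u v ≤ 2 := by
  have key : ∀ (t : ℝ) (a b : ℤ), |t - ε * a| ≤ ε → |t - ε * b| ≤ ε → dist a b ≤ 2 :=
    fun t a b h1 h2 => by
      have := abs_le.1 h1
      have := abs_le.1 h2
      rw [Int.dist_eq, abs_le]
      constructor <;> nlinarith
  rw [Prod.dist_eq]
  exact max_le (key x.re _ _ ((coord ε x u).1.trans hu) ((coord ε x v).1.trans hv))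
    (key x.im _ _ ((coord ε x u).2.trans hu) ((coord ε x v).2.trans hv))

theorem anim {ε : ℝ} (hε : 0 < ε) {Γ : Set ℂ} (h : IsCompact Γ) (h' : IsPreconnected Γ)
    {c : ℤ × ℤ} (hc : c ∈ cells ε Γ) : Anim c (cells ε Γ) := by
  refine ⟨hc, fun b hb => ?_⟩
  by_contra hn
  set r := Relation.ReflTransGen (fun u v => v ∈ cells ε Γ ∧ dist u v ≤ 2) c
  have cl : ∀ p : ℤ × ℤ → Prop, IsClosed (⋃ u ∈ {u ∈ cells ε Γ | p u}, closedBall (gp ε u) ε) :=
    fun p => ((fin hε h).subset (sep_subset _ _)).isClosed_biUnion fun _ _ => isClosed_closedBall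
  obtain ⟨x, -, h1, h2⟩ := isPreconnected_closed_iff.1 h' _ _ (cl r) (cl fun u => ¬ r u)
    (fun x hx => by
      obtain ⟨u, hu, hxu⟩ := cover hε hx
      by_cases hr : r u
      · exact Or.inl (mem_biUnion ⟨hu, hr⟩ hxu)
      · exact Or.inr (mem_biUnion ⟨hu, hr⟩ hxu))
    (hc.mono (inter_subset_inter_right _ (subset_biUnion_of_mem
      (u := fun u => closedBall (gp ε u) ε) ⟨hc, .refl⟩)))
    (hb.mono (inter_subset_inter_right _ (subset_biUnion_of_mem
      (u := fun u => closedBall (gp ε u) ε) ⟨hb, hn⟩)))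
  obtain ⟨u, hu, hxu⟩ := mem_iUnion₂.1 h1
  obtain ⟨v, hv, hxv⟩ := mem_iUnion₂.1 h2
  exact hv.2 (Relation.ReflTransGen.tail hu.2 ⟨hv.1, near hε hxu hxv⟩)

theorem meas_le {α β : Type*} [MeasurableSpace α] (μ : Measure α) {A : Set β} (hA : A.Finite)
    {S : Set α} {f : β → Set α} {v : ℝ≥0∞} (h : ∀ x ∈ S, ∃ c ∈ A, x ∈ f c)
    (hv : ∀ c, μ (f c) ≤ v) : μ S ≤ v * A.ncard := by
  calc μ S ≤ μ (⋃ c ∈ hA.toFinset, f c) := measure_mono fun x hx => by
        obtain ⟨c, hc, hx⟩ := h x hx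
        exact mem_biUnion (hA.mem_toFinset.2 hc) hx
    _ ≤ ∑ c ∈ hA.toFinset, μ (f c) := measure_biUnion_finset_le _ _
    _ ≤ ∑ _c ∈ hA.toFinset, v := Finset.sum_le_sum fun c _ => hv c
    _ = _ := by rw [Finset.sum_const, nsmul_eq_mul, mul_comm, ncard_eq_toFinset_card _ hA]

theorem dist_le {ε : ℝ} (hε : 0 < ε) {Γ : Set ℂ} (h : IsCompact Γ) (h' : IsPreconnected Γ)
    {x y : ℂ} (hx : x ∈ Γ) (hy : y ∈ Γ) : dist x y ≤ 4 * ε * (cells ε Γ).ncard := by
  have h1 : Icc 0 (dist x y) ⊆ (fun t => dist x t) '' Γ :=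
    (h'.image _ (by fun_prop)).Icc_subset ⟨x, hx, dist_self x⟩ ⟨y, hy, rfl⟩
  have h2 := meas_le volume (fin hε h) (S := Icc 0 (dist x y)) (v := ENNReal.ofReal (4 * ε))
    (f := fun c => Icc (dist x (gp ε c) - ε) (dist x (gp ε c) + ε)) (fun s hs => by
      obtain ⟨t, ht, rfl⟩ := h1 hs
      obtain ⟨c, hc, htc⟩ := cover hε ht
      have a := dist_triangle x t (gp ε c)
      have b := dist_triangle_right x t (gp ε c)
      have := mem_closedBall.1 htc
      exact ⟨c, hc, by linarith, by linarith⟩)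
    fun c => by
      rw [Real.volume_Icc]
      exact ENNReal.ofReal_le_ofReal (by linarith)
  rwa [Real.volume_Icc, sub_zero, ← ENNReal.ofReal_natCast,
    ← ENNReal.ofReal_mul (by positivity), ENNReal.ofReal_le_ofReal_iff (by positivity)] at h2

theorem area {ε : ℝ} (hε : 0 < ε) {Γ : Set ℂ} (h : IsCompact Γ) :
    volume (thickening ε Γ) ≤ ENNReal.ofReal (16 * ε ^ 2) * (cells ε Γ).ncard := by
  refine meas_le volume (fin hε h) (f := fun c => ball (gp ε c) (2 * ε)) (fun w hw => ?_)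
    fun c => ?_
  · obtain ⟨t, ht, hwt⟩ := mem_thickening_iff.1 hw
    obtain ⟨c, hc, htc⟩ := cover hε ht
    have a := dist_triangle w t (gp ε c)
    have := mem_closedBall.1 htc
    exact ⟨c, hc, mem_ball.2 (by linarith)⟩
  · rw [Complex.volume_ball, ← ENNReal.ofReal_pow (by positivity), ← ENNReal.ofReal_coe_nnreal,
      ← ENNReal.ofReal_mul (by positivity), NNReal.coe_real_pi]
    exact ENNReal.ofReal_le_ofReal (by nlinarith [Real.pi_le_four, sq_nonneg ε])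

open Classical in
theorem count {ε : ℝ} (hε : 0 < ε) (G : Finset (ℤ × ℤ)) (w : ℂ) :
    ∑ c ∈ G, (ball (gp ε c) (3 * ε)).indicator (1 : ℂ → ℝ≥0∞) w ≤ 49 := by
  have key : ∀ (x : ℝ) (k : ℤ), |x - ε * k| < 3 * ε →
      k ∈ Finset.Icc (⌊x / ε⌋ - 3) (⌊x / ε⌋ + 3) := fun x k h => by
    have h1 := abs_lt.1 h
    have h2 := Int.floor_le (x / ε)
    have h3 := Int.lt_floor_add_one (x / ε)
    have h4 : x / ε - 3 < k := by
      rw [sub_lt_iff_lt_add, div_lt_iff₀ hε]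
      linarith
    have h5 : (k : ℝ) < x / ε + 3 := by
      rw [← sub_lt_iff_lt_add, lt_div_iff₀ hε]
      linarith
    have h6 : ((⌊x / ε⌋ - 3 : ℤ) : ℝ) < k := by push_cast; linarith
    have h7 : (k : ℝ) < (⌊x / ε⌋ + 4 : ℤ) := by push_cast; linarith
    have h6' := Int.cast_lt.1 h6
    have h7' := Int.cast_lt.1 h7
    rw [Finset.mem_Icc]
    omega
  have h1 : (G.filter fun c => w ∈ ball (gp ε c) (3 * ε)).card ≤ 49 := by
    refine (Finset.card_le_card (t := Finset.Icc (⌊w.re / ε⌋ - 3) (⌊w.re / ε⌋ + 3) ×ˢ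
      Finset.Icc (⌊w.im / ε⌋ - 3) (⌊w.im / ε⌋ + 3)) fun c hc => ?_).trans ?_
    · have := (Finset.mem_filter.1 hc).2
      exact Finset.mem_product.2 ⟨key _ _ ((coord ε w c).1.trans_lt this),
        key _ _ ((coord ε w c).2.trans_lt this)⟩
    · rw [Finset.card_product, Int.card_Icc, Int.card_Icc,
        show ∀ a : ℤ, a + 3 + 1 - (a - 3) = 7 from fun a => by ring,
        show ∀ a : ℤ, a + 3 + 1 - (a - 3) = 7 from fun a => by ring]
      rfl
  simp only [indicator_apply, Pi.one_apply, Finset.sum_boole]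
  exact_mod_cast h1

theorem overlap {ε : ℝ} (hε : 0 < ε) {G : Set (ℤ × ℤ)} {T : Set ℂ} {v : ℝ≥0∞} (hG : G.Finite)
    (h : ∀ c ∈ G, v ≤ volume (T ∩ ball (gp ε c) (3 * ε))) :
    (G.ncard : ℝ≥0∞) * v ≤ 49 * volume T := by
  calc (G.ncard : ℝ≥0∞) * v = ∑ _c ∈ hG.toFinset, v := by
        rw [Finset.sum_const, nsmul_eq_mul, ncard_eq_toFinset_card _ hG]
    _ ≤ ∑ c ∈ hG.toFinset, ∫⁻ w in T, (ball (gp ε c) (3 * ε)).indicator 1 w :=
        Finset.sum_le_sum fun c hc => by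
          rw [lintegral_indicator_one measurableSet_ball,
            Measure.restrict_apply measurableSet_ball, inter_comm]
          exact h c (hG.mem_toFinset.1 hc)
    _ = ∫⁻ w in T, ∑ c ∈ hG.toFinset, (ball (gp ε c) (3 * ε)).indicator 1 w :=
        (lintegral_finsetSum _ fun c _ => measurable_one.indicator measurableSet_ball).symm
    _ ≤ ∫⁻ _ in T, 49 := lintegral_mono fun w => count hε _ w
    _ = _ := setLIntegral_const _ _

end CellsA

theorem p_CELLS :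
    S_CELLS := fun _ _ hε h h' =>
  ⟨CellsA.fin hε h, fun _ hc => CellsA.anim hε h h' hc, fun _ hx => CellsA.cover hε hx,
    fun _ hx _ hy => CellsA.dist_le hε h h' hx hy, CellsA.area hε h,
    fun _ _ _ hG _ hv => CellsA.overlap hε hG hv⟩

end Pool.Agent.P.MP_d66c6d_pr
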