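import Pool.Agent.P.MP_d66c6d_pr.S.Iface2
import Pool.Agent.P.MP_d66c6d_pr.S.Iface
import Pool.Agent.P.MP_d66c6d_pr.F.Iface
import Pool.Agent.P.MP_d66c6d_pr.Nest

/-! Step SUBX of the carpet project. -/

namespace Pool.Agent.P.MP_d66c6d_pr

open MeasureTheory ProbabilityTheory Set Metric Filter Topology
open scoped ENNReal

namespace SubxA

/-- One cluster is dense in every domain. -/
def Dn (T : Set (Set ℂ)) : Prop := ∀ U : Set ℂ, IsOpen U → IsPreconnected U → U.Nonempty →
  ∃ K ∈ T, K ⊆ U ∧ U ⊆ closure (cluster {K ∈ T | K ⊆ U} K)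

theorem out_sub {T : Set (Set ℂ)} {U W : Set ℂ} (h : W ∈ outers T U) : W ⊆ U := by
  obtain ⟨K, -, -, rfl⟩ := h
  exact inter_subset_left

theorem cle_eq {T : Set (Set ℂ)} (hT : Dn T) {U W : Set ℂ} (h1 : IsOpen U) (h2 : IsPreconnected U)
    (h3 : U.Nonempty) (h : W ∈ cleIn2 T U) : W = ∅ ∨ W = U := by
  obtain ⟨K, k1, k2, k3⟩ := hT U h1 h2 h3
  have hU : U ∈ outers T U := by
    refine ⟨K, k1, k2, (inter_eq_left.2 ?_).symm⟩
    refine interior_maximal (k3.trans fun z hz => ?_) h1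
    have : connectedComponentIn (closure (cluster {K ∈ T | K ⊆ U} K))ᶜ z = ∅ :=
      connectedComponentIn_eq_empty (not_not.2 hz)
    simp [fill, this]
  rcases W.eq_empty_or_nonempty with h4 | h4
  · exact Or.inl h4
  · refine Or.inr (Subset.antisymm (out_sub h.1) (h.2 U hU ?_))
    rwa [inter_eq_left.2 (out_sub h.1)]

theorem gen_eq2 {S : ℕ → Set (Set ℂ)} (hS : ∀ k, Dn (S k)) {U : Set ℂ} (h1 : IsOpen U)
    (h2 : IsPreconnected U) (h3 : U.Nonempty) : ∀ k, ∀ W ∈ gen2 S U k, W = ∅ ∨ W = U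
  | 0, _, h => cle_eq (hS 0) h1 h2 h3 h
  | k + 1, W, h => by
    simp only [gen2, mem_iUnion] at h
    obtain ⟨V, hV, h⟩ := h
    rcases gen_eq2 hS h1 h2 h3 k V hV with rfl | rfl
    · exact Or.inl (subset_empty_iff.1 (out_sub h.1))
    · exact cle_eq (hS _) h1 h2 h3 h

theorem carpet_empty {S : ℕ → Set (Set ℂ)} (hS : ∀ k, Dn (S k)) {R : ℝ} (hR : 2 ≤ R) :
    ¬ (firstCarpet (within 1 (nested2 S (ball 0 R)))).Nonempty := by
  rintro ⟨z, V, hV, -⟩
  obtain ⟨k, hk⟩ := mem_iUnion.1 hV.1.1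
  rcases gen_eq2 hS isOpen_ball (convex_ball _ _).isPreconnected (nonempty_ball.2 (by linarith))
    k V hk with rfl | rfl
  · exact hV.2.1
  · have : (1 : ℂ) ∈ ball (0 : ℂ) 1 := hV.1.2 (by simp; linarith)
    simp at this

end SubxA

open SubxA in
theorem p_SUBX (hDENS : S_DENS) (hTRANS : S_TRANS) (hMUK : S_MUK) :
    S_SUBX := by
  intro ν hν c θ hL
  have key : SubC ν (ENNReal.ofReal c) := by
    by_contra hs
    obtain ⟨Ω, _, _, P, Γ, κ, hk, ⟨hP, -, Ω₀, _, _, P₀, N, hN, hc⟩, hθ⟩ := hL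
    have := hN.prob
    have h1 := hDENS ν hν _ ENNReal.ofReal_ne_top hs
    have hsf : SigmaFinite (loopMeasure ν) := (hMUK ν hν).1
    have hsf2 : SigmaFinite (intensity κ • loopMeasure ν) := by
      rw [hk]
      exact inferInstanceAs (SigmaFinite (c.toNNReal • loopMeasure ν))
    have h2 := hTRANS Ω₀ Lp KC P₀ _ N (fun l => trB (lp l).2) hsf2 hN (by fun_prop)
    rw [Measure.map_smul, hk] at h2
    have h3 : ∀ᵐ ω ∂P₀, Dn (trace '' N ω) := by
      filter_upwards [h2.quasiMeasurePreserving.ae h1] with ω hω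
      rw [sets_map_trace] at hω
      exact hω
    set μ := Measure.infinitePi (fun _ : ℕ => P₀) with hμ
    have h4 : ∀ᵐ ω ∂μ, ∀ k, Dn (trace '' N (ω k)) := ae_all_iff.2 fun k =>
      (measurePreserving_eval_infinitePi (fun _ : ℕ => P₀) k).quasiMeasurePreserving.ae h3
    have h0 : P {ω | (firstCarpet (Γ ω)).Nonempty} = 0 := by
      refine le_antisymm (ENNReal.le_of_forall_pos_le_add fun η hη _ => ?_) zero_le
      obtain ⟨R, hR⟩ := hc 1 one_pos η (by exact_mod_cast hη)
      obtain ⟨Q, q1, q2, q3⟩ := hR (max R 2) (le_max_left _ _)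
      have : IsProbabilityMeasure Q := ⟨by
        rw [← preimage_univ (f := Prod.fst), ← Measure.map_apply measurable_fst MeasurableSet.univ,
          q1, measure_univ]⟩
      have h5 := (transfer Q (fun ω => within 1 (Γ ω))
        (fun ω => within 1 (nested2 (fun k => trace '' N (ω k)) (ball 0 (max R 2))))
        {G | (firstCarpet G).Nonempty}).1
      rw [q1, q2] at h5
      have h6 : μ ((fun ω => within 1 (nested2 (fun k => trace '' N (ω k)) (ball 0 (max R 2)))) ⁻¹'
          {G | (firstCarpet G).Nonempty}) = 0 :=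
        measure_mono_null (fun ω hω h => carpet_empty h (le_max_right _ _) hω) (ae_iff.1 h4)
      rw [h6] at h5
      refine le_trans (le_of_eq ?_) (h5.trans (add_le_add_right q3 _))
      congr 1
      ext ω
      simp only [mem_ofPred_eq, mem_preimage, firstCarpet_within]
    obtain ⟨a, ha, -⟩ := hθ
    obtain ⟨a0, -, a1⟩ := ha 1 one_pos
    refine absurd (a1.trans (le_of_eq (measure_mono_null (fun ω hω => ?_) h0))) (by simp)
    by_contra hn
    have h3 : firstCarpet (Γ ω) = ∅ := not_nonempty_iff_eq_empty.1 hn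
    simp only [mem_ofPred_eq, h3, mem_empty_iff_false, iSup_false, iSup_bot] at hω
    exact absurd hω (by simpa using a0)
  refine ⟨key, fun η hη => ?_⟩
  obtain ⟨δ, h1, h2⟩ := ((key.eventually (ge_mem_nhds (pos_iff_ne_zero.2 hη))).and
    self_mem_nhdsWithin).exists
  refine ⟨δ, h2, ?_⟩
  simpa only [Crs, Jn, mul_one] using h1

end Pool.Agent.P.MP_d66c6d_pr
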