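import Pool.Agent.P.MP_d66c6d_pr.S.Iface

/-! Step ANI of the carpet project. -/

namespace Pool.Agent.P.MP_d66c6d_pr

open MeasureTheory ProbabilityTheory Set Metric Filter Topology
open scoped ENNReal

namespace AniA

/-- the possible steps -/
noncomputable def box : Finset (ℤ × ℤ) := Finset.Icc (-2) 2 ×ˢ Finset.Icc (-2) 2

theorem card_box : box.card = 25 := by simp [box]

theorem mem_box {u v : ℤ × ℤ} (h : dist u v ≤ 2) : v - u ∈ box := by
  rw [Prod.dist_eq, max_le_iff, Int.dist_eq, Int.dist_eq, abs_le, abs_le] at h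
  obtain ⟨⟨h1, h2⟩, h3, h4⟩ := h
  have e1 : (-2 : ℤ) ≤ u.1 - v.1 := by exact_mod_cast h1
  have e2 : u.1 - v.1 ≤ (2 : ℤ) := by exact_mod_cast h2
  have e3 : (-2 : ℤ) ≤ u.2 - v.2 := by exact_mod_cast h3
  have e4 : u.2 - v.2 ≤ (2 : ℤ) := by exact_mod_cast h4
  simp only [box, Finset.mem_product, Finset.mem_Icc, Prod.fst_sub, Prod.snd_sub]
  omega

/-- the trace of the walk with given steps -/
def trc (c₀ : ℤ × ℤ) (m : ℕ) (s : Fin m → ℤ × ℤ) : Finset (ℤ × ℤ) :=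
  (Finset.range m).image fun i => c₀ + ∑ j ∈ Finset.range i, if h : j < m then s ⟨j, h⟩ else 0

theorem count (hWALK : S_WALK) (c₀ : ℤ × ℤ) (n : ℕ) : ∃ F : Finset (Finset (ℤ × ℤ)),
    F.card ≤ 625 ^ n ∧ ∀ A : Finset (ℤ × ℤ), Anim c₀ A → A.card = n → A ∈ F := by
  refine ⟨(Fintype.piFinset fun _ : Fin (2 * n) => box).image (trc c₀ (2 * n)),
    Finset.card_image_le.trans ?_, fun A hA hn => ?_⟩
  · rw [Fintype.card_piFinset, Finset.prod_const, card_box, Finset.card_univ, Fintype.card_fin,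
      pow_mul]
    norm_num
  · obtain ⟨w, h0, h1, h2⟩ := hWALK c₀ A hA
    rw [hn] at h2
    refine Finset.mem_image.2 ⟨fun j => w (j + 1) - w j,
      Fintype.mem_piFinset.2 fun j => mem_box (h1 j), ?_⟩
    rw [h2, trc]
    refine Finset.image_congr fun i hi => ?_
    have hi' : i < 2 * n := by simpa using hi
    show _ = w i
    rw [Finset.sum_congr rfl (g := fun j => w (j + 1) - w j)
      fun j hj => dif_pos ((Finset.mem_range.1 hj).trans hi'), Finset.sum_range_sub, h0]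
    abel

theorem sep1 {K x y : ℤ} (h : x % K = y % K) (hne : x ≠ y) : (K : ℝ) ≤ dist x y := by
  have e : K ≤ |x - y| := Int.le_abs_of_dvd (sub_ne_zero.2 hne) (Int.ModEq.dvd h.symm)
  rw [Int.dist_eq]
  exact_mod_cast e

theorem thin (k : ℕ) (S : Finset (ℤ × ℤ)) : ∃ B ⊆ S,
    (∀ a ∈ B, ∀ b ∈ B, a ≠ b → (k : ℝ) ≤ dist a b) ∧ S.card ≤ B.card * (k + 1) ^ 2 := by
  set K : ℤ := k + 1 with hK
  have hK0 : 0 < K := by omega
  set f : ℤ × ℤ → ℤ × ℤ := fun c => (c.1 % K, c.2 % K) with hf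
  set t : Finset (ℤ × ℤ) := Finset.Ico 0 K ×ˢ Finset.Ico 0 K with ht
  have hc : t.card = (k + 1) ^ 2 := by simp [ht, hK, sq]
  obtain ⟨y, -, hy⟩ := Finset.exists_max_image t (fun y => (S.filter fun a => f a = y).card)
    ⟨(0, 0), by simp [ht, hK0]⟩
  refine ⟨S.filter fun a => f a = y, Finset.filter_subset _ _, fun a ha b hb hne => ?_, ?_⟩
  · have e : f a = f b := (Finset.mem_filter.1 ha).2.trans (Finset.mem_filter.1 hb).2.symm
    have hk : (k : ℝ) ≤ (K : ℝ) := by rw [hK]; push_cast; linarith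
    rw [Prod.dist_eq]
    by_cases e1 : a.1 = b.1
    · exact (hk.trans (sep1 (congrArg Prod.snd e) fun e2 => hne (Prod.ext e1 e2))).trans
        (le_max_right _ _)
    · exact (hk.trans (sep1 (congrArg Prod.fst e) e1)).trans (le_max_left _ _)
  · rw [← hc]
    refine Finset.card_le_mul_card_image_of_maps_to (f := f) (fun a _ => ?_) _ hy
    simp only [ht, hf, Finset.mem_product, Finset.mem_Ico]
    exact ⟨⟨Int.emod_nonneg _ hK0.ne', Int.emod_lt_of_pos _ hK0⟩,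
      Int.emod_nonneg _ hK0.ne', Int.emod_lt_of_pos _ hK0⟩

theorem num (j : ℕ) : (625 : ℝ≥0∞) ^ j * (2 ^ j * (2⁻¹ * 2500⁻¹ ^ j)) = 2⁻¹ * 2⁻¹ ^ j := by
  have e : (625 : ℝ≥0∞) * 2 * 2500⁻¹ = 2⁻¹ := by
    rw [show (2500 : ℝ≥0∞) = 1250 * 2 by norm_num, ENNReal.mul_inv (by simp) (by simp),
      ← mul_assoc, show (625 : ℝ≥0∞) * 2 = 1250 by norm_num,
      ENNReal.mul_inv_cancel (by simp) (by simp), one_mul]
  calc _ = 2⁻¹ * ((625 : ℝ≥0∞) * 2 * 2500⁻¹) ^ j := by rw [mul_pow, mul_pow]; ring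
    _ = _ := by rw [e]

theorem pw {j m b : ℕ} (hb : 0 < b) (h : j ≤ m * b) :
    ((2⁻¹ : ℝ≥0∞) * 2500⁻¹ ^ m) ^ b ≤ 2⁻¹ * 2500⁻¹ ^ j := by
  rw [mul_pow, ← pow_mul]
  exact mul_le_mul' (pow_le_of_le_one (by simp) (by simp) hb.ne') (pow_le_pow_right_of_le_one' (by simp) h)

end AniA

open AniA in
theorem p_ANI (hWALK : S_WALK) :
    S_ANI := by
  classical
  refine ⟨count hWALK, fun k => ⟨2⁻¹ * 2500⁻¹ ^ (2 * (k + 1) ^ 2), by simp, ?_⟩⟩
  intro Ω _ P bad hbad c₀ n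
  choose F hF hmem using count hWALK c₀
  set G : Finset (ℤ × ℤ) → Finset (Finset (ℤ × ℤ)) := fun A => A.powerset.filter fun B =>
    B.Nonempty ∧ (∀ a ∈ B, ∀ b ∈ B, a ≠ b → (k : ℝ) ≤ dist a b) ∧
      A.card ≤ 2 * (k + 1) ^ 2 * B.card with hG
  have hsub : {ω | ∃ A : Finset (ℤ × ℤ), Anim c₀ A ∧ n ≤ A.card ∧
      A.card ≤ 2 * {c | c ∈ A ∧ ω ∈ bad c}.ncard} ⊆
      ⋃ i : ℕ, ⋃ A ∈ (F (n + i)).filter (fun A => A.card = n + i), ⋃ B ∈ G A, ⋂ c ∈ B, bad c := by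
    rintro ω ⟨A, hA, hn, hc⟩
    have e : {c | c ∈ A ∧ ω ∈ bad c} = (A.filter fun c => ω ∈ bad c : Finset (ℤ × ℤ)) := by
      ext c; simp
    rw [e, Set.ncard_coe_finset] at hc
    obtain ⟨B, hB, hs, hcard⟩ := thin k (A.filter fun c => ω ∈ bad c)
    obtain ⟨i, hi⟩ := Nat.exists_eq_add_of_le hn
    have hle : A.card ≤ 2 * (k + 1) ^ 2 * B.card := by nlinarith
    have hpos : 0 < A.card := Finset.card_pos.2 ⟨c₀, hA.1⟩
    refine mem_iUnion.2 ⟨i, mem_iUnion₂.2 ⟨A, Finset.mem_filter.2 ⟨hmem _ A hA hi, hi⟩,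
      mem_iUnion₂.2 ⟨B, Finset.mem_filter.2 ⟨Finset.mem_powerset.2
        (hB.trans (Finset.filter_subset _ _)), ?_, hs, hle⟩,
        mem_iInter₂.2 fun c hc => (Finset.mem_filter.1 (hB hc)).2⟩⟩⟩
    exact Finset.card_pos.1 (Nat.pos_of_mul_pos_left (hpos.trans_le hle))
  refine (measure_mono hsub).trans ((measure_iUnion_le _).trans ?_)
  have hterm : ∀ j : ℕ, P (⋃ A ∈ (F j).filter (fun A => A.card = j), ⋃ B ∈ G A, ⋂ c ∈ B, bad c) ≤
      2⁻¹ * 2⁻¹ ^ j := fun j => by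
    rw [← num]
    refine (measure_biUnion_finset_le _ _).trans ((Finset.sum_le_card_nsmul _ _
      (2 ^ j * (2⁻¹ * 2500⁻¹ ^ j)) fun A hA => ?_).trans ?_)
    · have hj := (Finset.mem_filter.1 hA).2
      refine (measure_biUnion_finset_le _ _).trans ((Finset.sum_le_card_nsmul _ _
        (2⁻¹ * 2500⁻¹ ^ j) fun B hB => ?_).trans ?_)
      · obtain ⟨h1, h2, h3⟩ := (Finset.mem_filter.1 hB).2
        exact (hbad B h1 h2).trans (pw h1.card_pos (hj ▸ h3))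
      · rw [nsmul_eq_mul]
        refine mul_le_mul_left ?_ _
        have : (G A).card ≤ 2 ^ j := by
          rw [← hj, ← Finset.card_powerset]; exact Finset.card_filter_le _ _
        exact_mod_cast this
    · rw [nsmul_eq_mul]
      refine mul_le_mul_left ?_ _
      exact_mod_cast (Finset.card_filter_le _ _).trans (hF j)
  refine (ENNReal.tsum_le_tsum fun i => hterm (n + i)).trans_eq ?_
  simp only [pow_add, ← mul_assoc]
  rw [ENNReal.tsum_mul_left, ENNReal.tsum_geometric, ENNReal.one_sub_inv_two, inv_inv,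
    mul_right_comm, ENNReal.inv_mul_cancel (by simp) (by simp), one_mul]

end Pool.Agent.P.MP_d66c6d_pr
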