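import Pool.Agent.P.MP_d66c6d_pr.S.Inv

/-! The support of the bridge: every tube around a loop from `0` to `0` has positive mass. -/

namespace Pool.Agent.P.MP_d66c6d_pr

open MeasureTheory ProbabilityTheory Set Metric Filter Topology
open scoped ENNReal

/-- The support of a centred Gaussian measure is a linear subspace. -/
theorem exists_supp_submodule {E : Type*} [NormedAddCommGroup E] [NormedSpace ℝ E]
    [SecondCountableTopology E] [CompleteSpace E] [MeasurableSpace E] [BorelSpace E]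
    {μ : Measure E} [IsGaussian μ] (h0 : μ[id] = 0) :
    ∃ S : Submodule ℝ E, (S : Set E) = μ.support := by
  have rot : ∀ θ : ℝ, ∀ x ∈ μ.support, ∀ y ∈ μ.support,
      Real.cos θ • x + Real.sin θ • y ∈ μ.support := by
    intro θ x hx y hy
    rw [Measure.mem_support_iff_forall] at hx hy ⊢
    intro U hU
    obtain ⟨W, hWU, hW, hm⟩ := _root_.mem_nhds_iff.1 hU
    have hc : Continuous fun p : E × E => Real.cos θ • p.1 + Real.sin θ • p.2 := by fun_prop
    obtain ⟨A, hA, B, hB, hAB⟩ := mem_nhds_prod_iff.1 ((hW.preimage hc).mem_nhds (x := (x, y)) hm)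
    have e : μ W = (μ.prod μ) ((fun p : E × E => Real.cos θ • p.1 + Real.sin θ • p.2) ⁻¹' W) := by
      conv_lhs => rw [← mul_one (μ W), ← measure_univ (μ := μ), ← Measure.prod_prod,
        ← IsGaussian.map_rotation_eq_self h0 θ]
      rw [Measure.map_apply (ContinuousLinearMap.rotation θ).continuous.measurable
        (hW.measurableSet.prod MeasurableSet.univ)]
      congr 1
      ext p
      simp [ContinuousLinearMap.rotation_apply]
    refine lt_of_lt_of_le ?_ (measure_mono hWU)
    rw [e]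
    refine lt_of_lt_of_le ?_ (measure_mono hAB)
    rw [Measure.prod_prod]
    exact ENNReal.mul_pos (hx A hA).ne' (hy B hB).ne'
  obtain ⟨x0, hx0⟩ := Measure.nonempty_support (μ := μ) (IsProbabilityMeasure.ne_zero μ)
  have hz : (0 : E) ∈ μ.support := by
    have := rot (-(Real.pi / 4)) x0 hx0 x0 hx0
    simpa using this
  have small : ∀ c : ℝ, |c| ≤ 1 → ∀ x ∈ μ.support, c • x ∈ μ.support := by
    intro c hc x hx
    have := rot (Real.arccos c) x hx 0 hz
    rwa [Real.cos_arccos (abs_le.1 hc).1 (abs_le.1 hc).2, smul_zero, add_zero] at this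
  have hs : √2 / 2 + √2 / 2 = √2 := by ring
  have big : ∀ x ∈ μ.support, √2 • x ∈ μ.support := by
    intro x hx
    have := rot (Real.pi / 4) x hx x hx
    rwa [Real.cos_pi_div_four, Real.sin_pi_div_four, ← add_smul, hs] at this
  have h2 : √2 * √2 = 2 := Real.mul_self_sqrt (by norm_num)
  have add : ∀ x ∈ μ.support, ∀ y ∈ μ.support, x + y ∈ μ.support := by
    intro x hx y hy
    have := big _ (rot (Real.pi / 4) x hx y hy)
    rwa [Real.cos_pi_div_four, Real.sin_pi_div_four, ← smul_add, smul_smul, mul_div_assoc', h2,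
      div_self two_ne_zero, one_smul] at this
  have nat : ∀ n : ℕ, ∀ x ∈ μ.support, (n : ℝ) • x ∈ μ.support := by
    intro n x hx
    induction n with
    | zero => simpa using hz
    | succ n ih =>
      rw [Nat.cast_succ, add_smul, one_smul]
      exact add _ ih _ hx
  refine ⟨⟨⟨⟨μ.support, fun hx hy => add _ hx _ hy⟩, hz⟩, fun c x hx => ?_⟩, rfl⟩
  obtain ⟨n, hn⟩ := exists_nat_gt |c|
  have hn0 : (0 : ℝ) < n := (abs_nonneg c).trans_lt hn
  have := nat n _ (small (c / n) (by rw [abs_div, abs_of_pos hn0, div_le_one hn0]; exact hn.le) x hx)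
  rwa [smul_smul, mul_div_cancel₀ _ hn0.ne'] at this

theorem IsBridge.mean_zero {ν : Measure Br} (h : IsBridge ν) : ν[id] = 0 := by
  have := h.gauss
  ext s : 1
  have := (ContinuousMap.evalCLM ℝ s : Br →L[ℝ] ℂ).integral_comp_comm
    (IsGaussian.integrable_id (μ := ν))
  exact this.symm.trans (h.mean s)

/-- The covariance function as a path. -/
noncomputable def tent (s : ℝ) : Br := ⟨fun t => ((min s t - s * t : ℝ) : ℂ), by fun_prop⟩

theorem ramp_sum (a : ℕ → ℂ) {x : ℝ} {j : ℕ} (h1 : (j : ℝ) ≤ x) (h2 : x ≤ j + 1) {n : ℕ}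
    (hn : j < n) : ∑ k ∈ Finset.range n, (a (k + 1) - a k) * ((min (k + 1 : ℝ) x - min (k : ℝ) x : ℝ) : ℂ)
      = a j - a 0 + (a (j + 1) - a j) * ((x - j : ℝ) : ℂ) := by
  induction n, hn using Nat.le_induction with
  | base =>
    rw [Finset.sum_range_succ, min_eq_right h2, min_eq_left h1, ← Finset.sum_range_sub a j]
    congr 1
    refine Finset.sum_congr rfl fun k hk => ?_
    have : (k + 1 : ℝ) ≤ j := by exact_mod_cast Finset.mem_range.1 hk
    rw [min_eq_left (by linarith), min_eq_left (by linarith)]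
    simp
  | succ n hn ih =>
    have : (j + 1 : ℝ) ≤ n := by exact_mod_cast hn
    rw [Finset.sum_range_succ, ih, min_eq_right (by linarith), min_eq_right (by linarith)]
    simp

/-- Every tube around a loop from `0` to `0` has positive probability. -/
theorem IsBridge.tube {ν : Measure Br} (h : IsBridge ν) {g : Br} (h0 : g 0 = 0) (h1 : g 1 = 0)
    {η : ℝ} (hη : 0 < η) : ν (ball g η) ≠ 0 := by
  have := h.gauss
  obtain ⟨S, hS⟩ := exists_supp_submodule h.mean_zero
  have hae : ∀ᵐ b ∂ν, b ∈ S := by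
    filter_upwards [Measure.support_mem_ae (μ := ν)] with b hb
    rwa [← hS] at hb
  have hcl : IsClosed (S : Set Br) := hS ▸ Measure.isClosed_support
  have mem : ∀ L : StrongDual ℝ Br, ∫ b, L b • b ∂ν ∈ S ∧ ∀ L' : StrongDual ℝ Br,
      L' (∫ b, L b • b ∂ν) = ∫ b, L b * L' b ∂ν := by
    intro L
    have hi : Integrable (fun x : Br => L x • x) ν :=
      MemLp.integrable le_rfl (MemLp.smul (p := 2) (q := 2) (r := 1) IsGaussian.memLp_two_id
        (IsGaussian.memLp_dual ν L 2 (by norm_num)))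
    refine ⟨S.convex.integral_mem hcl (hae.mono fun b hb => S.smul_mem _ hb) hi, fun L' => ?_⟩
    rw [← L'.integral_comp_comm hi]
    simp
  have ht : ∀ s ∈ unitInterval, ∀ c : ℂ, rotL c (tent s) ∈ S := by
    intro s hs c
    have e : rotL c (tent s) = c.re • (∫ b, evRe ⟨s, hs⟩ b • b ∂ν) +
        c.im • (∫ b, evIm ⟨s, hs⟩ b • b ∂ν) := by
      ext t : 1
      have a1 := (mem (evRe ⟨s, hs⟩)).2 (evRe t)
      have a2 := (mem (evRe ⟨s, hs⟩)).2 (evIm t)
      have a3 := (mem (evIm ⟨s, hs⟩)).2 (evRe t)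
      have a4 := (mem (evIm ⟨s, hs⟩)).2 (evIm t)
      simp only [evRe_apply, evIm_apply] at a1 a2 a3 a4
      rw [h.cov_re] at a1
      rw [h.cov_re_im] at a2
      rw [h.cov_im] at a4
      simp only [mul_comm ((_ : Br) ⟨s, hs⟩).im, h.cov_re_im] at a3
      refine Complex.ext ?_ ?_ <;> simp [tent, a1, a2, a3, a4]
    rw [e]
    exact S.add_mem (S.smul_mem _ (mem _).1) (S.smul_mem _ (mem _).1)
  have hg : g ∈ closure (S : Set Br) := by
    refine Metric.mem_closure_iff.2 fun ε hε => ?_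
    obtain ⟨δ, hδ, hu⟩ := Metric.uniformContinuous_iff.1
      (CompactSpace.uniformContinuous_of_continuous g.continuous) (ε / 4) (by positivity)
    obtain ⟨m, hm⟩ := exists_nat_one_div_lt hδ
    set n := m + 1 with hn
    have hn0 : (0 : ℝ) < n := by positivity
    have hδn : 1 / (n : ℝ) < δ := by rwa [hn, Nat.cast_succ]
    let a : ℕ → ℂ := fun k => g (projIcc 0 1 zero_le_one (k / n))
    have hk : ∀ k : ℕ, k ≤ n → (k / n : ℝ) ∈ unitInterval := fun k hk =>
      ⟨by positivity, (div_le_one hn0).2 (by exact_mod_cast hk)⟩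
    refine ⟨∑ k ∈ Finset.range n, (rotL ((a (k + 1) - a k) * n) (tent ((k + 1 : ℕ) / n)) -
      rotL ((a (k + 1) - a k) * n) (tent (k / n))), S.sum_mem fun k hk' => S.sub_mem
        (ht _ (hk _ (Finset.mem_range.1 hk')) _) (ht _ (hk _ (Finset.mem_range.1 hk').le) _), ?_⟩
    refine (ContinuousMap.dist_lt_iff hε).2 fun t => ?_
    obtain ⟨j, hj, j1, j2⟩ : ∃ j < n, (j : ℝ) ≤ n * t ∧ n * (t : ℝ) ≤ j + 1 := by
      have t0 : 0 ≤ n * (t : ℝ) := mul_nonneg hn0.le t.2.1
      by_cases hj : ⌊n * (t : ℝ)⌋₊ < n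
      · exact ⟨_, hj, Nat.floor_le t0, (Nat.lt_floor_add_one _).le⟩
      · have := (Nat.le_floor_iff t0).1 (not_lt.1 hj)
        refine ⟨m, Nat.lt_succ_self m, ?_, ?_⟩
        · rw [hn, Nat.cast_succ] at this ⊢
          linarith
        · have := t.2.2
          rw [← Nat.cast_succ]
          nlinarith
    have e : (∑ k ∈ Finset.range n, (rotL ((a (k + 1) - a k) * n) (tent ((k + 1 : ℕ) / n)) -
        rotL ((a (k + 1) - a k) * n) (tent (k / n)))) t =
        ∑ k ∈ Finset.range n, (a (k + 1) - a k) *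
          ((min (k + 1 : ℝ) (n * t) - min (k : ℝ) (n * t) : ℝ) : ℂ) -
        (∑ k ∈ Finset.range n, (a (k + 1) - a k)) * ((t : ℝ) : ℂ) := by
      rw [Finset.sum_mul, ← Finset.sum_sub_distrib, ContinuousMap.sum_apply]
      refine Finset.sum_congr rfl fun k _ => ?_
      have q : ∀ x : ℝ, min x (n * t) = n * min (x / n) t := fun x => by
        rw [mul_min_of_nonneg _ _ hn0.le, mul_div_cancel₀ _ hn0.ne']
      have hn' : (n : ℂ) ≠ 0 := by exact_mod_cast hn0.ne'
      simp only [ContinuousMap.sub_apply, rotL_apply, tent, ContinuousMap.coe_mk, q]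
      push_cast
      field_simp
      ring
    have a0 : a 0 = 0 := by simp [a, h0]
    have an : a n = 0 := by simp [a, hn0.ne', h1]
    rw [e, ramp_sum a j1 j2 hj, Finset.sum_range_sub, a0, an]
    have near : ∀ k : ℕ, k ≤ n → |n * (t : ℝ) - k| ≤ 1 → ‖g t - a k‖ < ε / 4 := by
      intro k hkn hk1
      rw [← dist_eq_norm]
      refine hu (lt_of_le_of_lt ?_ hδn)
      rw [projIcc_of_mem _ (hk k hkn), Subtype.dist_eq, Real.dist_eq]
      change |(t : ℝ) - k / n| ≤ _
      rw [show (t : ℝ) - k / n = (n * t - k) / n by field_simp, abs_div, abs_of_pos hn0]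
      gcongr
    have b1 := near j hj.le (abs_le.2 ⟨by linarith, by linarith⟩)
    have b2 := near (j + 1) hj (abs_le.2 ⟨by push_cast; linarith, by push_cast; linarith⟩)
    have b3 : ‖(a (j + 1) - a j) * ((n * t - j : ℝ) : ℂ)‖ ≤ ε / 2 := by
      rw [norm_mul, Complex.norm_real, Real.norm_of_nonneg (by linarith)]
      have : ‖a (j + 1) - a j‖ ≤ ε / 2 := by
        have := norm_sub_le (g t - a j) (g t - a (j + 1))
        rw [sub_sub_sub_cancel_left] at this
        linarith
      nlinarith [norm_nonneg (a (j + 1) - a j)]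
    rw [dist_eq_norm, sub_zero, sub_zero, zero_mul, sub_zero, ← sub_sub]
    have := norm_sub_le (g t - a j) ((a (j + 1) - a j) * ((n * t - j : ℝ) : ℂ))
    linarith
  rw [hcl.closure_eq, hS, Measure.mem_support_iff_forall] at hg
  exact (hg _ (ball_mem_nhds g hη)).ne'

/-- The bridge starts and ends at `0`. -/
theorem IsBridge.ae_ends {ν : Measure Br} (h : IsBridge ν) : ∀ᵐ b ∂ν, b 0 = 0 ∧ b 1 = 0 := by
  have := h.gauss
  have key : ∀ L : StrongDual ℝ Br, ∫ b, L b * L b ∂ν = 0 → ∀ᵐ b ∂ν, L b = 0 := by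
    intro L hL
    filter_upwards [(integral_eq_zero_iff_of_nonneg (fun b => mul_self_nonneg (L b))
      (int_dual_mul L L)).1 hL] with b hb using mul_self_eq_zero.1 hb
  filter_upwards [key (evRe 0) (by simp [h.cov_re]), key (evIm 0) (by simp [h.cov_im]),
    key (evRe 1) (by simp [h.cov_re]), key (evIm 1) (by simp [h.cov_im])] with b a1 a2 a3 a4
  exact ⟨Complex.ext a1 a2, Complex.ext a3 a4⟩

end Pool.Agent.P.MP_d66c6d_pr
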