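import Pool.Agent.P.MP_d66c6d_pr.S.Iface
import Pool.Agent.P.MP_d66c6d_pr.F.Iface

/-! Step BADM of the carpet project. -/

namespace Pool.Agent.P.MP_d66c6d_pr

open MeasureTheory ProbabilityTheory Set Metric Filter Topology
open scoped ENNReal

namespace BadmA

theorem walk_congr {c : ℂ} {r ε : ℝ} {n : ℕ} {g g' : ℕ → ℂ} (e : ∀ i ≤ n, g i = g' i)
    (h : Walk c r ε n g) : Walk c r ε n g' :=
  ⟨e 0 (Nat.zero_le _) ▸ h.1, e n le_rfl ▸ h.2.1,
    fun i hi => e i hi.le ▸ e (i + 1) hi ▸ h.2.2.1 i hi, fun i hi => e i hi ▸ h.2.2.2 i hi⟩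

theorem meas (K M : ℕ) (c : ℂ) (r : ℝ) : MeasurableSet (badB K M c r) := by
  have h : badB K M c r = ⋃ h : Fin (K * M + 1) → ℕ,
      {_S | Walk c r (r / M) (K * M) fun i => c + r * dn (h ⟨min i (K * M), by omega⟩)} ∩
        ⋂ i ∈ {i | i ≤ K * M}, vd (inK (ball c (4 * r)) ∩
          {L | ball (c + r * dn (h ⟨min i (K * M), by omega⟩)) (r / M) ⊆ fill (L : Set ℂ)}) := by
    ext S
    simp only [mem_iUnion, mem_inter_iff, mem_iInter, mem_vd, mem_ofPred_eq, not_and]
    constructor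
    · rintro ⟨g, h1, h2⟩
      refine ⟨fun j => g j, walk_congr (fun i hi => ?_) h1, fun i hi => ?_⟩
      · simp only [min_eq_left hi]
      · simp only [min_eq_left hi]
        exact h2 i hi
    · rintro ⟨h, h1, h2⟩
      exact ⟨fun i => h ⟨min i (K * M), by omega⟩, h1, h2⟩
  rw [h]
  exact MeasurableSet.iUnion fun h => (MeasurableSet.const _).inter
    (MeasurableSet.biInter (to_countable _) fun i _ => measurableSet_vd
      ((isOpen_inK isOpen_ball).measurableSet.inter (isClosed_covK _).measurableSet))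

theorem dist_aff {r : ℝ} (hr : 0 < r) (c x y : ℂ) :
    dist (c + r * x) (c + r * y) = r * dist x y := by
  rw [dist_add_left, dist_eq_norm, dist_eq_norm, ← mul_sub, norm_mul, Complex.norm_real,
    Real.norm_of_nonneg hr.le]

theorem dist_cen {r : ℝ} (hr : 0 < r) (c x : ℂ) : dist (c + r * x) c = r * dist x 0 := by
  rw [← dist_aff hr c x 0, mul_zero, add_zero]

theorem scal (K M : ℕ) (c : ℂ) {r : ℝ} (hr : 0 < r) :
    Cfg.map (simK r c) ⁻¹' badB K M c r = badB K M 0 1 := by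
  have r0 : (r : ℂ) ≠ 0 := by exact_mod_cast hr.ne'
  have e1 : ∀ a b : ℝ, r * a ≤ b * r ↔ a ≤ b := fun a b => by
    rw [mul_comm b r, mul_le_mul_iff_right₀ hr]
  have e2 : ∀ a b : ℝ, b * r ≤ r * a ↔ b ≤ a := fun a b => by
    rw [mul_comm b r, mul_le_mul_iff_right₀ hr]
  have e3 : ∀ a : ℝ, r * a ≤ 3 * (r / M) ↔ a ≤ 3 * (1 / M) := fun a => by
    rw [← e1 a]; exact iff_of_eq (by congr 1; ring)
  have e4 : ∀ L : KC, (simK r c L : Set ℂ) ⊆ ball c (4 * r) ↔ (L : Set ℂ) ⊆ ball 0 4 := fun L => by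
    rw [coe_simK, image_subset_iff]
    refine forall₂_congr fun z _ => ?_
    rw [mem_preimage, mem_ball, mem_ball, add_comm, dist_cen hr, mul_comm 4 r,
      mul_lt_mul_iff_right₀ hr]
  have e5 : ∀ (L : KC) (x : ℂ), ball (c + r * x) (r / M) ⊆ fill (simK r c L : Set ℂ) ↔
      ball x (1 / M) ⊆ fill (L : Set ℂ) := fun L x => by
    have hs : Function.Surjective fun z : ℂ => r * z + c := fun w => ⟨(w - c) / r, by
      simp only [mul_div_cancel₀ _ r0, sub_add_cancel]⟩
    rw [subset_def, hs.forall]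
    refine forall_congr' fun z => imp_congr ?_ (fill_aff r0 c _ z)
    rw [mem_ball, mem_ball, add_comm, dist_aff hr, ← mul_one_div r, mul_lt_mul_iff_right₀ hr]
  ext S
  simp only [mem_preimage, badB, mem_ofPred_eq, Cfg.pts_map, forall_mem_image, Walk, dist_aff hr,
    dist_cen hr, e1, e2, e3, e4, e5, Complex.ofReal_one, one_mul, zero_add, mul_one]

end BadmA

open BadmA in
theorem p_BADM (hPPE : S_PPE) (hPPO : S_PPO) (hMUK : S_MUK) :
    S_BADM := by
  intro K M
  refine ⟨fun c r => ⟨meas K M c r, fun S => exists_congr fun g => and_congr_right fun _ =>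
    forall₂_congr fun i _ => ⟨fun h L hL h1 => h L ⟨hL, h1⟩ h1, fun h L hL => h L hL.1⟩⟩,
    fun ν hν α hα => ?_⟩
  obtain ⟨s1, s2, hs, -⟩ := hMUK ν hν
  refine ⟨fun c r hr => ?_, fun h0 => ?_⟩
  · have r0 : (r : ℂ) ≠ 0 := by exact_mod_cast hr.ne'
    have hm := (continuous_simK r c).measurable
    have h1 := (hPPO KC (α • muK ν) inferInstance).2.2.1 KC _ hm
    rw [Measure.map_smul, (hs r c r0).map_eq] at h1
    rw [← scal K M c hr, ← Measure.map_apply (measurable_cfgMap hm) (meas K M c r), h1]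
  have hm : Measurable fun l : Lp => trB (lp l).2 := by fun_prop
  have h1 := (hPPO Lp (α • loopMeasure ν) inferInstance).2.2.1 KC _ hm
  rw [Measure.map_smul] at h1
  have hP := (hPPE Lp).1 (α • loopMeasure ν) inferInstance
  obtain ⟨η, hη, h2⟩ := null_straight (P := PP (α • loopMeasure ν)) (N := Cfg.pts) hν h0 hα
    fun A hA hA' => le_of_eq (by
      rw [← en_ofReal ENNReal.toReal_nonneg, ENNReal.ofReal_toReal hA', ← hP.2 A hA]
      congr 1
      ext S
      exact disjoint_iff_inter_eq_empty.symm)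
  let B : ℕ → Set (Cfg KC) := fun n => ⋃ m ∈ Ici n, badB K m 0 1
  have hB : ∀ n, MeasurableSet (B n) := fun n =>
    MeasurableSet.biUnion (to_countable _) fun m _ => meas K m 0 1
  have h3 : PP (α • muK ν) (⋂ n, B n) = 0 := by
    rw [muK, ← h1, Measure.map_apply (measurable_cfgMap hm) (MeasurableSet.iInter hB)]
    refine measure_mono_null (fun S hS => straight_of_walks (K := K) ?_ hη) h2
    refine frequently_atTop.2 fun n => ?_
    obtain ⟨m, hm, g, h4, h5⟩ := mem_iUnion₂.1 (mem_iInter.1 hS n)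
    refine ⟨m, hm, _, h4, ?_⟩
    rintro i hi _ ⟨l, hl, h6, rfl⟩
    have := h5 i hi _ ⟨l, hl, rfl⟩ (by simpa [range_lp] using h6)
    rwa [coe_trB, range_lp] at this
  have h4 := tendsto_measure_iInter_atTop (μ := PP (α • muK ν)) (s := B)
    (fun n => (hB n).nullMeasurableSet)
    (fun _ _ h => biUnion_subset_biUnion_left (Ici_subset_Ici.2 h)) ⟨0, measure_ne_top _ _⟩
  rw [h3] at h4
  exact tendsto_of_tendsto_of_tendsto_of_le_of_le tendsto_const_nhds h4 (fun _ => zero_le)
    fun n => measure_mono (subset_biUnion_of_mem (u := fun m => badB K m 0 1) self_mem_Ici)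

end Pool.Agent.P.MP_d66c6d_pr
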