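import Pool.Agent.P.MP_d66c6d_pr.S.Iface

/-! Step BLOB of the carpet project. -/

namespace Pool.Agent.P.MP_d66c6d_pr

open MeasureTheory ProbabilityTheory Set Metric Filter Topology
open scoped ENNReal

namespace BlobA

open scoped Pointwise in
theorem diam_sim (a b : ℂ) (K : Set ℂ) : diam ((fun z => a * z + b) '' K) = ‖a‖ * diam K := by
  rw [← diam_smul₀, ← (Isometry.of_dist_eq fun x y => dist_add_right x y b).diam_image (a • K),
    ← image_smul, image_image]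
  rfl

theorem m1 (δ : ℝ) : MeasurableSet (bigK δ)ᶜ := (measurableSet_bigK δ).compl

theorem m2 (z : ℂ) (r : ℝ) : MeasurableSet (hitK (closedBall z r)) :=
  (isClosed_hitK isClosed_closedBall).measurableSet

theorem m3 (z : ℂ) (r : ℝ) : MeasurableSet (hitK (ball z r)ᶜ) :=
  (isClosed_hitK isOpen_ball.isClosed_compl).measurableSet

theorem scale (hJN : S_JN) {ν : Measure Br} (hν : IsBridge ν) {c : ℝ≥0∞} (hc : c ≠ ∞)
    (δ : ℝ) (z : ℂ) {r : ℝ} (hr : 0 < r) :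
    PP (c • muK ν) (Crs (δ * r) z r) = PP (c • muK ν) (Crs δ 0 1) := by
  have h := (hJN.2 ν hν c hc).2.2 r z _ _ _ (by exact_mod_cast hr.ne') (m1 (δ * r)) (m2 z r)
    (m3 z (2 * r))
  have hn : ∀ w : ℂ, dist ((r : ℂ) * w + z) z = r * dist w 0 := fun w => by
    simp [dist_eq_norm, abs_of_pos hr]
  rw [Crs, ← h, Crs]
  congr 2
  · ext K
    simp only [bigK, mem_preimage, mem_compl_iff, mem_ofPred_eq, coe_simK, diam_sim,
      Complex.norm_real, Real.norm_eq_abs, abs_of_pos hr, mul_comm δ, mul_le_mul_iff_right₀ hr]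
  · ext w
    simp only [mem_preimage, mem_closedBall, hn]
    exact mul_le_iff_le_one_right hr
  · ext w
    simp only [mem_preimage, mem_compl_iff, mem_ball, hn, mul_one, mul_comm 2 r,
      mul_lt_mul_iff_right₀ hr]

theorem cover {R r δ : ℝ} {F : Set ℂ} (hF : closedBall 0 R ⊆ ⋃ z ∈ F, ball z r) :
    {S | ¬ Tiny R (3 * r) δ S} ⊆ ⋃ z ∈ F, Crs δ z r := by
  intro S hS
  simp only [Tiny, mem_ofPred_eq, not_forall, not_subset] at hS
  obtain ⟨K, hK, x, hx, hR, y, ⟨K', hK', hy⟩, hxy⟩ := hS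
  obtain ⟨z, hz, hxz⟩ := mem_iUnion₂.1 (hF (mem_closedBall_zero_iff.2 hR))
  refine mem_iUnion₂.2 ⟨z, hz, K, hK, K', hK', ⟨x, hx, ball_subset_closedBall hxz⟩, y, hy,
    fun h => hxy ?_⟩
  rw [mem_ball] at h hxz ⊢
  linarith [dist_triangle_right y x z]

theorem Tiny.mono {R R' ρ ρ' δ : ℝ} {S : Cfg KC} (h : Tiny R ρ δ S) (h1 : R' ≤ R) (h2 : ρ ≤ ρ') :
    Tiny R' ρ' δ S := fun K hK x hx hR =>
  (h K hK x hx (hR.trans h1)).trans (ball_subset_ball h2)

end BlobA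

open BlobA in
theorem p_BLOB (hJN : S_JN) :
    S_BLOB := by
  intro ν hν c hc hs
  have mono : ∀ m : Measure KC, m ≤ c • muK ν → ∀ (δ : ℝ) (z : ℂ) (r : ℝ),
      PP m (Crs δ z r) ≤ PP (c • muK ν) (Crs δ z r) := fun m hm δ z r =>
    ((hJN.2 ν hν c hc).2.1 m _ _ _ hm (m1 δ) (m2 z r) (m3 z (2 * r))).2
  have two : ∀ R ρ : ℝ, 0 < ρ → ∀ ζ : ℝ≥0∞, ζ ≠ 0 → ∃ δ > (0 : ℝ), ∀ m : Measure KC,
      m ≤ c • muK ν → PP m {S | ¬ Tiny R ρ δ S} ≤ ζ := by
    intro R ρ hρ ζ hζ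
    have hr : 0 < ρ / 3 := by positivity
    obtain ⟨F, -, hF, hc'⟩ := finite_cover_balls_of_compact (isCompact_closedBall (0 : ℂ) R) hr
    lift F to Finset ℂ using hF
    have t := ENNReal.Tendsto.const_mul (a := (F.card : ℝ≥0∞)) hs (Or.inr (by simp))
    rw [mul_zero] at t
    obtain ⟨δ, h1, h2⟩ := ((t.eventually (Iic_mem_nhds (pos_iff_ne_zero.2 hζ))).and
      self_mem_nhdsWithin).exists
    refine ⟨δ * (ρ / 3), mul_pos h2 hr, fun m hm => ?_⟩
    have e : ρ = 3 * (ρ / 3) := by ring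
    have h3 := measure_mono (μ := PP m) (cover (δ := δ * (ρ / 3)) hc')
    rw [← e] at h3
    refine h3.trans ((measure_biUnion_finset_le F _).trans (le_trans ?_ h1))
    rw [← nsmul_eq_mul]
    exact Finset.sum_le_card_nsmul _ _ _ fun z _ =>
      (mono m hm _ z _).trans (scale hJN hν hc δ z hr).le
  refine ⟨fun c' hc' => ?_, two, fun m hm => ?_⟩
  · refine tendsto_of_tendsto_of_tendsto_of_le_of_le tendsto_const_nhds hs (fun _ => zero_le)
      fun δ => mono _ ?_ δ 0 1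
    intro A
    simp only [Measure.smul_apply, smul_eq_mul]
    gcongr
  · have h : ∀ n : ℕ, ∀ᵐ S ∂PP m, ∃ δ > (0 : ℝ), Tiny n (1 / ((n : ℝ) + 1)) δ S := by
      intro n
      rw [ae_iff, ← nonpos_iff_eq_zero]
      refine le_of_forall_gt_imp_ge_of_dense fun ζ hζ => ?_
      obtain ⟨δ, hδ, h⟩ := two n (1 / ((n : ℝ) + 1)) Nat.one_div_pos_of_nat ζ hζ.ne'
      refine le_trans (measure_mono ?_) (h m hm)
      exact fun S hS hT => hS ⟨δ, hδ, hT⟩
    filter_upwards [ae_all_iff.2 h] with S hS R ρ hρ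
    obtain ⟨n, hn⟩ := exists_nat_gt (max R (1 / ρ))
    obtain ⟨δ, hδ, hT⟩ := hS n
    refine ⟨δ, hδ, Tiny.mono hT ((le_max_left _ _).trans hn.le) ?_⟩
    rw [one_div_le (by positivity) hρ]
    linarith [le_max_right R (1 / ρ)]

end Pool.Agent.P.MP_d66c6d_pr
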