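import Pool.Agent.P.MP_d66c6d_pr.S.Iface
import Pool.Agent.P.MP_d66c6d_pr.F.Iface

/-! Step DENS of the carpet project. -/

namespace Pool.Agent.P.MP_d66c6d_pr

open MeasureTheory ProbabilityTheory Set Metric Filter Topology
open scoped ENNReal

namespace DensA

theorem mass_top {ν : Measure Br} (hν : IsBridge ν) (p : ℂ) (k0 : ℕ) :
    muK ν (⋃ k : ℕ, surK p ((1 / 5 : ℝ) ^ (k + k0))) = ∞ := by
  have hd : Pairwise (Function.onFun Disjoint fun k : ℕ => surK p ((1 / 5 : ℝ) ^ (k + k0))) := by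
    refine (pairwise_disjoint_on _).2 fun m n hmn => ?_
    refine surK_disj (by positivity) ?_
    have h1 : (1 / 5 : ℝ) ^ (n + k0) ≤ (1 / 5) ^ (m + k0 + 1) :=
      pow_le_pow_of_le_one (by norm_num) (by norm_num) (by omega)
    have h2 : (0 : ℝ) < (1 / 5) ^ (m + k0) := by positivity
    rw [pow_succ] at h1
    linarith
  rw [measure_iUnion hd fun k => measurableSet_surK _ _]
  simp_rw [muK_surK]
  rw [tsum_congr fun k => hν.mass_sur p (by positivity)]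
  exact ENNReal.tsum_const_eq_top_of_ne_zero hν.sur_ne_zero

theorem joined (hJN : S_JN) (hZO : S_ZO) (hLOCJ : S_LOCJ) {ν : Measure Br} (hν : IsBridge ν)
    {c : ℝ≥0∞} (hc : c ≠ ∞) (hs : ¬ SubC ν c) {p q : ℂ} (hpq : p ≠ q) {s : ℝ} (hs0 : 0 < s) :
    ∀ᵐ S ∂PP (c • muK ν), S ∈ Jn (inK (ball p (4 * dist p q))) (ball p s) (ball q s) := by
  obtain ⟨x, y, hx, hy, H⟩ := hLOCJ ν c hs
  have hyx : 1 ≤ ‖y - x‖ := by linarith [norm_sub_norm_le y x]
  have hyx' : y - x ≠ 0 := fun e => by rw [e, norm_zero] at hyx; linarith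
  have hd : 0 < dist p q := dist_pos.2 hpq
  set a : ℂ := (q - p) / (y - x) with ha
  have ha0 : a ≠ 0 := div_ne_zero (sub_ne_zero.2 hpq.symm) hyx'
  have han : 0 < ‖a‖ := norm_pos_iff.2 ha0
  have had : ‖a‖ ≤ dist p q := by
    rw [ha, norm_div, dist_comm, dist_eq_norm]
    exact div_le_self (norm_nonneg _) hyx
  have e1 : ∀ z, dist (a * z + (p - a * x)) p = ‖a‖ * dist z x := fun z => by
    rw [dist_eq_norm, dist_eq_norm, ← norm_mul]
    congr 1
    ring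
  have e2 : ∀ z, dist (a * z + (p - a * x)) q = ‖a‖ * dist z y := fun z => by
    rw [dist_eq_norm, dist_eq_norm, ← norm_mul]
    congr 1
    have : a * (y - x) = q - p := by rw [ha]; field_simp
    linear_combination this
  have mA : ∀ (z : ℂ) (r : ℝ), MeasurableSet (inK (ball z r)) := fun z r =>
    (isOpen_inK isOpen_ball).measurableSet
  have mB : ∀ (z : ℂ) (r : ℝ), MeasurableSet (hitK (ball z r)) := fun z r =>
    (isOpen_hitK isOpen_ball).measurableSet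
  obtain ⟨κ, hκ, Hκ⟩ := H (s / ‖a‖) (by positivity)
  have h1 := hZO ν hν c hc _ _ _ (mA 0 3) (mB x _) (mB y _) κ hκ Hκ 1 one_pos
  obtain ⟨-, j2, j3⟩ := hJN.2 ν hν c hc
  refine (mem_ae_iff_prob_eq_one₀
    (j2 _ _ _ _ le_rfl (mA p (4 * dist p q)) (mB p s) (mB q s)).1).2 ?_
  rw [← j3 a (p - a * x) _ _ _ ha0 (mA _ _) (mB _ _) (mB _ _),
    ← measure_univ (μ := PP (c • muK ν))]
  refine measure_congr (eventuallyEq_univ.2 (h1.mono fun S hS => Jn.mono ?_ ?_ ?_ hS))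
  · rintro K ⟨hK, -⟩ _ ⟨z, hz, rfl⟩
    have h3 : ‖z‖ < 3 := mem_ball_zero_iff.1 (hK hz)
    have h4 : dist z x < 4 := by
      rw [dist_eq_norm]
      linarith [norm_sub_le z x]
    rw [mem_ball, e1]
    have := mul_le_mul_of_nonneg_right had (dist_nonneg (x := z) (y := x))
    nlinarith
  · intro z hz
    rw [mem_preimage, mem_ball, e1, mul_comm]
    exact (lt_div_iff₀ han).1 hz
  · intro z hz
    rw [mem_preimage, mem_ball, e2, mul_comm]
    exact (lt_div_iff₀ han).1 hz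

end DensA

open DensA in
theorem p_DENS (hJN : S_JN) (hZO : S_ZO) (hLOCJ : S_LOCJ) (hPPO : S_PPO) (hMUK : S_MUK) :
    S_DENS := by
  intro ν hν c hc hs
  have hσ : SigmaFinite (c • muK ν) := ((hJN.2 ν hν c hc).1 _ le_rfl).1
  obtain ⟨-, -, -, -, -, o6, o7, o8⟩ := hPPO KC (c • muK ν) inferInstance
  have hc0 : c ≠ 0 := by
    rintro rfl
    refine hs (tendsto_const_nhds.congr fun δ => (le_antisymm ?_ zero_le).symm)
    refine le_trans (measure_mono ?_) ((o8 univ MeasurableSet.univ).trans (by simp))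
    rintro S ⟨_, ⟨L, hL, rfl⟩, -⟩
    exact ⟨L, hL.1, trivial⟩
  have a0 := o6 (fun K => IsPreconnected (K : Set ℂ)) (Measure.ae_smul_measure
    ((hMUK ν hν).2.2.2.2.2.2.1 _ (.of_forall fun l => isPreconnected_range (lp l).2.continuous)) c)
  have a1 : ∀ᵐ S ∂PP (c • muK ν), ∀ i k0 : ℕ, ∃ K ∈ S.pts,
      K ∈ ⋃ k : ℕ, surK (dn i) ((1 / 5 : ℝ) ^ (k + k0)) := by
    refine ae_all_iff.2 fun i => ae_all_iff.2 fun k0 =>
      o7 _ (MeasurableSet.iUnion fun k => measurableSet_surK _ _) ?_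
    rw [Measure.smul_apply, mass_top hν, smul_eq_mul, ENNReal.mul_top hc0]
  have a2 : ∀ᵐ S ∂PP (c • muK ν), ∀ i j n : ℕ, dn i ≠ dn j →
      S ∈ Jn (inK (ball (dn i) (4 * dist (dn i) (dn j)))) (ball (dn i) (1 / ((n : ℝ) + 1)))
        (ball (dn j) (1 / ((n : ℝ) + 1))) := by
    refine ae_all_iff.2 fun i => ae_all_iff.2 fun j => ae_all_iff.2 fun n => ?_
    by_cases h : dn i = dn j
    · exact .of_forall fun S h' => absurd h h'
    · exact (joined hJN hZO hLOCJ hν hc hs h Nat.one_div_pos_of_nat).mono fun S hS _ => hS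
  filter_upwards [a0, a1, a2] with S h0 h1 h2 U hU hUc hne
  refine dense_cluster ?_ denseRange_dn hU hUc hne ?_ ?_
  · rintro _ ⟨K, hK, rfl⟩
    exact h0 K hK
  · rintro _ ⟨i, rfl⟩ r hr
    obtain ⟨k0, hk0⟩ := exists_pow_lt_of_lt_one (by positivity : 0 < r / 4)
      (by norm_num : (1 / 5 : ℝ) < 1)
    obtain ⟨K, hK, hKU⟩ := h1 i k0
    obtain ⟨k, hk⟩ := mem_iUnion.1 hKU
    refine ⟨K, ⟨K, hK, rfl⟩, _, by positivity, hk.1, Subset.trans hk.2 (ball_subset_ball ?_)⟩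
    have : (1 / 5 : ℝ) ^ (k + k0) ≤ (1 / 5) ^ k0 :=
      pow_le_pow_of_le_one (by norm_num) (by norm_num) (by omega)
    linarith
  · rintro _ ⟨i, rfl⟩ _ ⟨j, rfl⟩ hij s hs0
    obtain ⟨n, hn⟩ := exists_nat_one_div_lt hs0
    refine Joins.mono (h2 i j n hij) ?_ (ball_subset_ball hn.le) (ball_subset_ball hn.le)
    rintro _ ⟨K, hK, rfl⟩
    exact ⟨⟨K, hK.1, rfl⟩, hK.2⟩

end Pool.Agent.P.MP_d66c6d_pr
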