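import Pool.Agent.P.MP_d66c6d_pr.S.Iface

/-! Step GAIN of the carpet project. -/

namespace Pool.Agent.P.MP_d66c6d_pr

open MeasureTheory ProbabilityTheory Set Metric Filter Topology
open scoped ENNReal

theorem p_GAIN (hCELLS : S_CELLS) :
    S_GAIN := by
  intro X z ρ ε M v bad hε hρ hM hv h1 h2 Γ hX hΓ
  obtain ⟨hfin, -, -, -, h5, h6⟩ := hCELLS ε Γ hε hΓ.1 hΓ.2.1
  have hnb : ∀ c : ℂ, ¬ Γ ⊆ ball c (2 * ε) := fun c h => by
    obtain ⟨x, hx, y, hy, hxy⟩ := hΓ.2.2.2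
    have a := mem_ball.1 (h hx)
    have b := mem_ball.1 (h hy)
    linarith [dist_triangle_right x y c]
  have hG : {c | c ∈ cells ε Γ ∧ ¬ bad c}.Finite := hfin.subset fun _ h => h.1
  have h7 := h6 _ (thickening (ε / M) Γ) (ENNReal.ofReal (v * ε ^ 2)) hG
    isOpen_thickening.measurableSet fun c hc => h2 c hc.2 Γ hX hΓ hc.1 (hnb _)
  have h8 : (cells ε Γ).ncard ≤
      {c | c ∈ cells ε Γ ∧ bad c}.ncard + {c | c ∈ cells ε Γ ∧ ¬ bad c}.ncard := by
    refine le_trans (ncard_le_ncard (fun c hc => ?_)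
      ((hfin.subset fun _ h => h.1).union hG)) (ncard_union_le _ _)
    by_cases h : bad c
    · exact Or.inl ⟨hc, h⟩
    · exact Or.inr ⟨hc, h⟩
  have h9 : (cells ε Γ).ncard ≤ 2 * {c | c ∈ cells ε Γ ∧ ¬ bad c}.ncard := by
    have := h1 Γ hΓ
    omega
  have h10 : ((cells ε Γ).ncard : ℝ≥0∞) ≤ 2 * ({c | c ∈ cells ε Γ ∧ ¬ bad c}.ncard : ℝ≥0∞) := by
    exact_mod_cast h9
  have e : 100 * (ENNReal.ofReal (v / 1600) * ENNReal.ofReal (16 * ε ^ 2)) =
      ENNReal.ofReal (v * ε ^ 2) := by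
    rw [← ENNReal.ofReal_mul (by positivity), ← ENNReal.ofReal_ofNat 100,
      ← ENNReal.ofReal_mul (by positivity)]
    congr 1
    ring
  refine (ENNReal.mul_le_mul_iff_right (a := 50) (by norm_num) (by norm_num)).1 ?_
  calc 50 * (ENNReal.ofReal (v / 1600) * volume (thickening ε Γ))
      ≤ 50 * (ENNReal.ofReal (v / 1600) * (ENNReal.ofReal (16 * ε ^ 2) *
        (2 * ({c | c ∈ cells ε Γ ∧ ¬ bad c}.ncard : ℝ≥0∞)))) := by
        gcongr
        exact h5.trans (by gcongr)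
    _ = ({c | c ∈ cells ε Γ ∧ ¬ bad c}.ncard : ℝ≥0∞) * ENNReal.ofReal (v * ε ^ 2) := by
        rw [← e]
        ring
    _ ≤ 49 * volume (thickening (ε / M) Γ) := h7
    _ ≤ 50 * volume (thickening (ε / M) Γ) := by gcongr; norm_num

end Pool.Agent.P.MP_d66c6d_pr
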