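import Pool.Agent.P.MP_d66c6d_pr.S.Iface
import Pool.Agent.P.MP_d66c6d_pr.F.Iface

/-! Step JN of the carpet project. -/

namespace Pool.Agent.P.MP_d66c6d_pr

open MeasureTheory ProbabilityTheory Set Metric Filter Topology
open scoped ENNReal

namespace JnA

theorem jn_iff {A : Set KC} {B C : Set ℂ} {S : Cfg KC} : S ∈ Jn A B C ↔
    ∃ x ∈ S.pts, x ∈ rch (fun u v : KC => u ∈ A ∧ ((u : Set ℂ) ∩ (v : Set ℂ)).Nonempty)
      (hitK B) S ∧ x ∈ A ∩ hitK C := by
  constructor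
  · rintro ⟨_, ⟨y, hy, rfl⟩, K', h, hB, hC⟩
    have key : ∃ x ∈ S.pts ∩ A, (x : Set ℂ) = K' ∧ Relation.ReflTransGen
        (fun u v : KC => u ∈ S.pts ∧ u ∈ A ∧ ((u : Set ℂ) ∩ (v : Set ℂ)).Nonempty) y x := by
      clear hC
      induction h with
      | refl => exact ⟨y, hy, rfl, .refl⟩
      | tail _ h2 ih =>
        obtain ⟨x, hx, rfl, hc⟩ := ih
        obtain ⟨⟨w, hw, rfl⟩, h3⟩ := h2
        exact ⟨w, hw, rfl, hc.tail ⟨hx.1, hx.2, h3⟩⟩
    obtain ⟨x, hx, rfl, hc⟩ := key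
    exact ⟨x, hx.1, ⟨y, hB, hc⟩, hx.2, hC⟩
  · rintro ⟨x, hx, ⟨y, hB, hc⟩, hA, hC⟩
    have key : (y : Set ℂ) ∈ sets (S.res A) ∧ Lk (sets (S.res A)) y x := by
      clear hB
      induction hc using Relation.ReflTransGen.head_induction_on with
      | refl => exact ⟨⟨x, ⟨hx, hA⟩, rfl⟩, .refl⟩
      | head h1 _ ih => exact ⟨⟨_, ⟨h1.1, h1.2.1⟩, rfl⟩, ih.2.head ⟨ih.1, h1.2.2⟩⟩
    exact ⟨y, key.1, x, key.2, hB, hC⟩

theorem joins_image {f : ℂ → ℂ} (hf : Function.Injective f) {T : Set (Set ℂ)} {B C : Set ℂ} :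
    Joins (image f '' T) B C ↔ Joins T (f ⁻¹' B) (f ⁻¹' C) := by
  constructor
  · rintro ⟨_, ⟨K, hK, rfl⟩, K', h, ⟨_, ⟨z, hz, rfl⟩, hB⟩, w, hw, hC⟩
    obtain ⟨L, -, rfl⟩ := Lk.mem (mem_image_of_mem _ hK) h
    obtain ⟨u, hu, rfl⟩ := hw
    have h' : Lk T (f ⁻¹' (f '' K)) (f ⁻¹' (f '' L)) := by
      refine Relation.ReflTransGen.lift (preimage f) ?_ _ _ h
      rintro X _ ⟨⟨Y, hY, rfl⟩, _, h1, v, hv, rfl⟩
      exact ⟨(preimage_image_eq Y hf).symm ▸ hY, v, h1, v, hv, rfl⟩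
    rw [preimage_image_eq _ hf, preimage_image_eq _ hf] at h'
    exact ⟨K, hK, L, h', ⟨z, hz, hB⟩, u, hu, hC⟩
  · rintro ⟨K, hK, K', h, ⟨z, hz, hB⟩, w, hw, hC⟩
    refine ⟨f '' K, ⟨K, hK, rfl⟩, f '' K', ?_, ⟨f z, ⟨z, hz, rfl⟩, hB⟩, f w, ⟨w, hw, rfl⟩, hC⟩
    refine Relation.ReflTransGen.lift (image f) ?_ _ _ h
    rintro X Y ⟨hY, v, h1, h2⟩
    exact ⟨⟨Y, hY, rfl⟩, f v, ⟨v, h1, rfl⟩, v, h2, rfl⟩

theorem pre_jn {a : ℂ} (ha : a ≠ 0) (b : ℂ) (A : Set KC) (B C : Set ℂ) :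
    Jn (simK a b ⁻¹' A) ((fun z => a * z + b) ⁻¹' B) ((fun z => a * z + b) ⁻¹' C) =
      Cfg.map (simK a b) ⁻¹' Jn A B C := by
  ext S
  have hf : Function.Injective fun z : ℂ => a * z + b := fun z w h =>
    mul_left_cancel₀ ha (add_right_cancel h)
  have e : sets ((S.map (simK a b)).res A) =
      image (fun z : ℂ => a * z + b) '' sets (S.res (simK a b ⁻¹' A)) := by
    simp only [sets, Cfg.pts_res, Cfg.pts_map, ← image_inter_preimage, image_image, coe_simK]
  simp only [Jn, mem_preimage, mem_ofPred_eq, e, joins_image hf]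

theorem meas (hJOINT : S_JOINT) (hRCH : S_RCH) {A : Set KC} {B C : Set ℂ} (hA : MeasurableSet A)
    (hB : MeasurableSet (hitK B)) (hC : MeasurableSet (hitK C)) :
    MeasurableSet {S | LF stdA S ∧ S ∈ Jn A B C} := by
  have h1 := hRCH KC stdA measurableSet_stdA Unit
    (fun _ u v => u ∈ A ∧ ((u : Set ℂ) ∩ (v : Set ℂ)).Nonempty) (fun _ => hitK B)
    (((measurable_fst.comp measurable_snd) hA).inter
      (measurable_snd isClosed_meetK.measurableSet)) (measurable_snd hB)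
  have h2 := ((hJOINT KC).2.2.1 stdA measurableSet_stdA Unit _
    (h1.inter ((measurable_snd.comp measurable_snd) (hA.inter hC)))).1
  refine ((measurable_const.prodMk measurable_id : Measurable fun S : Cfg KC => ((), S))
    h2).congr ?_
  ext S
  simp only [mem_preimage, mem_ofPred_eq, mem_inter_iff, jn_iff, Function.comp_apply]
  exact and_congr_right fun h => by simp only [h, true_and]

theorem compl_ex {E : Type} [MeasurableSpace E] {m M : Measure E} [SigmaFinite M] (h : m ≤ M) :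
    ∃ m' : Measure E, SigmaFinite m' ∧ m + m' = M := by
  have := Measure.sigmaFinite_of_le M h
  have e : m + M.withDensity (1 - m.rnDeriv M) = M := by
    nth_rewrite 1 [← Measure.withDensity_rnDeriv_eq m M (Measure.absolutelyContinuous_of_le h)]
    rw [← withDensity_add_left (Measure.measurable_rnDeriv m M)]
    nth_rewrite 4 [← withDensity_one (μ := M)]
    refine withDensity_congr_ae ?_
    filter_upwards [Measure.rnDeriv_le_one_of_le h] with x hx
    exact add_tsub_cancel_of_le hx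
  exact ⟨_, Measure.sigmaFinite_of_le M ((Measure.le_add_left le_rfl).trans e.le), e⟩

end JnA

open JnA in
theorem p_JN (hJOINT : S_JOINT) (hRCH : S_RCH) (hPPO : S_PPO) (hMUK : S_MUK) :
    S_JN := by
  refine ⟨fun A B C hA hB hC => meas hJOINT hRCH hA hB hC, fun ν hν c hc => ?_⟩
  obtain ⟨-, hσ, hinv, ⟨D, -, hD⟩, h0, -⟩ := hMUK ν hν
  have hM : SigmaFinite (c • muK ν) := by
    lift c to NNReal using hc
    exact inferInstanceAs (SigmaFinite (c • muK ν))
  have h1 : ∀ m : Measure KC, m ≤ c • muK ν → SigmaFinite m ∧ (∀ᵐ S ∂PP m, LF stdA S) ∧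
      ∃ m' : Measure KC, SigmaFinite m' ∧ m + m' = c • muK ν := by
    intro m hm
    have := Measure.sigmaFinite_of_le _ hm
    refine ⟨this, (hJOINT KC).2.1 m inferInstance stdA measurableSet_stdA (fun j => ?_) ?_,
      compl_ex hm⟩
    · refine ne_top_of_le_ne_top ?_ (Measure.le_iff'.1 hm _)
      rw [Measure.smul_apply, smul_eq_mul]
      exact ENNReal.mul_ne_top hc (ne_top_of_le_ne_top ENNReal.ofReal_ne_top
        (hD 0 _ _ (by positivity) (by positivity)))
    · refine le_zero_iff.1 ((Measure.le_iff'.1 hm _).trans ?_)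
      rw [Measure.smul_apply, h0, smul_zero]
  have h2 : ∀ (m : Measure KC) (A : Set KC) (B C : Set ℂ), m ≤ c • muK ν → MeasurableSet A →
      MeasurableSet (hitK B) → MeasurableSet (hitK C) → NullMeasurableSet (Jn A B C) (PP m) := by
    intro m A B C hm hA hB hC
    refine (meas hJOINT hRCH hA hB hC).nullMeasurableSet.congr ?_
    filter_upwards [(h1 m hm).2.1] with S hS
    exact propext (and_iff_right hS)
  refine ⟨h1, fun m A B C hm hA hB hC => ⟨h2 m A B C hm hA hB hC, ?_⟩,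
    fun a b A B C ha hA hB hC => ?_⟩
  · obtain ⟨hs, -, m', hs', e⟩ := h1 m hm
    rw [← e, ← (hPPO KC m inferInstance).1 m' inferInstance]
    refine le_trans ?_ (Measure.le_map_apply (by fun_prop) _)
    calc PP m (Jn A B C) = ((PP m).prod (PP m')) (Jn A B C ×ˢ univ) := by
          rw [Measure.prod_prod, measure_univ, mul_one]
      _ ≤ _ := measure_mono fun p hp => Jn.of_subset subset_union_left hp.1
  · have hg := (continuous_simK a b).measurable
    have hp : MeasurePreserving (Cfg.map (simK a b)) (PP (c • muK ν)) (PP (c • muK ν)) := by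
      refine ⟨measurable_cfgMap hg, ?_⟩
      rw [(hPPO KC _ inferInstance).2.2.1 KC _ hg, Measure.map_smul, (hinv a b ha).map_eq]
    rw [pre_jn ha, hp.measure_preimage (h2 _ A B C le_rfl hA hB hC)]

end Pool.Agent.P.MP_d66c6d_pr
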