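import Pool.Agent.P.MP_d66c6d_pr.S.Surr

/-! Short walks at arbitrarily small scales give a point where a closed set looks like a segment. -/

namespace Pool.Agent.P.MP_d66c6d_pr

open MeasureTheory Set Metric Filter Topology

/-- A walk with `n` steps of length at most `3 ε` across an annulus of size `r` around `c`. -/
def Walk (c : ℂ) (r ε : ℝ) (n : ℕ) (g : ℕ → ℂ) : Prop :=
  dist (g 0) c ≤ 5 / 4 * r ∧ 7 / 4 * r ≤ dist (g n) c ∧
    (∀ i < n, dist (g i) (g (i + 1)) ≤ 3 * ε) ∧ ∀ i ≤ n, dist (g i) c ≤ 3 * r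

/-- At all small scales `r`, the set `Y` is `η r`-close to every point of a segment of length `r`
that starts at a fixed point. -/
def Straight (Y : Set ℂ) (η : ℝ) : Prop :=
  ∃ z e : ℂ, ‖z‖ ≤ 3 ∧ ‖e‖ = 1 ∧ ∃ r0 > (0 : ℝ), ∀ r, 0 < r → r ≤ r0 → ∀ u ∈ Icc 0 r,
    ∃ y ∈ Y, dist y (z + u * e) ≤ η * r

theorem walk_dist {ε : ℝ} {n : ℕ} {g : ℕ → ℂ} (h : ∀ i < n, dist (g i) (g (i + 1)) ≤ ε)
    {i j : ℕ} (hij : i ≤ j) (hj : j ≤ n) : dist (g i) (g j) ≤ ε * (j - i : ℝ) := by
  induction j, hij using Nat.le_induction with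
  | base => simp
  | succ j _ ih =>
    have := dist_triangle (g i) (g j) (g (j + 1))
    have h1 := ih (by omega)
    have h2 := h j hj
    push_cast
    linarith

theorem straight_of_lip {Y : Set ℂ} {f : ℝ → ℂ} {C : NNReal} (hf : LipschitzWith C f)
    (h01 : f 0 ≠ f 1) (hY : ∀ t, f t ∈ Y) (h3 : ∀ t, ‖f t‖ ≤ 3) {η : ℝ} (hη : 0 < η) :
    Straight Y η := by
  obtain ⟨t, ht, hv⟩ : ∃ t, DifferentiableAt ℝ f t ∧ deriv f t ≠ 0 := by
    by_contra hn
    push Not at hn
    obtain ⟨c, hc⟩ := (hf.lipschitzOnWith (s := uIcc 0 1)).absolutelyContinuousOnInterval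
      |>.const_of_ae_hasDerivAt_zero (by
        filter_upwards [hf.ae_differentiableAt_real] with x hx _
        exact hn x hx ▸ hx.hasDerivAt)
    exact h01 ((hc 0 left_mem_uIcc).trans (hc 1 right_mem_uIcc).symm)
  set v := deriv f t
  have hn : 0 < ‖v‖ := norm_pos_iff.2 hv
  have h1 := (hasDerivAt_iff_isLittleO_nhds_zero.1 ht.hasDerivAt).def (c := η * ‖v‖)
    (by positivity)
  obtain ⟨δ, hδ, h2⟩ := Metric.eventually_nhds_iff.1 h1
  refine ⟨f t, v / ‖v‖, h3 t, by simp [hn.ne'], δ * ‖v‖ / 2, by positivity,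
    fun r hr hr0 u hu => ⟨f (t + u / ‖v‖), hY _, ?_⟩⟩
  have hu0 : 0 ≤ u / ‖v‖ := div_nonneg hu.1 hn.le
  have := h2 (y := u / ‖v‖) (by
    rw [dist_zero_right, Real.norm_of_nonneg hu0, div_lt_iff₀ hn]
    nlinarith [hu.2, mul_pos hδ hn])
  rw [Real.norm_of_nonneg hu0, mul_assoc, mul_div_cancel₀ _ hn.ne'] at this
  rw [dist_eq_norm, ← sub_sub]
  refine le_trans (le_of_eq ?_) (this.trans (mul_le_mul_of_nonneg_left hu.2 hη.le))
  congr 2
  rw [Complex.real_smul]
  push_cast
  ring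

theorem straight_of_walks {O : Set (Set ℂ)} {K : ℕ}
    (h : ∃ᶠ M : ℕ in atTop, ∃ g, Walk 0 1 (1 / M) (K * M) g ∧
      ∀ i ≤ K * M, ∀ F ∈ O, ¬ ball (g i) (1 / M) ⊆ F) {η : ℝ} (hη : 0 < η) :
    Straight {y | ∀ F ∈ O, y ∉ interior F} η := by
  obtain ⟨φ, hφ, h⟩ := extraction_of_frequently_atTop (h.and_eventually (eventually_gt_atTop 0))
  choose g hg hO using fun k => (h k).1
  have hpos : ∀ k, (0 : ℝ) < φ k := fun k => by exact_mod_cast (h k).2
  let ix : ℕ → ℝ → ℕ := fun k t => min (K * φ k) ⌊t * (K * φ k : ℕ)⌋₊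
  have hix : ∀ k t, ix k t ≤ K * φ k := fun k t => min_le_left _ _
  have hlim : ∀ t, ∃ z ∈ closedBall (0 : ℂ) 3,
      Tendsto (fun k => g k (ix k t)) (hyperfilter ℕ) (𝓝 z) := fun t =>
    (isCompact_closedBall (0 : ℂ) 3).ultrafilter_le_nhds ((hyperfilter ℕ).map fun k => g k (ix k t))
      (le_principal_iff.2 (mem_map.2 (univ_mem' fun k => by
        simpa using (hg k).2.2.2 _ (hix k t))))
  choose f hf3 hf using hlim
  have h0 : Tendsto (fun k => 1 / (φ k : ℝ)) (hyperfilter ℕ) (𝓝 0) :=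
    (tendsto_one_div_atTop_nhds_zero_nat.comp hφ.tendsto_atTop).mono_left Nat.hyperfilter_le_atTop
  have hK : 0 < K := by
    refine Nat.pos_of_ne_zero fun h0 => ?_
    have h1 := (hg 0).1
    have h2 := (hg 0).2.1
    rw [h0, zero_mul] at h2
    linarith
  have hd : ∀ s t, s ≤ t → dist (f s) (f t) ≤ 3 * K * (t - s) := by
    intro s t hst
    have := (h0.const_mul 3).const_add (3 * K * (t - s))
    rw [mul_zero, add_zero] at this
    refine le_of_tendsto_of_tendsto' ((hf s).dist (hf t)) this fun k => ?_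
    set n := K * φ k with hn
    have hm : s * n ≤ t * n := mul_le_mul_of_nonneg_right hst (Nat.cast_nonneg _)
    have hle : ix k s ≤ ix k t := min_le_min_left _ (Nat.floor_mono hm)
    refine (walk_dist (hg k).2.2.1 hle (hix k t)).trans ?_
    have h1 : (ix k t : ℝ) - ix k s ≤ (t - s) * n + 1 := by
      have hp : 0 ≤ (t - s) * n := by linarith
      simp only [ix, ← hn]
      rcases le_total n ⌊s * n⌋₊ with h2 | h2
      · rw [min_eq_left h2, min_eq_left (h2.trans (Nat.floor_mono hm))]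
        linarith
      · rw [min_eq_right h2]
        have h3 : ((min n ⌊t * n⌋₊ : ℕ) : ℝ) ≤ ⌊t * n⌋₊ := by exact_mod_cast min_le_right _ _
        have h4 := Nat.lt_floor_add_one (s * n)
        rcases le_total 0 (t * n) with h5 | h5
        · linarith [Nat.floor_le h5]
        · rw [Nat.floor_of_nonpos h5] at h3 ⊢
          have : (0 : ℝ) ≤ ⌊s * n⌋₊ := Nat.cast_nonneg _
          simp only [Nat.cast_zero] at h3
          linarith
    have h2 : 3 * (1 / (φ k : ℝ)) * ((t - s) * n + 1) = 3 * K * (t - s) + 3 * (1 / φ k) := by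
      have := (hpos k).ne'
      rw [hn]
      push_cast
      field_simp
    rw [← h2]
    have := hpos k
    gcongr
  have hlip : LipschitzWith (3 * K) f := LipschitzWith.of_dist_le_mul fun s t => by
    rcases le_total s t with hst | hst
    · rw [Real.dist_eq, abs_sub_comm, abs_of_nonneg (by linarith)]
      exact_mod_cast hd s t hst
    · rw [dist_comm, Real.dist_eq, abs_of_nonneg (by linarith)]
      exact_mod_cast hd t s hst
  refine straight_of_lip hlip (fun h01 => ?_) (fun t => ?_) (fun t => by simpa using hf3 t) hη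
  · have a0 : dist (f 0) 0 ≤ 5 / 4 * 1 := le_of_tendsto' ((hf 0).dist tendsto_const_nhds) fun k => by
      simpa [ix] using (hg k).1
    have a1 : 7 / 4 * 1 ≤ dist (f 1) 0 := ge_of_tendsto' ((hf 1).dist tendsto_const_nhds) fun k => by
      have : ix k 1 = K * φ k := by simp only [ix, one_mul, Nat.floor_natCast, min_self]
      rw [this]
      exact (hg k).2.1
    rw [h01] at a0
    linarith
  · intro F hF ht
    obtain ⟨δ, hδ, hb⟩ := Metric.isOpen_iff.1 isOpen_interior _ ht
    obtain ⟨k, k1, k2⟩ := ((hf t).eventually (ball_mem_nhds _ (half_pos hδ)) |>.and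
      (h0.eventually (gt_mem_nhds (half_pos hδ)))).exists
    refine hO k _ (hix k t) F hF ((ball_subset_ball' ?_).trans (hb.trans interior_subset))
    have : dist (g k (ix k t)) (f t) < δ / 2 := k1
    linarith

end Pool.Agent.P.MP_d66c6d_pr
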