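import Pool.Agent.P.MP_d66c6d_pr.S.Iface

/-! Step LOCJ of the carpet project. -/

namespace Pool.Agent.P.MP_d66c6d_pr

open MeasureTheory ProbabilityTheory Set Metric Filter Topology
open scoped ENNReal

namespace LocjA

theorem small_mono {δ δ' : ℝ} (h : δ ≤ δ') : (bigK δ)ᶜ ⊆ (bigK δ')ᶜ :=
  compl_subset_compl.2 fun _ hK => h.trans hK

theorem lower (P : Measure (Cfg KC))
    (h : ¬ Tendsto (fun δ => P (Crs δ 0 1)) (𝓝[>] 0) (𝓝 0)) :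
    ∃ p : ℝ≥0∞, p ≠ 0 ∧ ∀ δ > (0 : ℝ), p ≤ P (Crs δ 0 1) := by
  by_contra hn
  refine h (ENNReal.tendsto_nhds_zero.2 fun ε hε => ?_)
  by_contra hm
  refine hn ⟨ε, hε.ne', fun δ hδ => ?_⟩
  by_contra hl
  refine hm (mem_of_superset (Ioo_mem_nhdsGT hδ) fun δ' hδ' => ?_)
  exact (measure_mono (Jn.mono (small_mono hδ'.2.le) Subset.rfl Subset.rfl)).trans
    (not_le.1 hl).le

/-- A chain of small loops joins the two points of a pair in `W`. -/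
def Ev (δ : ℝ) (W : Set (ℂ × ℂ)) : Set (Cfg KC) :=
  {S | ∃ z ∈ W, S ∈ Jn (inK (ball 0 3) ∩ (bigK δ)ᶜ) {z.1} {z.2}}

theorem Ev.mono {δ δ' : ℝ} {W W' : Set (ℂ × ℂ)} (h : δ ≤ δ') (hW : W ⊆ W') :
    Ev δ W ⊆ Ev δ' W' := fun _ ⟨z, hz, hS⟩ =>
  ⟨z, hW hz, Jn.mono (inter_subset_inter_right _ (small_mono h)) Subset.rfl Subset.rfl hS⟩

theorem crs_sub {δ : ℝ} (hδ : δ ≤ 1) :
    Crs δ 0 1 ⊆ Ev δ (closedBall 0 1 ×ˢ (closedBall 0 3 \ ball 0 2)) := fun S hS => by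
  have h := Joins.localize (δ := δ) (by
    rintro _ ⟨K, hK, rfl⟩ x hx y hy
    exact dist_lt_of_not_bigK hK.2 hx hy) (closedBall_subset_ball (by norm_num)) hS
  obtain ⟨K, hK, K', hL, ⟨x, x1, x2⟩, y, y1, y2⟩ := h
  have hb : ball (0 : ℂ) (2 * 1 + δ) ⊆ ball 0 3 := ball_subset_ball (by linarith)
  refine ⟨(x, y), ⟨x2, ball_subset_closedBall (hb ((hL.mem hK).2 y1)), by simpa using y2⟩, ?_⟩
  refine Joins.mono (T := {K ∈ sets (S.res (bigK δ)ᶜ) | K ⊆ ball 0 (2 * 1 + δ)}) (A := {x})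
    (B := {y}) ⟨K, hK, K', hL, ⟨x, x1, rfl⟩, y, y1, rfl⟩ ?_ Subset.rfl Subset.rfl
  rintro _ ⟨⟨L, hL, rfl⟩, h2⟩
  exact ⟨L, ⟨hL.1, h2.trans hb, hL.2⟩, rfl⟩

end LocjA

open LocjA in
theorem p_LOCJ :
    S_LOCJ := by
  intro ν c h
  obtain ⟨p, hp, hl⟩ := lower _ h
  by_contra hn
  push Not at hn
  have hZ : IsCompact (closedBall (0 : ℂ) 1 ×ˢ (closedBall (0 : ℂ) 3 \ ball 0 2)) :=
    (isCompact_closedBall _ _).prod ((isCompact_closedBall _ _).diff isOpen_ball)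
  have key : ∀ q : ℝ≥0∞, q ≠ 0 → ∃ δ > (0 : ℝ),
      PP (c • muK ν) (Ev δ (closedBall 0 1 ×ˢ (closedBall 0 3 \ ball 0 2))) < q := by
    refine hZ.induction_on (p := fun W => ∀ q : ℝ≥0∞, q ≠ 0 → ∃ δ > (0 : ℝ),
      PP (c • muK ν) (Ev δ W) < q) (fun q hq => ⟨1, one_pos, ?_⟩) (fun W W' hW h q hq => ?_)
      (fun W W' h h' q hq => ?_) fun z hz => ?_
    · have : Ev 1 ∅ = ∅ := by simp [Ev]
      rw [this, measure_empty]
      exact pos_iff_ne_zero.2 hq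
    · obtain ⟨δ, hδ, h1⟩ := h q hq
      exact ⟨δ, hδ, (measure_mono (Ev.mono le_rfl hW)).trans_lt h1⟩
    · obtain ⟨δ, hδ, h1⟩ := h (q / 2) (ENNReal.half_pos hq).ne'
      obtain ⟨δ', hδ', h2⟩ := h' (q / 2) (ENNReal.half_pos hq).ne'
      refine ⟨min δ δ', lt_min hδ hδ', ?_⟩
      have hs : Ev (min δ δ') (W ∪ W') ⊆ Ev δ W ∪ Ev δ' W' := fun S ⟨z, hz, hS⟩ =>
        hz.imp (fun hz => Ev.mono (min_le_left _ _) Subset.rfl ⟨z, hz, hS⟩)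
          fun hz => Ev.mono (min_le_right _ _) Subset.rfl ⟨z, hz, hS⟩
      exact ((measure_mono hs).trans (measure_union_le _ _)).trans_lt
        ((ENNReal.add_lt_add h1 h2).trans_eq (ENNReal.add_halves q))
    · obtain ⟨s, hs, h1⟩ := hn z.1 z.2 (by simpa using hz.1) (by simpa using hz.2.2)
      refine ⟨ball z.1 s ×ˢ ball z.2 s, mem_nhdsWithin_of_mem_nhds
        (prod_mem_nhds (ball_mem_nhds _ hs) (ball_mem_nhds _ hs)), fun q hq => ?_⟩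
      obtain ⟨δ, hδ, h2⟩ := h1 q hq
      refine ⟨δ, hδ, (measure_mono ?_).trans_lt h2⟩
      rintro S ⟨w, hw, hS⟩
      exact Jn.mono Subset.rfl (singleton_subset_iff.2 hw.1) (singleton_subset_iff.2 hw.2) hS
  obtain ⟨δ, hδ, h1⟩ := key p hp
  exact absurd ((hl _ (lt_min hδ one_pos)).trans (measure_mono
    ((crs_sub (min_le_right _ _)).trans (Ev.mono (min_le_left _ _) Subset.rfl)))) (not_le.2 h1)

end Pool.Agent.P.MP_d66c6d_pr
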