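import Pool.Agent.P.MP_d66c6d_pr.S.Iface
import Pool.Agent.P.MP_d66c6d_pr.Expo

/-! Step LOWX of the carpet project. -/

namespace Pool.Agent.P.MP_d66c6d_pr

open MeasureTheory ProbabilityTheory Set Metric Filter Topology
open scoped ENNReal

namespace LowxA

theorem cut {x w z : ℂ} {ρ : ℝ} (hx : dist x z ≤ ρ) (hw : ρ ≤ dist w z) (γ : Path x w) :
    ∃ w', dist w' z = ρ ∧ ∃ γ' : Path x w', range γ' ⊆ range γ ∧ range γ' ⊆ closedBall z ρ := by
  have hf : Continuous γ.extend := γ.continuous_extend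
  have hg : Continuous fun t : ℝ => dist (γ.extend t) z := hf.dist continuous_const
  have hT : IsCompact (Icc (0 : ℝ) 1 ∩ {t | ρ ≤ dist (γ.extend t) z}) :=
    isCompact_Icc.inter_right (isClosed_le continuous_const hg)
  obtain ⟨t₀, ⟨ht₀, hρ₀⟩, hmin⟩ := hT.exists_isLeast ⟨1, ⟨zero_le_one, le_rfl⟩, by simpa using hw⟩
  obtain ⟨s, hs, hsρ⟩ := intermediate_value_Icc ht₀.1 hg.continuousOn
    (⟨by simpa using hx, hρ₀⟩ : ρ ∈ Icc (dist (γ.extend 0) z) (dist (γ.extend t₀) z))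
  have hst : s = t₀ := le_antisymm hs.2 (hmin ⟨⟨hs.1, hs.2.trans ht₀.2⟩, le_of_eq hsρ.symm⟩)
  rw [hst] at hsρ
  refine ⟨γ.extend t₀, hsρ, ⟨⟨fun t => γ.extend (t * t₀), by fun_prop⟩, by simp, by simp⟩, ?_, ?_⟩
  · rintro _ ⟨t, rfl⟩
    rw [← γ.extend_range]
    exact ⟨_, rfl⟩
  · rintro _ ⟨t, rfl⟩
    have h1 : (t : ℝ) * t₀ ≤ t₀ := mul_le_of_le_one_left ht₀.1 t.2.2
    have h0 : 0 ≤ (t : ℝ) * t₀ := mul_nonneg t.2.1 ht₀.1
    show dist (γ.extend (t * t₀)) z ≤ ρ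
    by_contra h
    have h2 := hmin ⟨⟨h0, h1.trans ht₀.2⟩, (not_le.1 h).le⟩
    rw [le_antisymm h1 h2] at h
    exact h (le_of_eq hsρ)

theorem det {X : Set ℂ} {x z : ℂ} {ρ ε M g c : ℝ} (hρ : 0 < ρ) (hε : 0 < ε) (hc : 0 < c)
    (hJ : ∀ x ∈ X, ∀ y ∈ X, JoinedIn X x y) (hx : x ∈ X) (hxz : dist x z ≤ ρ / 2)
    (hout : ¬ X ⊆ ball z ρ) (hG : Gain X z ρ ε M g)
    (hup : ∀ w ∈ X, ρ / 4 < dist x w → mfpp (ε / M) X x w ≤ ENNReal.ofReal c * mfpp ε X x w) :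
    g ≤ c := by
  have hxρ : dist x z ≤ ρ := by linarith
  have hd : ∀ w, dist w z = ρ → ρ / 2 ≤ dist x w := fun w hw => by
    have := dist_triangle w x z
    rw [dist_comm w x] at this
    linarith
  set m : ℝ≥0∞ := ⨅ w : {w // w ∈ X ∧ dist w z = ρ}, mfpp ε X x w with hm
  have hle : ∀ {w : ℂ} (γ : Path x w), range γ ⊆ X → dist w z = ρ →
      m ≤ volume (thickening ε (range γ)) := fun {w} γ hγ hw =>
    (iInf_le _ (⟨w, hγ ⟨1, γ.target⟩, hw⟩ : {w // w ∈ X ∧ dist w z = ρ})).trans (mfpp_le γ hγ)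
  have hm0 : m ≠ 0 := by
    have h1 : ENNReal.ofReal (ε * (ρ / 2)) ≤ m := le_iInf fun w =>
      (ENNReal.ofReal_le_ofReal (mul_le_mul_of_nonneg_left (hd w w.2.2) hε.le)).trans (le_mfpp hε)
    exact (lt_of_lt_of_le (ENNReal.ofReal_pos.2 (by positivity)) h1).ne'
  have hmt : m ≠ ∞ := by
    obtain ⟨y, hy, hyb⟩ := not_subset.1 hout
    obtain ⟨γ, hγ⟩ := hJ x hx y hy
    obtain ⟨w', hw', γ', h1, -⟩ := cut hxρ (not_lt.1 hyb) γ
    refine ne_top_of_le_ne_top ?_ (hle γ' (h1.trans (range_subset_iff.2 hγ)) hw')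
    exact ((isCompact_range γ'.continuous).isBounded.thickening.measure_lt_top).ne
  have key : ENNReal.ofReal g * m ≤ ENNReal.ofReal c * m := by
    conv_rhs => rw [hm, ENNReal.mul_iInf_of_ne (by simpa using hc) ENNReal.ofReal_ne_top]
    refine le_iInf fun w => le_trans ?_ (hup w w.2.1 (by linarith [hd w w.2.2]))
    refine le_iInf₂ fun γ hγ => ?_
    obtain ⟨w', hw', γ', h1, h2⟩ := cut hxρ (le_of_eq w.2.2.symm) γ
    refine (mul_le_mul_right (hle γ' (h1.trans hγ) hw') _).trans ?_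
    refine (hG _ (h1.trans hγ) ⟨isCompact_range γ'.continuous,
      isPreconnected_range γ'.continuous, h2, x, ⟨0, γ'.source⟩, w', ⟨1, γ'.target⟩,
      hd w' hw'⟩).trans ?_
    exact measure_mono (thickening_subset_of_subset _ h1)
  exact (ENNReal.ofReal_le_ofReal_iff hc.le).1 ((ENNReal.mul_le_mul_iff_left hm0 hmt).1 key)

theorem joined {Ω : Type} [MeasurableSpace Ω] {P : Measure Ω} {X : Ω → Set ℂ} {θ : ℝ}
    (hθ : IsDistExp P X θ) : ∀ᵐ ω ∂P, ∀ x ∈ X ω, ∀ y ∈ X ω, JoinedIn (X ω) x y := by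
  obtain ⟨a, -, hseq⟩ := hθ
  obtain ⟨φ, -, D, -, -, hr⟩ := hseq (fun n => 1 / ((n : ℝ) + 1)) (fun n => by positivity)
    tendsto_one_div_add_atTop_nhds_zero_nat
  have h1 := (hr 1 one_pos).2 1 one_pos
  rw [ae_iff]
  refine le_antisymm (ge_of_tendsto' h1 fun n => measure_mono fun ω hω => ?_) zero_le
  simp only [mem_ofPred_eq, not_forall] at hω
  obtain ⟨x, hx, y, hy, hxy⟩ := hω
  refine ⟨x, dil_one.symm ▸ hx, y, dil_one.symm ▸ hy, fun h => ?_⟩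
  have h2 := h.2
  rw [dil_one] at h2
  refine ENNReal.ofReal_ne_top (top_le_iff.1 (le_trans ?_ h2))
  exact le_iInf₂ fun γ hγ => (hxy ⟨γ, range_subset_iff.1 hγ⟩).elim

end LowxA

theorem p_LOWX :
    S_LOWX := by
  intro Ω _ P _ X θ hθ hX
  refine ⟨LowxA.joined hθ, fun z ρ M g hρ hM hg p hp hfr => ?_⟩
  obtain ⟨ε, hε, hεp⟩ := exists_seq_forall_of_frequently (hfr.and_eventually self_mem_nhdsWithin)
  have hε0 : Tendsto ε atTop (𝓝 0) := hε.mono_right nhdsWithin_le_nhds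
  have key : ∀ lam : ℝ, 1 < lam → g ≤ M ^ θ / M ^ 2 * lam := by
    intro lam hl
    have h1 := ratio_tendsto hθ hX hM (show 0 < ρ / 4 by positivity) hl (fun k => (hεp k).2) hε0
    obtain ⟨k, hk⟩ := (h1.eventually (gt_mem_nhds (pos_iff_ne_zero.2 hp))).exists
    by_contra hg'
    refine absurd ((hεp k).1.trans (measure_mono_ae ?_)) (not_le.2 hk)
    filter_upwards [LowxA.joined hθ] with ω hJ
    rintro ⟨⟨x, hx, hxz⟩, hout, hG⟩
    by_contra hno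
    refine hg' (LowxA.det hρ (hεp k).2 (by positivity) hJ hx hxz hout hG fun w hw hd => ?_)
    by_contra h
    exact hno ⟨x, hx, w, hw, hd, fun h' => h h'.2⟩
  rw [Real.rpow_sub hM, Real.rpow_two]
  have hc : 0 < M ^ θ / M ^ 2 := by positivity
  refine le_of_forall_gt_imp_ge_of_dense fun b hb => ?_
  have := key (b / (M ^ θ / M ^ 2)) ((one_lt_div hc).2 hb)
  rwa [mul_div_cancel₀ _ hc.ne'] at this

end Pool.Agent.P.MP_d66c6d_pr
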