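import Pool.Agent.P.MP_d66c6d_pr.S.Iface
import Pool.Agent.P.MP_d66c6d_pr.F.Iface

/-! Step PEI of the carpet project. -/

namespace Pool.Agent.P.MP_d66c6d_pr

open MeasureTheory ProbabilityTheory Set Metric Filter Topology
open scoped ENNReal

theorem p_PEI (hPEIA : S_PEIA) (hGAIN : S_GAIN) (hBADM : S_BADM) (hWLK : S_WLK) (hMUK : S_MUK) :
    S_PEI := by
  intro ν hν α h0 hα
  obtain ⟨p, hp, hP⟩ := hPEIA 4
  obtain ⟨M, hMp, hM⟩ := ((ENNReal.tendsto_nhds_zero.1 (((hBADM 12800 0).2 ν hν α hα).2 h0) p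
    (pos_iff_ne_zero.2 hp)).and (eventually_ge_atTop 6)).exists
  have hM' : (6 : ℝ) ≤ M := by exact_mod_cast hM
  have := (hMUK ν hν).2.1
  refine ⟨M, by linarith, fun z ρ hρ => ENNReal.tendsto_nhds_zero.2 fun ζ hζ => ?_⟩
  obtain ⟨ε₀, hε₀, hQ⟩ := hP z ρ hρ ζ hζ.ne'
  filter_upwards [Ioo_mem_nhdsGT (lt_min hε₀ (by positivity : 0 < ρ / 8))] with ε hε
  obtain ⟨hε, hε'⟩ := hε
  rw [lt_min_iff] at hε'
  have hres : ∀ c (S : Cfg KC), S.res (inK (ball (gp ε c) ((4 : ℕ) * ε))) ∈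
      badB 12800 M (gp ε c) ε ↔ S ∈ badB 12800 M (gp ε c) ε := fun c S => by
    rw [Nat.cast_ofNat]
    exact ((hBADM 12800 M).1 _ _).2 S
  refine le_trans (measure_mono fun S hS => ?_) (hQ ε ⟨hε, hε'.1⟩ (α • muK ν) inferInstance
    (fun c => badB 12800 M (gp ε c) ε) (fun c => ((hBADM 12800 M).1 _ _).1) fun c => ?_)
  · by_contra hn
    simp only [mem_ofPred_eq, not_exists, not_and, not_le, hres] at hn
    refine hS ?_
    have hv : ((12800 : ℕ) : ℝ) / (4 * M) / 1600 = 2 / M := by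
      push_cast
      field_simp
      norm_num
    rw [← hv]
    refine hGAIN _ z ρ ε M _ (fun c => S ∈ badB 12800 M (gp ε c) ε) hε (by linarith)
      (by linarith) (by positivity) hn fun c hc Γ hX hΓ h1 h2 => ?_
    refine hWLK 12800 M _ ε S Γ hM hε hc hΓ.2.1 h1 h2 fun L hL hL' => ?_
    refine disjoint_left.2 fun y hy => hX hy L hL (hL'.trans fun w hw => ?_)
    obtain ⟨x, x1, x2⟩ := h1
    have x3 := hΓ.2.2.1 x1
    rw [mem_closedBall] at x2 x3
    rw [mem_ball] at hw ⊢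
    linarith [dist_triangle w (gp ε c) z, dist_triangle_left (gp ε c) z x, hε'.2]
  · simp only [hres, ofPred_mem_eq]
    rw [((hBADM 12800 M).2 ν hν α hα).1 _ _ hε]
    exact hMp

end Pool.Agent.P.MP_d66c6d_pr
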