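import Pool.Agent.P.MP_d66c6d_pr.S.Iface
import Pool.Agent.P.MP_d66c6d_pr.F.Iface

/-! Step PEIA of the carpet project. -/

namespace Pool.Agent.P.MP_d66c6d_pr

open MeasureTheory ProbabilityTheory Set Metric Filter Topology
open scoped ENNReal

namespace PeiaA

theorem gp_re (ε : ℝ) (c : ℤ × ℤ) : (gp ε c).re = ε * c.1 := by simp [gp]

theorem gp_im (ε : ℝ) (c : ℤ × ℤ) : (gp ε c).im = ε * c.2 := by simp [gp]

theorem dist_gp {ε : ℝ} (hε : 0 < ε) (a b : ℤ × ℤ) : ε * dist a b ≤ dist (gp ε a) (gp ε b) := by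
  have h1 := Complex.abs_re_le_norm (gp ε a - gp ε b)
  have h2 := Complex.abs_im_le_norm (gp ε a - gp ε b)
  rw [Complex.sub_re, gp_re, gp_re, ← mul_sub, abs_mul, abs_of_pos hε] at h1
  rw [Complex.sub_im, gp_im, gp_im, ← mul_sub, abs_mul, abs_of_pos hε] at h2
  rw [Prod.dist_eq, Int.dist_eq, Int.dist_eq, dist_eq_norm, mul_max_of_nonneg _ _ hε.le]
  exact max_le h1 h2

theorem small {ζ : ℝ≥0∞} (hζ : ζ ≠ 0) :
    ∃ n₀ : ℕ, ∀ n, n₀ ≤ n → (((16 * n + 5) ^ 2 : ℕ) : ℝ≥0∞) * 2⁻¹ ^ n ≤ ζ := by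
  have h1 := (tendsto_pow_const_mul_const_pow_of_abs_lt_one 2 (r := 2⁻¹)
    (by rw [abs_of_pos] <;> norm_num)).const_mul 441
  have h2 := ENNReal.tendsto_ofReal h1
  rw [mul_zero, ENNReal.ofReal_zero] at h2
  obtain ⟨n₀, h⟩ := eventually_atTop.1 (h2.eventually (ge_mem_nhds (pos_iff_ne_zero.2 hζ)))
  refine ⟨n₀ + 1, fun n hn => le_trans ?_ (h n (by omega))⟩
  have h3 : (16 * n + 5) ^ 2 ≤ 441 * n ^ 2 := by
    have : 16 * n + 5 ≤ 21 * n := by omega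
    calc (16 * n + 5) ^ 2 ≤ (21 * n) ^ 2 := Nat.pow_le_pow_left this 2
      _ = 441 * n ^ 2 := by ring
  rw [← mul_assoc, ENNReal.ofReal_mul (by positivity), ENNReal.ofReal_pow (by norm_num : (0 : ℝ) ≤ 2⁻¹),
    ENNReal.ofReal_inv_of_pos two_pos, ENNReal.ofReal_ofNat]
  gcongr
  rw [← ENNReal.ofReal_natCast]
  exact ENNReal.ofReal_le_ofReal (by exact_mod_cast h3)

theorem mem_box {ε x ρ : ℝ} (hε : 0 < ε) {n : ℕ} (hn : ρ ≤ 8 * ε * n) {a : ℤ}
    (h : |ε * a - x| ≤ ρ + ε) :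
    a ∈ Finset.Icc (⌊x / ε⌋ - (8 * n + 2)) (⌊x / ε⌋ + (8 * n + 2)) := by
  have h1 := Int.floor_le (x / ε)
  have h2 := Int.lt_floor_add_one (x / ε)
  rw [le_div_iff₀ hε] at h1
  rw [div_lt_iff₀ hε] at h2
  obtain ⟨h3, h4⟩ := abs_le.1 h
  rw [Finset.mem_Icc]
  constructor
  · have : ((⌊x / ε⌋ - (8 * n + 2) : ℤ) : ℝ) ≤ a := by
      push_cast
      refine le_of_mul_le_mul_left ?_ hε
      nlinarith
    exact_mod_cast this
  · have : (a : ℝ) ≤ ((⌊x / ε⌋ + (8 * n + 2) : ℤ) : ℝ) := by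
      push_cast
      refine le_of_mul_le_mul_left ?_ hε
      nlinarith
    exact_mod_cast this

theorem card_box (a : ℤ) (n : ℕ) :
    (Finset.Icc (a - (8 * n + 2)) (a + (8 * n + 2))).card = 16 * n + 5 := by
  rw [Int.card_Icc]
  omega

end PeiaA

open PeiaA in
theorem p_PEIA (hANI : S_ANI) (hCELLS : S_CELLS) (hPPO : S_PPO) :
    S_PEIA := by
  intro k
  obtain ⟨p, hp0, hp⟩ := hANI.2 (2 * k)
  refine ⟨p, hp0, fun z ρ hρ ζ hζ => ?_⟩
  obtain ⟨n₀, hn₀⟩ := small hζ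
  refine ⟨ρ / (8 * (n₀ + 1)), by positivity, fun ε ⟨hε, hε'⟩ m hm bad hb hbp => ?_⟩
  set n := ⌈ρ / (8 * ε)⌉₊ with hn
  have h8 : 0 < 8 * ε := by positivity
  have hn1 : ρ ≤ 8 * ε * n := by
    have := Nat.le_ceil (ρ / (8 * ε))
    rwa [div_le_iff₀' h8] at this
  have hn2 : n₀ ≤ n := by
    rw [lt_div_iff₀ (by positivity)] at hε'
    have : (n₀ : ℝ) ≤ n := by
      refine le_of_mul_le_mul_left ?_ h8
      nlinarith
    exact_mod_cast this
  let bad' : ℤ × ℤ → Set (Cfg KC) := fun c => {S | S.res (inK (ball (gp ε c) (k * ε))) ∈ bad c}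
  have hind : ∀ B : Finset (ℤ × ℤ), B.Nonempty →
      (∀ a ∈ B, ∀ b ∈ B, a ≠ b → ((2 * k : ℕ) : ℝ) ≤ dist a b) →
      PP m (⋂ c ∈ B, bad' c) ≤ p ^ B.card := by
    intro B _ hB
    have h1 := (hPPO KC m hm).2.2.2.2.1 {c // c ∈ B} (fun c => inK (ball (gp ε c) (k * ε)))
      (fun c => (isOpen_inK isOpen_ball).measurableSet) fun a b hab => by
        have h2 := hB a a.2 b b.2 fun e => hab (Subtype.ext e)
        have h3 := dist_gp hε a b
        have h4 : Disjoint (ball (gp ε a) (k * ε)) (ball (gp ε b) (k * ε)) :=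
          ball_disjoint_ball (by push_cast at h2; nlinarith)
        refine disjoint_left.2 fun K hK hK' => ?_
        obtain ⟨x, hx⟩ := K.nonempty
        exact disjoint_left.1 h4 (hK hx) (hK' hx)
    have h2 := h1.measure_inter_preimage_eq_mul Finset.univ (sets := fun c => bad c)
      fun c _ => hb c
    have h3 : (⋂ c ∈ B, bad' c) = ⋂ c ∈ (Finset.univ : Finset {c // c ∈ B}),
        (fun S : Cfg KC => S.res (inK (ball (gp ε c) (k * ε)))) ⁻¹' bad c := by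
      ext S
      simp [bad']
    rw [h3, h2]
    refine (Finset.prod_le_pow_card _ _ p fun (c : {c // c ∈ B}) _ => hbp c.1).trans_eq ?_
    simp
  let F := (Finset.Icc (⌊z.re / ε⌋ - (8 * n + 2)) (⌊z.re / ε⌋ + (8 * n + 2))) ×ˢ
    (Finset.Icc (⌊z.im / ε⌋ - (8 * n + 2)) (⌊z.im / ε⌋ + (8 * n + 2)))
  have hF : F.card = (16 * n + 5) ^ 2 := by rw [Finset.card_product, card_box, card_box, sq]
  refine le_trans (measure_mono (t := ⋃ c₀ ∈ F, {ω | ∃ A : Finset (ℤ × ℤ), Anim c₀ A ∧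
    n ≤ A.card ∧ A.card ≤ 2 * {c | c ∈ A ∧ ω ∈ bad' c}.ncard}) ?_) ?_
  · rintro S ⟨Γ, ⟨h1, h2, h3, x, hx, y, hy, hxy⟩, h4⟩
    obtain ⟨c1, c2, c3, c4, -⟩ := hCELLS ε Γ hε h1 h2
    obtain ⟨c₀, hc₀, hx₀⟩ := c3 x hx
    have hd : ‖gp ε c₀ - z‖ ≤ ρ + ε := by
      have e1 := mem_closedBall.1 (h3 hx)
      have e2 := mem_closedBall'.1 hx₀
      rw [← dist_eq_norm]
      linarith [dist_triangle (gp ε c₀) x z]
    have e1 := (Complex.abs_re_le_norm _).trans hd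
    have e2 := (Complex.abs_im_le_norm _).trans hd
    rw [Complex.sub_re, gp_re] at e1
    rw [Complex.sub_im, gp_im] at e2
    have hcard : c1.toFinset.card = (cells ε Γ).ncard := (ncard_eq_toFinset_card _ c1).symm
    refine mem_biUnion (x := c₀) (Finset.mem_product.2 ⟨mem_box hε hn1 e1, mem_box hε hn1 e2⟩)
      ⟨c1.toFinset, by rw [c1.coe_toFinset]; exact c2 c₀ hc₀, ?_, ?_⟩
    · rw [hcard, hn, Nat.ceil_le, div_le_iff₀' h8]
      linarith [c4 x hx y hy]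
    · simp only [hcard, Finite.mem_toFinset]
      exact h4
  · refine (measure_biUnion_finset_le _ _).trans (le_trans ?_ (hn₀ n hn2))
    refine (Finset.sum_le_card_nsmul _ _ _ fun c₀ _ => hp _ (PP m) bad' hind c₀ n).trans_eq ?_
    rw [hF, nsmul_eq_mul]

end Pool.Agent.P.MP_d66c6d_pr
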