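import Pool.Agent.P.MP_d66c6d_pr.S.Iface
import Pool.Agent.P.MP_d66c6d_pr.F.Iface

/-! Step SUBQ of the carpet project. -/

namespace Pool.Agent.P.MP_d66c6d_pr

open MeasureTheory ProbabilityTheory Set Metric Filter Topology
open scoped ENNReal Pointwise

namespace SubqA

theorem mB (z : ℂ) (r : ℝ) : MeasurableSet (hitK (closedBall z r)) :=
  (isClosed_hitK isClosed_closedBall).measurableSet

theorem mC (z : ℂ) (r : ℝ) : MeasurableSet (hitK (ball z r)ᶜ) :=
  (isClosed_hitK isOpen_ball.isClosed_compl).measurableSet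

theorem diam_sim (a b : ℂ) (K : KC) : diam (simK a b K : Set ℂ) = ‖a‖ * diam (K : Set ℂ) := by
  have h : (simK a b K : Set ℂ) = (fun z => z + b) '' (a • (K : Set ℂ)) := by
    rw [coe_simK, ← image_smul, image_image]; rfl
  rw [h, (isometry_add_right b).diam_image, diam_smul₀]

variable {ν : Measure Br} {c : ℝ≥0∞}

theorem scale (hJN : S_JN) (hν : IsBridge ν) (hc : c ≠ ∞) (z : ℂ) (r : ℝ) {δ : ℝ} (hδ : 0 < δ) :
    PP (c • muK ν) (Crs δ z r) = PP (c • muK ν) (Crs 1 0 (r / δ)) := by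
  have hd : ∀ w : ℂ, dist (δ * w + z) z = δ * dist w 0 := fun w => by
    rw [dist_eq_norm, add_sub_cancel_right, norm_mul, Complex.norm_real, Real.norm_of_nonneg hδ.le,
      dist_zero_right]
  rw [Crs, Crs, ← (hJN.2 ν hν c hc).2.2 δ z _ _ _ (by exact_mod_cast hδ.ne')
    (measurableSet_bigK δ).compl (mB z r) (mC z _)]
  congr 2
  · ext K
    simp only [mem_preimage, mem_compl_iff, bigK, mem_ofPred_eq, diam_sim, Complex.norm_real,
      Real.norm_of_nonneg hδ.le, le_mul_iff_one_le_right hδ]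
  · ext w
    rw [mem_preimage, mem_closedBall, mem_closedBall, hd, le_div_iff₀' hδ]
  · ext w
    rw [mem_preimage, mem_compl_iff, mem_compl_iff, mem_ball, mem_ball, hd, ← mul_div_assoc,
      lt_div_iff₀' hδ]

theorem indep (hJN : S_JN) (hPPO : S_PPO) (hν : IsBridge ν) (hc : c ≠ ∞) {x y : ℂ} {R : ℝ}
    (hxy : R + R ≤ dist x y) (L : ℝ) :
    PP (c • muK ν) {S | S.res (inK (ball x R)) ∈ Crs 1 x L ∧ S.res (inK (ball y R)) ∈ Crs 1 y L} ≤
      PP (c • muK ν) (Crs 1 x L) * PP (c • muK ν) (Crs 1 y L) := by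
  obtain ⟨h1, h2, -⟩ := hJN.2 ν hν c hc
  obtain ⟨hs, hLF, -⟩ := h1 _ le_rfl
  have hm : ∀ w : ℂ, MeasurableSet (inK (ball w R)) := fun w =>
    (isOpen_inK isOpen_ball).measurableSet
  have hM : ∀ w : ℂ, MeasurableSet {S | LF stdA S ∧ S ∈ Crs 1 w L} := fun w =>
    hJN.1 _ _ _ (measurableSet_bigK 1).compl (mB _ _) (mC _ _)
  have hd : Disjoint (inK (ball x R)) (inK (ball y R)) := disjoint_left.2 fun K k1 k2 => by
    obtain ⟨w, hw⟩ := K.nonempty
    exact disjoint_left.1 (ball_disjoint_ball hxy) (k1 hw) (k2 hw)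
  have h4 := (hPPO KC (c • muK ν) inferInstance).2.2.2.1 _ _ (hm x) (hm y) hd
  have hres : ∀ (A : Set KC) (S : Cfg KC), LF stdA S → LF stdA (S.res A) := fun A S h =>
    ⟨inter_subset_left.trans h.1, fun j => (h.2 j).subset
      (inter_subset_inter_left _ inter_subset_left)⟩
  have hle : ∀ w : ℂ, PP ((c • muK ν).restrict (inK (ball w R))) {S | LF stdA S ∧ S ∈ Crs 1 w L} ≤
      PP (c • muK ν) (Crs 1 w L) := fun w =>
    (measure_mono fun S h => h.2).trans (h2 _ _ _ _ Measure.restrict_le_self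
      (measurableSet_bigK 1).compl (mB _ _) (mC _ _)).2
  refine le_trans ?_ (mul_le_mul' (hle x) (hle y))
  rw [← Measure.prod_prod, ← h4, Measure.map_apply
    ((measurable_res (hm x)).prodMk (measurable_res (hm y))) ((hM x).prod (hM y))]
  refine measure_mono_ae (hLF.mono fun S hS h => ?_)
  exact ⟨⟨hres _ _ hS, h.1⟩, hres _ _ hS, h.2⟩

theorem small {S : Cfg KC} {δ : ℝ} :
    ∀ K ∈ sets (S.res (bigK δ)ᶜ), ∀ x ∈ K, ∀ y ∈ K, dist x y < δ := by
  rintro _ ⟨K, hK, rfl⟩ x hx y hy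
  exact dist_lt_of_not_bigK hK.2 hx hy

theorem ends {T : Set (Set ℂ)} {A B : Set ℂ} (h : Joins T A B) :
    ∃ u ∈ A, ∃ v ∈ B, Joins T {u} {v} ∧ ∃ K ∈ T, v ∈ K := by
  obtain ⟨K, hK, K', h, ⟨u, u1, u2⟩, v, v1, v2⟩ := h
  exact ⟨u, u2, v, v2, ⟨K, hK, K', h, ⟨u, u1, rfl⟩, v, v1, rfl⟩, K', h.mem hK, v1⟩

theorem loc {S : Cfg KC} {u v x : ℂ} {L : ℝ} (hL : 1 ≤ L)
    (h : Joins (sets (S.res (bigK 1)ᶜ)) {u} {v}) (hu : dist u x ≤ L) (hv : 2 * L ≤ dist v x) :
    S.res (inK (ball x (3 * L))) ∈ Crs 1 x L := by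
  have h1 : Joins (sets (S.res (bigK 1)ᶜ)) (closedBall x L) (ball x (2 * L))ᶜ :=
    h.mono Subset.rfl (singleton_subset_iff.2 hu) (singleton_subset_iff.2 (not_lt.2 hv))
  refine (h1.localize small (closedBall_subset_ball (by linarith))).mono ?_ Subset.rfl Subset.rfl
  rintro _ ⟨⟨K, hK, rfl⟩, hK'⟩
  exact ⟨K, ⟨⟨hK.1, hK'.trans (ball_subset_ball (by linarith))⟩, hK.2⟩, rfl⟩

theorem cover : ∃ F : Finset ℂ, F.Nonempty ∧ ∀ (L : ℝ) (u : ℂ), 0 < L → ‖u‖ ≤ 30 * L →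
    ∃ x ∈ F, dist u (L * x) ≤ L := by
  obtain ⟨F, -, hF, h⟩ := finite_cover_balls_of_compact (isCompact_closedBall (0 : ℂ) 30) one_pos
  have key : ∀ (L : ℝ) (u : ℂ), 0 < L → ‖u‖ ≤ 30 * L → ∃ x ∈ hF.toFinset, dist u (L * x) ≤ L := by
    intro L u hL hu
    have hL' : (L : ℂ) ≠ 0 := by exact_mod_cast hL.ne'
    obtain ⟨x, hx, h'⟩ := mem_iUnion₂.1 (h (show u / L ∈ closedBall (0 : ℂ) 30 by
      rwa [mem_closedBall_zero_iff, norm_div, Complex.norm_real, Real.norm_of_nonneg hL.le,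
        div_le_iff₀ hL]))
    refine ⟨x, hF.mem_toFinset.2 hx, ?_⟩
    rw [mem_ball, dist_eq_norm] at h'
    rw [dist_eq_norm, show u - L * x = L * (u / L - x) by field_simp, norm_mul, Complex.norm_real,
      Real.norm_of_nonneg hL.le]
    nlinarith
  obtain ⟨x, hx, -⟩ := key 1 0 one_pos (by simp)
  exact ⟨_, ⟨x, hx⟩, key⟩

theorem one_end (hJN : S_JN) (hν : IsBridge ν) (hc : c ≠ ∞) {F : Finset ℂ}
    (hF : ∀ (L : ℝ) (u : ℂ), 0 < L → ‖u‖ ≤ 30 * L → ∃ x ∈ F, dist u (L * x) ≤ L) {L L' : ℝ}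
    (hL : 0 < L) (h1 : 3 * L ≤ L') (h2 : L' ≤ 30 * L) :
    PP (c • muK ν) (Crs 1 0 L') ≤ F.card * PP (c • muK ν) (Crs 1 0 L) := by
  have hsub : Crs 1 0 L' ⊆ ⋃ x ∈ F, Crs 1 (L * x) L := fun S hS => by
    obtain ⟨u, hu, v, hv, h, -⟩ := ends hS
    rw [mem_closedBall_zero_iff] at hu
    rw [mem_compl_iff, mem_ball_zero_iff, not_lt] at hv
    obtain ⟨x, hx, hd⟩ := hF L u hL (hu.trans h2)
    refine mem_biUnion hx (h.mono Subset.rfl (singleton_subset_iff.2 hd)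
      (singleton_subset_iff.2 fun h' => ?_))
    rw [mem_ball] at h'
    have a1 := dist_triangle_right v u (L * x)
    have a2 := norm_sub_norm_le v u
    rw [← dist_eq_norm] at a2
    linarith
  refine (measure_mono hsub).trans ((measure_biUnion_finset_le _ _).trans ?_)
  rw [← nsmul_eq_mul]
  exact Finset.sum_le_card_nsmul _ _ _ fun x _ => by rw [scale hJN hν hc _ _ one_pos, div_one]

theorem two_ends (hJN : S_JN) (hPPO : S_PPO) (hν : IsBridge ν) (hc : c ≠ ∞) {F : Finset ℂ}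
    (hF : ∀ (L : ℝ) (u : ℂ), 0 < L → ‖u‖ ≤ 30 * L → ∃ x ∈ F, dist u (L * x) ≤ L) {L : ℝ}
    (hL : 1 ≤ L) :
    PP (c • muK ν) (Crs 1 0 (10 * L)) ≤ (F.card * PP (c • muK ν) (Crs 1 0 L)) ^ 2 := by
  classical
  let G := (F ×ˢ F).filter fun q : ℂ × ℂ => 3 * L + 3 * L ≤ dist (L * q.1) (L * q.2)
  have hsub : Crs 1 0 (10 * L) ⊆ ⋃ q ∈ G, {S | S.res (inK (ball (L * q.1) (3 * L))) ∈
      Crs 1 (L * q.1) L ∧ S.res (inK (ball (L * q.2) (3 * L))) ∈ Crs 1 (L * q.2) L} := by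
    intro S hS
    obtain ⟨u, hu, v, hv, h, K, hK, hvK⟩ :=
      ends (Joins.localize small (closedBall_subset_ball (by linarith)) hS)
    have hv' := hK.2 hvK
    replace h := h.mono (sep_subset _ _) Subset.rfl Subset.rfl
    rw [mem_closedBall_zero_iff] at hu
    rw [mem_compl_iff, mem_ball_zero_iff, not_lt] at hv
    rw [mem_ball_zero_iff] at hv'
    obtain ⟨x, hx, hd⟩ := hF L u (by linarith) (by linarith)
    obtain ⟨y, hy, hd'⟩ := hF L v (by linarith) (by linarith)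
    have a1 := dist_triangle_right v u (L * x)
    have a2 := norm_sub_norm_le v u
    have a3 := dist_triangle_right v u (L * y)
    have a4 := dist_triangle v (L * y) (L * x)
    rw [← dist_eq_norm] at a2
    rw [dist_comm (L * y : ℂ)] at a4
    exact mem_biUnion (x := (x, y)) (Finset.mem_filter.2 ⟨Finset.mem_product.2 ⟨hx, hy⟩,
      by dsimp only; linarith⟩) ⟨loc hL h hd (by linarith), loc hL h.symm hd' (by linarith)⟩
  refine (measure_mono hsub).trans ((measure_biUnion_finset_le _ _).trans ?_)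
  refine (Finset.sum_le_card_nsmul _ _ (PP (c • muK ν) (Crs 1 0 L) ^ 2) fun q hq => ?_).trans ?_
  · refine (indep hJN hPPO hν hc (Finset.mem_filter.1 hq).2 L).trans_eq ?_
    rw [scale hJN hν hc _ _ one_pos, scale hJN hν hc (L * q.2) _ one_pos, div_one, sq]
  · rw [nsmul_eq_mul, mul_pow]
    gcongr
    exact_mod_cast (Finset.card_filter_le _ _).trans_eq (by rw [Finset.card_product, sq])

end SubqA

open SubqA in
theorem p_SUBQ (hJN : S_JN) (hPPO : S_PPO) (hMUK : S_MUK) :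
    S_SUBQ := by
  intro ν hν c hc hs
  obtain ⟨F, hF0, hF⟩ := cover
  have hN : (1 : ℝ≥0∞) ≤ F.card := by exact_mod_cast hF0.card_pos
  have ht := ENNReal.Tendsto.const_mul (a := (F.card : ℝ≥0∞) ^ 2) hs
    (Or.inr (ENNReal.pow_ne_top (ENNReal.natCast_ne_top _)))
  rw [mul_zero] at ht
  obtain ⟨δ, h0, hδ⟩ := ((ht.eventually (ge_mem_nhds (a := ENNReal.ofReal (Real.exp (-1)))
    (ENNReal.ofReal_pos.2 (Real.exp_pos _)))).and (Ioc_mem_nhdsGT one_pos)).exists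
  rw [scale hJN hν hc _ _ hδ.1] at h0
  have hL0 : 1 ≤ 1 / δ := one_le_one_div hδ.1 hδ.2
  generalize 1 / δ = L0 at h0 hL0
  have hk : ∀ k : ℕ, 1 ≤ 10 ^ k * L0 := fun k =>
    one_le_mul_of_one_le_of_one_le (one_le_pow₀ (by norm_num)) hL0
  have key : ∀ k : ℕ, (F.card : ℝ≥0∞) ^ 2 * PP (c • muK ν) (Crs 1 0 (10 ^ k * L0)) ≤
      ENNReal.ofReal (Real.exp (-2 ^ k)) := by
    intro k
    induction k with
    | zero => simpa using h0
    | succ k ih =>
      rw [pow_succ' 10, mul_assoc, pow_succ 2, ← neg_mul, mul_comm _ (2 : ℝ), two_mul, Real.exp_add,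
        ENNReal.ofReal_mul (Real.exp_pos _).le]
      refine le_trans ?_ (mul_le_mul' ih ih)
      refine (mul_le_mul_right (two_ends hJN hPPO hν hc hF (hk k)) _).trans_eq ?_
      ring
  refine ⟨(30 * L0)⁻¹ ^ (1 / 4 : ℝ), Real.exp 1, by positivity, fun m hm z r δ hr hδ => ?_⟩
  refine (((hJN.2 ν hν c hc).2.1 m _ _ _ hm (measurableSet_bigK δ).compl (mB z r) (mC z _)).2.trans_eq
    (scale hJN hν hc z r hδ)).trans ?_
  have hL : 0 < r / δ := div_pos hr hδ
  generalize r / δ = L at hL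
  rw [neg_mul, ← Real.mul_rpow (by positivity) hL.le, ← Real.exp_add, ← div_eq_inv_mul]
  rcases le_total (L / (30 * L0)) 1 with h | h
  · refine prob_le_one.trans (ENNReal.one_le_ofReal.2 (Real.one_le_exp ?_))
    linarith [Real.rpow_le_one (by positivity) h (show (0 : ℝ) ≤ 1 / 4 by norm_num)]
  · obtain ⟨k, h1, h2⟩ := exists_nat_pow_near h (show (1 : ℝ) < 10 by norm_num)
    have h3 : (L / (30 * L0)) ^ (1 / 4 : ℝ) ≤ 2 ^ (k + 1) := by
      rw [← Real.pow_rpow_inv_natCast (x := 2 ^ (k + 1)) (n := 4) (by positivity) (by norm_num),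
        one_div, ← pow_mul, mul_comm _ 4, pow_mul]
      exact Real.rpow_le_rpow (by positivity)
        (h2.le.trans (pow_le_pow_left₀ (by norm_num) (by norm_num) _)) (by norm_num)
    rw [le_div_iff₀ (by positivity)] at h1
    rw [div_lt_iff₀ (by positivity)] at h2
    refine (one_end hJN hν hc hF (one_pos.trans_le (hk (k + 1))) (by rw [pow_succ]; linarith)
      (by linarith)).trans (le_trans ?_ ((key (k + 1)).trans (ENNReal.ofReal_le_ofReal
        (Real.exp_le_exp.2 (by linarith)))))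
    gcongr
    exact le_self_pow₀ hN (by norm_num)

end Pool.Agent.P.MP_d66c6d_pr
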