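import Pool.Agent.P.MP_d66c6d_pr.S.Iface

/-! Step WALK of the carpet project. -/

namespace Pool.Agent.P.MP_d66c6d_pr

open MeasureTheory ProbabilityTheory Set Metric Filter Topology
open scoped ENNReal

namespace WalkA

/-- `w` is a short walk through `B`. -/
def Inv (c₀ : ℤ × ℤ) (B : Finset (ℤ × ℤ)) (w : ℕ → ℤ × ℤ) : Prop :=
  w 0 = c₀ ∧ (∀ i, dist (w i) (w (i + 1)) ≤ 2) ∧ (∀ i, w i ∈ B) ∧
    ∀ b ∈ B, ∃ i, i + 1 < 2 * B.card ∧ w i = b

theorem step {c₀ a b : ℤ × ℤ} {B : Finset (ℤ × ℤ)} {w : ℕ → ℤ × ℤ} (h : Inv c₀ B w) (hb : b ∈ B)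
    (ha : a ∉ B) (hd : dist b a ≤ 2) : ∃ w', Inv c₀ (insert a B) w' := by
  obtain ⟨h0, h1, h2, h3⟩ := h
  obtain ⟨j, hj, rfl⟩ := h3 b hb
  refine ⟨fun i => if i ≤ j then w i else if i = j + 1 then a else w (i - 2), by simpa using h0,
    fun i => ?_, fun i => ?_, fun x hx => ?_⟩
  · dsimp only
    rcases lt_trichotomy i j with e | e | e
    · rw [if_pos e.le, if_pos (show i + 1 ≤ j by omega)]
      exact h1 i
    · rw [if_pos e.le, if_neg (show ¬ i + 1 ≤ j by omega), if_pos (show i + 1 = j + 1 by omega), e]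
      exact hd
    · rw [if_neg (show ¬ i ≤ j by omega), if_neg (show ¬ i + 1 ≤ j by omega),
        if_neg (show ¬ i + 1 = j + 1 by omega)]
      split_ifs with e'
      · rw [show i + 1 - 2 = j by omega, dist_comm]
        exact hd
      · rw [show i + 1 - 2 = i - 2 + 1 by omega]
        exact h1 _
  · simp only [Finset.mem_insert]
    split_ifs
    exacts [Or.inr (h2 _), Or.inl rfl, Or.inr (h2 _)]
  · rw [Finset.card_insert_of_notMem ha]
    rcases Finset.mem_insert.1 hx with rfl | hx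
    · exact ⟨j + 1, by omega, by simp⟩
    · obtain ⟨i, hi, rfl⟩ := h3 x hx
      by_cases e : i ≤ j
      · exact ⟨i, by omega, by simp [e]⟩
      · refine ⟨i + 2, by omega, ?_⟩
        simp only
        rw [if_neg (by omega), if_neg (by omega), Nat.add_sub_cancel]

theorem exit {c₀ : ℤ × ℤ} {A B : Finset (ℤ × ℤ)} (h0 : c₀ ∈ B) {x : ℤ × ℤ}
    (h : Relation.ReflTransGen (fun u v => v ∈ (A : Set (ℤ × ℤ)) ∧ dist u v ≤ 2) c₀ x)
    (hx : x ∉ B) : ∃ b ∈ B, ∃ a ∈ A, a ∉ B ∧ dist b a ≤ 2 := by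
  induction h with
  | refl => exact absurd h0 hx
  | @tail u v _ h2 ih =>
    by_cases e : u ∈ B
    · exact ⟨u, e, v, h2.1, hx, h2.2⟩
    · exact ih e

theorem grow {c₀ : ℤ × ℤ} {A : Finset (ℤ × ℤ)} (h : Anim c₀ A) (n : ℕ) (hn : n + 1 ≤ A.card) :
    ∃ B ⊆ A, B.card = n + 1 ∧ ∃ w, Inv c₀ B w := by
  induction n with
  | zero =>
    exact ⟨{c₀}, Finset.singleton_subset_iff.2 h.1, rfl, fun _ => c₀, rfl, by simp, by simp,
      fun b hb => ⟨0, by simp, (Finset.mem_singleton.1 hb).symm⟩⟩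
  | succ n ih =>
    obtain ⟨B, h1, h2, w, h3⟩ := ih (by omega)
    obtain ⟨x, hx, hx'⟩ := Finset.exists_mem_notMem_of_card_lt_card (show B.card < A.card by omega)
    obtain ⟨b, hb, a, ha, ha', hd⟩ := exit (h3.1 ▸ h3.2.2.1 0) (h.2 x hx) hx'
    exact ⟨insert a B, Finset.insert_subset ha h1, by rw [Finset.card_insert_of_notMem ha', h2],
      step h3 hb ha' hd⟩

end WalkA

theorem p_WALK :
    S_WALK := by
  intro c₀ A h
  have h0 : 0 < A.card := Finset.card_pos.2 ⟨c₀, h.1⟩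
  obtain ⟨B, h1, h2, w, h3⟩ := WalkA.grow h (A.card - 1) (by omega)
  obtain rfl : B = A := Finset.eq_of_subset_of_card_le h1 (by omega)
  refine ⟨w, h3.1, h3.2.1, Finset.ext fun x => ⟨fun hx => ?_, fun hx => ?_⟩⟩
  · obtain ⟨i, hi, rfl⟩ := h3.2.2.2 x hx
    exact Finset.mem_image_of_mem w (Finset.mem_range.2 (by omega))
  · obtain ⟨i, -, rfl⟩ := Finset.mem_image.1 hx
    exact h3.2.2.1 i

end Pool.Agent.P.MP_d66c6d_pr
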