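import Pool.Agent.P.MP_d66c6d_pr.S.Iface

/-! Step WLK of the carpet project. -/

namespace Pool.Agent.P.MP_d66c6d_pr

open MeasureTheory ProbabilityTheory Set Metric Filter Topology
open scoped ENNReal

namespace WlkA

/-- The points of `Γ` reached in at most `k` small steps. -/
def A (Γ : Set ℂ) (c : ℂ) (r ε : ℝ) : ℕ → Set ℂ
  | 0 => Γ ∩ closedBall c r
  | k + 1 => A Γ c r ε k ∪ {y ∈ Γ | ∃ x ∈ A Γ c r ε k, x ∈ ball c (2 * r) ∧ dist y x < ε}

variable {Γ : Set ℂ} {c : ℂ} {r ε : ℝ}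

theorem mono_A : Monotone (A Γ c r ε) := monotone_nat_of_le_succ fun _ => subset_union_left

theorem sub_A (hr : 0 < r) (hε : 0 < ε) (k : ℕ) : A Γ c r ε k ⊆ Γ ∩ ball c (2 * r + ε) := by
  induction k with
  | zero => exact inter_subset_inter_right _ (closedBall_subset_ball (by linarith))
  | succ k ih =>
    refine union_subset ih fun y ⟨h1, x, _, h2, h3⟩ => ⟨h1, ?_⟩
    rw [mem_ball] at h2 ⊢
    linarith [dist_triangle y x c]

theorem chain (hr : 0 < r) (hε : 0 < ε) (k : ℕ) : ∀ x ∈ A Γ c r ε k, ∃ y : ℕ → ℂ,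
    y 0 ∈ closedBall c r ∧ y k = x ∧ (∀ i < k, dist (y i) (y (i + 1)) < ε) ∧
      ∀ i, y i ∈ Γ ∩ ball c (2 * r + ε) := by
  induction k with
  | zero => exact fun x hx => ⟨fun _ => x, hx.2, rfl, by simp, fun _ => sub_A hr hε 0 hx⟩
  | succ k ih =>
    intro x hx
    obtain ⟨x', h1, h2⟩ : ∃ x' ∈ A Γ c r ε k, dist x x' < ε := by
      rcases hx with hx | ⟨-, x', h1, -, h2⟩
      · exact ⟨x, hx, by simpa using hε⟩
      · exact ⟨x', h1, h2⟩
    obtain ⟨y, y0, yk, ys, ym⟩ := ih x' h1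
    refine ⟨fun i => if i ≤ k then y i else x, by simpa using y0, by simp, fun i hi => ?_,
      fun i => ?_⟩
    · rcases (Nat.lt_succ_iff.1 hi).eq_or_lt with rfl | h
      · simpa [yk, dist_comm] using h2
      · simpa [h.le, Nat.succ_le_of_lt h] using ys i h
    · by_cases h : i ≤ k
      · simpa only [if_pos h] using ym i
      · simpa only [if_neg h] using sub_A hr hε _ hx

theorem grow (hε : 0 < ε) (hΓ : IsPreconnected Γ) (h0 : (Γ ∩ closedBall c r).Nonempty)
    (h1 : ¬ Γ ⊆ ball c (2 * r)) {k : ℕ} (hk : A Γ c r ε k ⊆ ball c (2 * r)) :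
    ∃ y ∈ A Γ c r ε (k + 1), y ∉ A Γ c r ε k := by
  by_contra hn
  have h2 : ∀ y ∈ Γ, y ∈ thickening ε (A Γ c r ε k) → y ∈ A Γ c r ε k := fun y hy h => by
    obtain ⟨x, hx, h⟩ := mem_thickening_iff.1 h
    by_contra h3
    exact hn ⟨y, Or.inr ⟨hy, x, hx, hk hx, h⟩, h3⟩
  have h3 : closure (thickening (ε / 2) (A Γ c r ε k)) ⊆ thickening ε (A Γ c r ε k) :=
    (closure_thickening_subset_cthickening _ _).trans
      (cthickening_subset_thickening' hε (by linarith) _)
  have h4 := self_subset_thickening (half_pos hε) (A Γ c r ε k)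
  obtain ⟨z, hz⟩ := h0
  have h5 := hΓ.subset_of_closure_inter_subset isOpen_thickening
    ⟨z, hz.1, h4 (mono_A (Nat.zero_le k) hz)⟩ fun y hy => h4 (h2 y hy.2 (h3 hy.1))
  exact h1 fun y hy => hk (h2 y hy (h3 (subset_closure (h5 hy))))

theorem near (c : ℂ) (hr : 0 < r) (hε : 0 < ε) (y : ℂ) : ∃ j, dist (c + r * dn j) y < ε := by
  obtain ⟨j, hj⟩ := denseRange_dn.exists_dist_lt ((y - c) / r) (div_pos hε hr)
  have h0 : (r : ℂ) ≠ 0 := by exact_mod_cast hr.ne'
  refine ⟨j, ?_⟩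
  rw [dist_comm, dist_eq_norm, lt_div_iff₀' hr] at hj
  rw [dist_eq_norm, show c + r * dn j - y = r * (dn j - (y - c) / r) by field_simp; ring, norm_mul,
    Complex.norm_real, Real.norm_of_nonneg hr.le]
  exact hj

theorem vol (hr : 0 < r) (hε : 0 < ε) (hεr : 2 * ε ≤ r) (hΓ : IsPreconnected Γ)
    (h0 : (Γ ∩ closedBall c r).Nonempty) (h1 : ¬ Γ ⊆ ball c (2 * r)) {n : ℕ}
    (hn : A Γ c r ε n ⊆ ball c (2 * r)) :
    ENNReal.ofReal (n / 4 * ε ^ 2) ≤ volume (thickening ε Γ ∩ ball c (3 * r)) := by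
  have h2 : ∀ i : Fin (n / 2 + 1), ∃ y ∈ A Γ c r ε (2 * i + 1), y ∉ A Γ c r ε (2 * i) := fun i =>
    grow hε hΓ h0 h1 ((mono_A (by have := i.2; omega)).trans hn)
  choose y y1 y2 using h2
  have far : ∀ i j : Fin (n / 2 + 1), i < j → ε ≤ dist (y j) (y i) := fun i j hij => by
    have hij' : (i : ℕ) < j := hij
    have := j.2
    refine not_lt.1 fun h => y2 j (mono_A (show 2 * i + 1 + 1 ≤ 2 * (j : ℕ) by omega) ?_)
    exact Or.inr ⟨(sub_A hr hε _ (y1 j)).1, y i, y1 i, hn (mono_A (by omega) (y1 i)), h⟩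
  have hd : Pairwise (Function.onFun Disjoint fun i => ball (y i) (ε / 2)) := fun i j hij => by
    refine ball_disjoint_ball ?_
    rw [add_halves]
    rcases lt_or_gt_of_ne hij with h | h
    · rw [dist_comm]
      exact far i j h
    · exact far j i h
  have hs : ⋃ i, ball (y i) (ε / 2) ⊆ thickening ε Γ ∩ ball c (3 * r) :=
    iUnion_subset fun i z hz => by
      obtain ⟨h3, h4⟩ := sub_A hr hε _ (y1 i)
      rw [mem_ball] at hz h4
      refine ⟨mem_thickening_iff.2 ⟨y i, h3, by linarith⟩, ?_⟩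
      rw [mem_ball]
      linarith [dist_triangle z (y i) c]
  refine le_trans ?_ (measure_mono hs)
  rw [measure_iUnion hd fun _ => measurableSet_ball, tsum_fintype]
  simp only [Complex.volume_ball, Finset.sum_const, Finset.card_univ, Fintype.card_fin,
    nsmul_eq_mul]
  rw [← ENNReal.ofReal_natCast, ← ENNReal.ofReal_pow (by positivity),
    ← ENNReal.ofReal_coe_nnreal, ← ENNReal.ofReal_mul (by positivity),
    ← ENNReal.ofReal_mul (by positivity), NNReal.coe_real_pi]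
  refine ENNReal.ofReal_le_ofReal ?_
  have h5 : (n : ℝ) ≤ 2 * ((n / 2 + 1 : ℕ) : ℝ) := by exact_mod_cast (by omega)
  have h6 : (0 : ℝ) ≤ ((n / 2 + 1 : ℕ) : ℝ) := Nat.cast_nonneg _
  have h7 := mul_le_mul_of_nonneg_left Real.two_le_pi h6
  nlinarith [mul_le_mul_of_nonneg_right h5 (sq_nonneg ε),
    mul_le_mul_of_nonneg_right h7 (sq_nonneg ε)]

end WlkA

open WlkA in
theorem p_WLK :
    S_WLK := by
  intro K M c r S Γ hM hr hS hΓ h0 h1 hL
  have hM' : (6 : ℝ) ≤ M := by exact_mod_cast hM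
  have hε : 0 < r / M := by positivity
  have hεr : 6 * (r / M) ≤ r := by
    rw [← mul_div_assoc, div_le_iff₀ (by linarith)]
    nlinarith
  have hn : A Γ c r (r / M) (K * M) ⊆ ball c (2 * r) := fun x hx => by
    by_contra hx'
    obtain ⟨y, y0, yk, ys, ym⟩ := chain hr hε _ x hx
    choose g hg using fun i => near c hr (half_pos hε) (y i)
    refine hS ⟨g, ⟨?_, ?_, fun i hi => ?_, fun i _ => ?_⟩, fun i _ L h2 h3 h4 => ?_⟩
    · rw [mem_closedBall] at y0
      linarith [dist_triangle (c + r * dn (g 0)) (y 0) c, hg 0]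
    · rw [mem_ball, not_lt, ← yk] at hx'
      linarith [dist_triangle_left (y (K * M)) c (c + r * dn (g (K * M))), hg (K * M)]
    · linarith [dist_triangle4_right (c + r * dn (g i)) (c + r * dn (g (i + 1))) (y i) (y (i + 1)),
        hg i, hg (i + 1), ys i hi]
    · have := (ym i).2
      rw [mem_ball] at this
      linarith [dist_triangle (c + r * dn (g i)) (y i) c, hg i]
    · refine disjoint_left.1 (hL L h2 h3) (ym i).1 (interior_maximal h4 isOpen_ball ?_)
      rw [mem_ball, dist_comm]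
      linarith [hg i]
  refine le_trans (le_of_eq ?_) (vol hr hε (by linarith) hΓ h0 h1 hn)
  congr 1
  push_cast
  field_simp

end Pool.Agent.P.MP_d66c6d_pr
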