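import Pool.Agent.P.MP_d66c6d_pr.S.Iface
import Pool.Agent.P.MP_d66c6d_pr.F.Iface

/-! Step ZO of the carpet project. -/

namespace Pool.Agent.P.MP_d66c6d_pr

open MeasureTheory ProbabilityTheory Set Metric Filter Topology
open scoped ENNReal

namespace ZoA

theorem joins_iUnion {T0 : Set (Set ℂ)} {T : ℕ → Set (Set ℂ)} (hT : Monotone T)
    (h0 : ∀ K ∈ T0, ∃ n, K ∈ T n) {B C : Set ℂ} (h : Joins T0 B C) : ∃ n, Joins (T n) B C := by
  obtain ⟨K, hK, K', h, h1, h2⟩ := h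
  suffices ∃ n, K ∈ T n ∧ Lk (T n) K K' by
    obtain ⟨n, a, b⟩ := this
    exact ⟨n, K, a, K', b, h1, h2⟩
  clear h2
  induction h with
  | refl => exact (h0 K hK).imp fun n hn => ⟨hn, .refl⟩
  | tail _ h3 ih =>
    obtain ⟨n, a, b⟩ := ih
    obtain ⟨m, hm⟩ := h0 _ h3.1
    exact ⟨max n m, hT (le_max_left n m) a,
      (Lk.mono (hT (le_max_left n m)) b).tail ⟨hT (le_max_right n m) hm, h3.2⟩⟩

theorem big_anti {s t : ℝ} (h : s ≤ t) : bigK t ⊆ bigK s := fun K hK =>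
  show s ≤ diam (K : Set ℂ) from h.trans hK

theorem big_mono : Monotone fun n : ℕ => bigK (1 / ((n : ℝ) + 1)) := fun _ _ h =>
  big_anti (Nat.one_div_le_one_div h)

theorem jn_sub {D : Set KC} {B C : Set ℂ} {S : Cfg KC} (hS : LF stdA S) (h : S ∈ Jn D B C) :
    S ∈ ⋃ n : ℕ, Jn (bigK (1 / ((n : ℝ) + 1)) ∩ D) B C := by
  refine mem_iUnion.2 (joins_iUnion
    (T := fun n : ℕ => sets (S.res (bigK (1 / ((n : ℝ) + 1)) ∩ D)))
    (fun n m hnm => image_mono (inter_subset_inter_right _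
      (inter_subset_inter_left _ (big_mono hnm)))) ?_ h)
  rintro _ ⟨K, hK, rfl⟩
  obtain ⟨j, hj⟩ := mem_iUnion.1 (hS.1 hK.1)
  exact ⟨j, K, ⟨hK.1, hj.2, hK.2⟩, rfl⟩

end ZoA

open ZoA in
theorem p_ZO (hJN : S_JN) (hPPO : S_PPO) (hMUK : S_MUK) :
    S_ZO := by
  intro ν hν c hc A B C hA hB hC q hq hlow
  obtain ⟨j1, j2, -⟩ := hJN.2 ν hν c hc
  set M : Measure KC := c • muK ν with hM
  obtain ⟨hσ, hLF, -⟩ := j1 M le_rfl
  obtain ⟨-, p2, -, p4, -⟩ := hPPO KC M inferInstance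
  have hD : ∀ δ, MeasurableSet (A ∩ (bigK δ)ᶜ) := fun δ => hA.inter (measurableSet_bigK δ).compl
  have hq1 : q ≠ ∞ := ne_top_of_le_ne_top (measure_ne_top _ _) (hlow 1 one_pos)
  set F : ℝ≥0∞ := ⨆ δ : {δ : ℝ // 0 < δ}, PP M (Jn (A ∩ (bigK δ.1)ᶜ) B C)ᶜ with hF
  have hle : ∀ δ > (0 : ℝ), PP M (Jn (A ∩ (bigK δ)ᶜ) B C)ᶜ ≤ F := fun δ hδ =>
    le_iSup (fun δ : {δ : ℝ // 0 < δ} => PP M (Jn (A ∩ (bigK δ.1)ᶜ) B C)ᶜ) ⟨δ, hδ⟩
  have pre : ∀ (G D : Set KC), MeasurableSet G → MeasurableSet D →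
      PP (M.restrict G) (Jn D B C)ᶜ = PP M (Jn (G ∩ D) B C)ᶜ := fun G D hG hD' => by
    have h1 := (j2 (M.restrict G) D B C Measure.restrict_le_self hD' hB hC).1.compl
    rw [← p2 G hG] at h1 ⊢
    rw [Measure.map_apply₀ (measurable_res hG).aemeasurable h1]
    congr 1
    ext S
    simp only [mem_preimage, mem_compl_iff, res_mem_Jn]
  have step : ∀ δ > (0 : ℝ), PP M (Jn (A ∩ (bigK δ)ᶜ) B C)ᶜ ≤ (1 - q / 2) * F := by
    intro δ hδ
    have h1 : q ≤ ⨆ n : ℕ, PP M (Jn (bigK (1 / ((n : ℝ) + 1)) ∩ (A ∩ (bigK δ)ᶜ)) B C) := by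
      rw [← Monotone.measure_iUnion fun n m hnm =>
        Jn.mono (inter_subset_inter_left _ (big_mono hnm)) Subset.rfl Subset.rfl]
      exact (hlow δ hδ).trans (measure_mono_ae (hLF.mono fun S hS h => jn_sub hS h))
    obtain ⟨n, hn⟩ := lt_iSup_iff.1 ((ENNReal.half_lt_self hq hq1).trans_le h1)
    have hd : (0 : ℝ) < 1 / ((n : ℝ) + 1) := Nat.one_div_pos_of_nat
    generalize 1 / ((n : ℝ) + 1) = d at hn hd
    have hG := measurableSet_bigK d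
    have h2 : (Jn (A ∩ (bigK δ)ᶜ) B C)ᶜ ⊆ (fun S : Cfg KC => (S.res (bigK d), S.res (bigK d)ᶜ)) ⁻¹'
        ((Jn (A ∩ (bigK δ)ᶜ) B C)ᶜ ×ˢ (Jn (A ∩ (bigK δ)ᶜ) B C)ᶜ) := fun S hS =>
      ⟨fun h => hS (Jn.of_subset inter_subset_left h), fun h => hS (Jn.of_subset inter_subset_left h)⟩
    refine (measure_mono h2).trans ((Measure.le_map_apply
      ((measurable_res hG).prodMk (measurable_res hG.compl)).aemeasurable _).trans ?_)
    rw [p4 _ _ hG hG.compl disjoint_compl_right, Measure.prod_prod, pre _ _ hG (hD δ),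
      pre _ _ hG.compl (hD δ)]
    refine mul_le_mul' ?_ ?_
    · rw [prob_compl_eq_one_sub₀ (j2 M _ B C le_rfl (hG.inter (hD δ)) hB hC).1]
      exact tsub_le_tsub_left hn.le _
    · refine le_trans (measure_mono (compl_subset_compl.2 (Jn.mono ?_ Subset.rfl Subset.rfl)))
        (hle (min δ d) (lt_min hδ hd))
      exact fun K hK => ⟨fun h => hK.2 (big_anti (min_le_right _ _) h), hK.1,
        fun h => hK.2 (big_anti (min_le_left _ _) h)⟩
  have hF1 : F ≠ ∞ := ne_top_of_le_ne_top ENNReal.one_ne_top (iSup_le fun _ => prob_le_one)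
  have hF0 : F = 0 := by
    by_contra h0
    have h1 : F ≤ (1 - q / 2) * F := iSup_le fun δ => step δ.1 δ.2
    have h2 : 1 - q / 2 < 1 := ENNReal.sub_lt_self ENNReal.one_ne_top one_ne_zero
      (ENNReal.div_pos hq ENNReal.ofNat_ne_top).ne'
    have h3 := ENNReal.mul_lt_mul_left h0 hF1 h2
    rw [one_mul] at h3
    exact absurd h1 (not_le.2 h3)
  intro δ hδ
  exact le_antisymm ((hle δ hδ).trans hF0.le) zero_le

end Pool.Agent.P.MP_d66c6d_pr
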